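import Mathlib

/-!
Regular local rings: quotients by a parameter, regular local rings are domains.
-/

namespace Pool.Agent.Lib.MP_1ce8ed_ag

open IsLocalRing

universe u

variable {R : Type u} [CommRing R]

/-- A non-member of the square of the maximal ideal is part of a minimal generating set. -/
theorem exists_gens [IsLocalRing R] [IsNoetherianRing R] {x : R} (hx : x ∈ maximalIdeal R)
    (hx2 : x ∉ maximalIdeal R ^ 2) :
    ∃ s : Set R, s.Finite ∧ s.ncard + 1 ≤ (maximalIdeal R).spanFinrank ∧
      Ideal.span (insert x s) = maximalIdeal R := by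
  classical
  set V := CotangentSpace R
  set k := ResidueField R
  set τ := (maximalIdeal R).toCotangent with hτ
  set v : V := τ ⟨x, hx⟩ with hv
  have hv0 : v ≠ 0 := by
    rw [hv, hτ, Ne, Ideal.toCotangent_eq_zero]
    exact hx2
  have hli : LinearIndepOn k id ({v} : Set V) := by
    have : LinearIndepOn k (id : V → V) {v} := (linearIndepOn_singleton_iff k).2 hv0
    exact this
  obtain ⟨b, -, hvb, hspan, hb⟩ := exists_linearIndepOn_id_extension hli (Set.subset_univ _)
  have hbtop : Submodule.span k b = ⊤ := by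
    rw [eq_top_iff]
    intro y _
    exact hspan (Set.mem_univ y)
  have hbfin : b.Finite := hb.linearIndependent.setFinite
  have hcard : b.ncard ≤ (maximalIdeal R).spanFinrank := by
    rw [spanFinrank_maximalIdeal_eq_finrank_cotangentSpace]
    have hli2 := hb.linearIndependent
    have := hbfin.fintype
    have h2 := hli2.fintype_card_le_finrank
    rw [Set.ncard_eq_toFinset_card' b, Set.toFinset_card]
    exact h2
  have hsur : Function.Surjective τ := (maximalIdeal R).toCotangent_surjective
  set σ : V → maximalIdeal R := Function.surjInv hsur with hσ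
  have hτσ : ∀ w, τ (σ w) = w := Function.surjInv_eq hsur
  set S : Set (maximalIdeal R) := insert ⟨x, hx⟩ (σ '' (b \ {v})) with hS
  have himg : τ '' S = b := by
    rw [hS, Set.image_insert_eq, ← Set.image_comp]
    have : (τ ∘ σ) = id := by
      funext w
      exact hτσ w
    rw [this, Set.image_id]
    rw [← hv, Set.insert_sdiff_singleton]
    exact Set.insert_eq_of_mem (hvb rfl)
  have hStop : Submodule.span R S = ⊤ := by
    rw [← CotangentSpace.span_image_eq_top_iff]
    rw [← hτ, himg]
    exact hbtop
  refine ⟨(fun w => ((σ w : maximalIdeal R) : R)) '' (b \ {v}), ?_, ?_, ?_⟩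
  · exact (hbfin.subset Set.sdiff_subset).image _
  · have h1 : ((fun w => ((σ w : maximalIdeal R) : R)) '' (b \ {v})).ncard ≤ (b \ {v}).ncard :=
      Set.ncard_image_le (hbfin.subset Set.sdiff_subset)
    have h2 := Set.ncard_sdiff_singleton_add_one (hvb rfl : v ∈ b) hbfin
    omega
  · have h1 : Submodule.map (maximalIdeal R).subtype (Submodule.span R S) = maximalIdeal R := by
      rw [hStop]
      simp
    rw [Submodule.map_span, hS, Set.image_insert_eq, ← Set.image_comp] at h1
    exact h1

theorem spanFinrank_quotient_succ_le [IsLocalRing R] [IsNoetherianRing R] {x : R}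
    (hx : x ∈ maximalIdeal R) (hx2 : x ∉ maximalIdeal R ^ 2)
    [IsLocalRing (R ⧸ Ideal.span {x})] :
    (maximalIdeal (R ⧸ Ideal.span {x})).spanFinrank + 1 ≤ (maximalIdeal R).spanFinrank := by
  obtain ⟨s, hs, hcard, hspan⟩ := exists_gens hx hx2
  have h1 : maximalIdeal (R ⧸ Ideal.span {x}) =
      (maximalIdeal R).map (Ideal.Quotient.mk (Ideal.span {x})) := by
    symm
    apply IsLocalRing.map_maximalIdeal_of_surjective
    exact Ideal.Quotient.mk_surjective
  have h2 : maximalIdeal (R ⧸ Ideal.span {x}) =
      Ideal.span ((Ideal.Quotient.mk (Ideal.span {x})) '' s) := by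
    rw [h1, ← hspan, Ideal.map_span, Set.image_insert_eq]
    have : (Ideal.Quotient.mk (Ideal.span {x})) x = 0 :=
      Ideal.Quotient.eq_zero_iff_mem.2 (Ideal.mem_span_singleton_self x)
    rw [this, Ideal.span_insert_zero]
  rw [h2]
  have h3 := Submodule.spanFinrank_span_le_ncard_of_finite (R := R ⧸ Ideal.span {x})
    (hs.image (Ideal.Quotient.mk (Ideal.span {x})))
  have h4 := Set.ncard_image_le (f := Ideal.Quotient.mk (Ideal.span {x})) hs
  have h5 : (Ideal.span ((Ideal.Quotient.mk (Ideal.span {x})) '' s)).spanFinrank ≤ s.ncard :=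
    h3.trans h4
  omega

theorem isLocalRing_quotient [IsLocalRing R] {x : R} (hx : x ∈ maximalIdeal R) :
    IsLocalRing (R ⧸ Ideal.span {x}) := by
  have : Nontrivial (R ⧸ Ideal.span {x}) := by
    apply Ideal.Quotient.nontrivial_iff.2
    intro h
    have : Ideal.span {x} ≤ maximalIdeal R := by
      rw [Ideal.span_singleton_le_iff_mem]
      exact hx
    rw [h] at this
    exact (maximalIdeal.isMaximal R).ne_top (top_le_iff.1 this)
  exact IsLocalRing.of_surjective' (Ideal.Quotient.mk _) Ideal.Quotient.mk_surjective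

theorem ringKrullDim_le_quotient_add_one [IsLocalRing R] [IsNoetherianRing R] {x : R}
    (hx : x ∈ maximalIdeal R) : ringKrullDim R ≤ ringKrullDim (R ⧸ Ideal.span {x}) + 1 := by
  have h := ringKrullDim_le_ringKrullDim_quotient_add_encard (R := R) {x} (by
    rw [Set.singleton_subset_iff, IsLocalRing.ringJacobson_eq_maximalIdeal]
    exact hx)
  simpa using h

theorem regular_quotient [IsRegularLocalRing R] {x : R}
    (hx : x ∈ maximalIdeal R) (hx2 : x ∉ maximalIdeal R ^ 2) :
    ∃ _ : IsRegularLocalRing (R ⧸ Ideal.span {x}),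
      (maximalIdeal (R ⧸ Ideal.span {x})).spanFinrank + 1 = (maximalIdeal R).spanFinrank := by
  have := isLocalRing_quotient hx
  have h1 := spanFinrank_quotient_succ_le hx hx2
  have h2 := ringKrullDim_le_quotient_add_one hx
  rw [← IsRegularLocalRing.spanFinrank_maximalIdeal] at h2
  have h3 : (((maximalIdeal (R ⧸ Ideal.span {x})).spanFinrank : ℕ) : WithBot ℕ∞) + 1 ≤
      ringKrullDim (R ⧸ Ideal.span {x}) + 1 := by
    refine le_trans ?_ h2
    exact_mod_cast h1
  have h4 : (((maximalIdeal (R ⧸ Ideal.span {x})).spanFinrank : ℕ) : WithBot ℕ∞) ≤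
      ringKrullDim (R ⧸ Ideal.span {x}) := by
    have := (ENat.WithBot.add_le_add_natCast_right_iff (c := 1)).1 (by simpa using h3)
    exact this
  have hreg := IsRegularLocalRing.of_spanFinrank_maximalIdeal_le (R := R ⧸ Ideal.span {x}) h4
  refine ⟨hreg, ?_⟩
  have h5 := hreg.spanFinrank_maximalIdeal
  rw [← h5] at h2
  have h6 : (maximalIdeal R).spanFinrank ≤
    (maximalIdeal (R ⧸ Ideal.span {x})).spanFinrank + 1 := by exact_mod_cast h2
  omega

/-- Prime avoidance together with the square of the maximal ideal. -/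
theorem exists_notMem_sq [IsLocalRing R] [IsNoetherianRing R] (hm : maximalIdeal R ≠ ⊥)
    {s : Set (Ideal R)} (hs : s.Finite) (hprime : ∀ p ∈ s, p.IsPrime)
    (hne : ∀ p ∈ s, ¬ maximalIdeal R ≤ p) :
    ∃ x ∈ maximalIdeal R, x ∉ maximalIdeal R ^ 2 ∧ ∀ p ∈ s, x ∉ p := by
  by_contra hcon
  push Not at hcon
  have hsub : (maximalIdeal R : Set R) ⊆
      ⋃ i ∈ (insert (maximalIdeal R ^ 2) s : Set (Ideal R)), ((id i : Ideal R) : Set R) := by
    intro y hy
    by_cases hy2 : y ∈ maximalIdeal R ^ 2
    · exact Set.mem_biUnion (Set.mem_insert _ _) hy2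
    · obtain ⟨p, hp, hyp⟩ := hcon y hy hy2
      exact Set.mem_biUnion (Set.mem_insert_of_mem _ hp) hyp
  obtain ⟨p, hp, hle⟩ := (Ideal.subset_union_prime_finite (hs.insert (maximalIdeal R ^ 2))
    (f := id) (maximalIdeal R ^ 2) (maximalIdeal R ^ 2) (by
      intro i hi hne _
      rcases hi with h | h
      · exact absurd h hne
      · exact hprime i h)).1 hsub
  rcases hp with h | h
  · subst h
    apply hm
    apply Submodule.eq_bot_of_le_smul_of_le_jacobson_bot (maximalIdeal R) (maximalIdeal R)
      (IsNoetherian.noetherian _)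
    · rw [smul_eq_mul, ← pow_two]
      exact hle
    · rw [IsLocalRing.jacobson_eq_maximalIdeal _ bot_ne_top]
  · exact hne p h hle

theorem isField_of_spanFinrank_eq_zero [IsLocalRing R] [IsNoetherianRing R]
    (h : (maximalIdeal R).spanFinrank = 0) : IsField R := by
  rw [Submodule.spanFinrank_eq_zero_iff_eq_bot (maximalIdeal R).fg_of_isNoetherianRing] at h
  exact IsLocalRing.isField_iff_maximalIdeal_eq.2 h

theorem isDomain_aux (n : ℕ) : ∀ (R : Type u) [CommRing R] [IsRegularLocalRing R],
    (maximalIdeal R).spanFinrank = n → IsDomain R := by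
  induction n with
  | zero =>
    intro R _ _ h
    exact (isField_of_spanFinrank_eq_zero h).isDomain
  | succ n ih =>
    intro R _ _ h
    have hm : maximalIdeal R ≠ ⊥ := by
      intro h0
      rw [h0, Submodule.spanFinrank_bot] at h
      omega
    have hdim : ringKrullDim R = (n + 1 : ℕ) := by
      rw [← IsRegularLocalRing.spanFinrank_maximalIdeal, h]
    obtain ⟨x, hx, hx2, hxp⟩ := exists_notMem_sq (R := R) hm (s := minimalPrimes R)
      (minimalPrimes.finite_of_isNoetherianRing R) (fun p hp => hp.1.1) (by
        intro p hp hle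
        have hpm : p = maximalIdeal R :=
          le_antisymm (IsLocalRing.le_maximalIdeal hp.1.1.ne_top) hle
        have hzero : ringKrullDim R = 0 := by
          rw [← IsLocalRing.maximalIdeal_height_eq_ringKrullDim]
          have : (maximalIdeal R).height = 0 := by
            rw [Ideal.height_eq_zero_iff, ← hpm]
            exact hp
          rw [this]
          rfl
        rw [hzero] at hdim
        have : (0 : ℕ) = n + 1 := by exact_mod_cast hdim
        omega)
    obtain ⟨hreg, hrk⟩ := regular_quotient hx hx2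
    have hdom := ih (R ⧸ Ideal.span {x}) (by omega)
    have hprime : (Ideal.span {x}).IsPrime := (Ideal.Quotient.isDomain_iff_prime _).1 hdom
    obtain ⟨p, hp, hple⟩ := Ideal.exists_minimalPrimes_le (I := (⊥ : Ideal R))
      (J := Ideal.span {x}) bot_le
    have hpprime : p.IsPrime := hp.1.1
    have hxnp : x ∉ p := hxp p hp
    have hpbot : p = ⊥ := by
      apply Submodule.eq_bot_of_le_smul_of_le_jacobson_bot (maximalIdeal R) p
        (IsNoetherian.noetherian _)
      · intro a ha
        obtain ⟨b, rfl⟩ := Ideal.mem_span_singleton.1 (hple ha)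
        have hb : b ∈ p := (hpprime.mem_or_mem ha).resolve_left hxnp
        exact Submodule.smul_mem_smul hx hb
      · rw [IsLocalRing.jacobson_eq_maximalIdeal _ bot_ne_top]
    rw [hpbot] at hpprime
    exact IsDomain.of_bot_isPrime R

theorem isDomain_of_regular (R : Type u) [CommRing R] [IsRegularLocalRing R] : IsDomain R :=
  isDomain_aux _ R rfl

end Pool.Agent.Lib.MP_1ce8ed_ag
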