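import Mathlib
import Pool.Agent.Lib.MP_1ce8ed_ag.RL1

/-!
Finitely generated modules over a regular local ring have finite projective dimension.
-/

namespace Pool.Agent.Lib.MP_1ce8ed_ag

open IsLocalRing CategoryTheory

universe u

/-- The projective dimension of `M` is at most `k`. -/
abbrev PD (R : Type u) [CommRing R] (k : ℕ) (M : Type u) [AddCommGroup M] [Module R M] : Prop :=
  HasProjectiveDimensionLE (ModuleCat.of R M) k

section basic

variable {R : Type u} [CommRing R] {M N F : Type u} [AddCommGroup M] [Module R M]
  [AddCommGroup N] [Module R N] [AddCommGroup F] [Module R F]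

theorem pd_zero_iff : PD R 0 M ↔ Module.Projective R M := by
  rw [PD, ← projective_iff_hasProjectiveDimensionLE_zero]
  exact (IsProjective.iff_projective (R := R) (P := M)).symm

theorem pd_succ_iff (f : F →ₗ[R] M) (hf : Function.Surjective f) [hF : Module.Projective R F]
    (k : ℕ) : PD R (k + 1) M ↔ PD R k (LinearMap.ker f) := by
  have hS := LinearMap.shortExact_shortComplexKer hf
  have hP : Projective (ModuleCat.of R F) := (IsProjective.iff_projective (R := R) (P := F)).1 hF
  exact hS.hasProjectiveDimensionLT_X₃_iff k hP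

theorem pd_of_equiv (e : M ≃ₗ[R] N) {k : ℕ} (h : PD R k M) : PD R k N := by
  have := h
  exact ModuleCat.hasProjectiveDimensionLE_of_linearEquiv (M := ModuleCat.of R M)
    (N := ModuleCat.of R N) e k

theorem pd_mono {k l : ℕ} (hkl : k ≤ l) (h : PD R k M) : PD R l M := by
  have := h
  exact hasProjectiveDimensionLT_of_ge (ModuleCat.of R M) (k + 1) (l + 1) (by omega)

theorem pd_retract (i : N →ₗ[R] M) (r : M →ₗ[R] N) (h : ∀ n, r (i n) = n) {k : ℕ}
    (hM : PD R k M) : PD R k N := by
  have := hM
  let ret : Retract (ModuleCat.of R N) (ModuleCat.of R M) :=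
    { i := ModuleCat.ofHom i
      r := ModuleCat.ofHom r
      retract := by
        ext n
        exact h n }
  exact ret.hasProjectiveDimensionLT (k + 1)

end basic

/-- `π : M → N` is the reduction of `M` modulo `x`. -/
structure IsRed {R S : Type u} [CommRing R] [CommRing S] [Algebra R S] (x : R)
    {M N : Type u} [AddCommGroup M] [Module R M] [AddCommGroup N] [Module R N] (π : M →ₗ[R] N) :
    Prop where
  surj : Function.Surjective π
  ker : ∀ m, π m = 0 ↔ ∃ m', m = x • m'

section change

variable {R S : Type u} [CommRing R] [CommRing S] [Algebra R S] {x : R}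
  (hS : IsRed (S := S) x (Algebra.linearMap R S)) (hx : IsSMulRegular R x)
  {M N : Type u} [AddCommGroup M] [Module R M] [AddCommGroup N] [Module R N] [Module S N]
  [IsScalarTower R S N]

/-- The reduction of a free module. -/
noncomputable def redFin (S : Type u) [CommRing S] [Algebra R S] (m : ℕ) :
    (Fin m → R) →ₗ[R] (Fin m → S) :=
  (Algebra.linearMap R S).compLeft (Fin m)

theorem redFin_apply (m : ℕ) (v : Fin m → R) (i : Fin m) :
    redFin S m v i = algebraMap R S (v i) := rfl

include hS in
theorem redFin_isRed (m : ℕ) : IsRed (S := S) x (redFin (R := R) S m) := by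
  refine ⟨?_, ?_⟩
  · intro w
    choose v hv using fun i => hS.surj (w i)
    exact ⟨v, funext fun i => hv i⟩
  · intro v
    constructor
    · intro h
      have h1 : ∀ i, ∃ m', v i = x • m' := fun i =>
        (hS.ker (v i)).1 (by
          have := congrFun h i
          exact this)
      choose v' hv' using h1
      exact ⟨v', funext fun i => hv' i⟩
    · rintro ⟨v', rfl⟩
      funext i
      exact (hS.ker _).2 ⟨v' i, rfl⟩

/-- The map between free modules and the reduction. -/
noncomputable def redMap (S : Type u) [CommRing S] [Algebra R S] [Module S N] {m : ℕ}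
    (f : (Fin m → R) →ₗ[R] M) (π : M →ₗ[R] N) : (Fin m → S) →ₗ[S] N :=
  Fintype.linearCombination S (fun i => π (f (Pi.single i 1)))

theorem redMap_redFin {m : ℕ} (f : (Fin m → R) →ₗ[R] M) (π : M →ₗ[R] N) (v : Fin m → R) :
    redMap S f π (redFin S m v) = π (f v) := by
  rw [redMap, Fintype.linearCombination_apply]
  have h1 : v = ∑ i, v i • (Pi.single i (1 : R) : Fin m → R) := by
    ext j
    simp [Finset.sum_apply, Pi.single_apply]
  conv_rhs => rw [h1]
  rw [map_sum, map_sum]
  refine Finset.sum_congr rfl fun i _ => ?_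
  rw [map_smul, map_smul, redFin_apply, algebraMap_smul]

include hS in
/-- Kernels of presentations are compatible with reduction. -/
theorem exists_redKer {m : ℕ} (f : (Fin m → R) →ₗ[R] M) (hf : Function.Surjective f)
    (hxM : IsSMulRegular M x) (π : M →ₗ[R] N) (hπ : IsRed (S := S) x π) :
    Function.Surjective (redMap S f π) ∧
      ∃ π' : LinearMap.ker f →ₗ[R] LinearMap.ker (redMap S f π), IsRed (S := S) x π' := by
  have hm := redFin_isRed hS m
  refine ⟨?_, ?_⟩
  · intro n
    obtain ⟨a, rfl⟩ := hπ.surj n
    obtain ⟨v, rfl⟩ := hf a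
    exact ⟨redFin S m v, redMap_redFin f π v⟩
  · refine ⟨{ toFun := fun l => ⟨redFin S m l.1, ?_⟩, map_add' := ?_, map_smul' := ?_ }, ?_, ?_⟩
    · rw [LinearMap.mem_ker, redMap_redFin, LinearMap.mem_ker.1 l.2, map_zero]
    · intro a b
      apply Subtype.ext
      simp
    · intro r a
      apply Subtype.ext
      simp
    · rintro ⟨w, hw⟩
      obtain ⟨v, rfl⟩ := hm.surj w
      rw [LinearMap.mem_ker, redMap_redFin] at hw
      obtain ⟨m', hm'⟩ := (hπ.ker _).1 hw
      obtain ⟨v', rfl⟩ := hf m'
      refine ⟨⟨v - x • v', ?_⟩, ?_⟩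
      · rw [LinearMap.mem_ker, map_sub, map_smul, hm', sub_self]
      · apply Subtype.ext
        show redFin S m (v - x • v') = redFin S m v
        rw [map_sub, (hm.ker (x • v')).2 ⟨v', rfl⟩, sub_zero]
    · rintro ⟨v, hv⟩
      constructor
      · intro h
        have h1 : redFin S m v = 0 := congrArg Subtype.val h
        obtain ⟨v', rfl⟩ := (hm.ker v).1 h1
        rw [LinearMap.mem_ker, map_smul] at hv
        have hv' : f v' = 0 := by
          apply hxM
          show x • f v' = x • (0 : M)
          rw [hv, smul_zero]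
        exact ⟨⟨v', hv'⟩, rfl⟩
      · rintro ⟨⟨v', hv'⟩, h⟩
        apply Subtype.ext
        show redFin S m v = 0
        exact (hm.ker v).2 ⟨v', congrArg Subtype.val h⟩

include hS hx in
/-- Projective dimension does not increase under reduction modulo a regular element. -/
theorem pd_down [IsLocalRing R] [IsNoetherianRing R] (k : ℕ) :
    ∀ (M N : Type u) [AddCommGroup M] [Module R M] [AddCommGroup N] [Module R N] [Module S N]
      [IsScalarTower R S N] [Module.Finite R M], IsSMulRegular M x →
      ∀ π : M →ₗ[R] N, IsRed (S := S) x π → PD R k M → PD S k N := by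
  induction k with
  | zero =>
    intro M N _ _ _ _ _ _ _ hxM π hπ hM
    rw [pd_zero_iff] at hM ⊢
    have hfree : Module.Free R M := Module.free_of_flat_of_isLocalRing
    let b := Module.finBasis R M
    let f : (Fin (Module.finrank R M) → R) →ₗ[R] M := b.equivFun.symm.toLinearMap
    have hf : Function.Surjective f := b.equivFun.symm.surjective
    have hker : LinearMap.ker f = ⊥ := LinearEquiv.ker b.equivFun.symm
    obtain ⟨h1, π', hπ'⟩ := exists_redKer hS f hf hxM π hπ
    have h2 : LinearMap.ker (redMap S f π) = ⊥ := by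
      rw [Submodule.eq_bot_iff]
      intro w hw
      obtain ⟨a, ha⟩ := hπ'.surj ⟨w, hw⟩
      have ha0 : a = 0 := by
        apply Subtype.ext
        exact (Submodule.mem_bot R).1 (hker.le a.2)
      rw [ha0, map_zero] at ha
      exact (congrArg Subtype.val ha).symm
    have e : (Fin (Module.finrank R M) → S) ≃ₗ[S] N :=
      LinearEquiv.ofBijective (redMap S f π) ⟨LinearMap.ker_eq_bot.1 h2, h1⟩
    exact Module.Projective.of_equiv e
  | succ k ih =>
    intro M N _ _ _ _ _ _ _ hxM π hπ hM
    obtain ⟨m, f, hf⟩ := Module.Finite.exists_fin' R M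
    obtain ⟨h1, π', hπ'⟩ := exists_redKer hS f hf hxM π hπ
    rw [pd_succ_iff f hf] at hM
    rw [pd_succ_iff (redMap S f π) h1]
    refine ih (LinearMap.ker f) (LinearMap.ker (redMap S f π)) ?_ π' hπ' hM
    intro a b hab
    apply Subtype.ext
    have h3 : ∀ i, x • (a.1 i) = x • (b.1 i) := fun i => congrFun (congrArg Subtype.val hab) i
    funext i
    exact hx (h3 i)

include hS hx in
/-- Projective dimension does not increase when lifting modulo a regular element. -/
theorem pd_up [IsLocalRing R] [IsNoetherianRing R] [IsLocalRing S] (hxm : x ∈ maximalIdeal R)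
    (k : ℕ) :
    ∀ (M N : Type u) [AddCommGroup M] [Module R M] [AddCommGroup N] [Module R N] [Module S N]
      [IsScalarTower R S N] [Module.Finite R M], IsSMulRegular M x →
      ∀ π : M →ₗ[R] N, IsRed (S := S) x π → PD S k N → PD R k M := by
  have hjac : Ideal.span {x} ≤ (⊥ : Ideal R).jacobson := by
    rw [IsLocalRing.jacobson_eq_maximalIdeal _ bot_ne_top, Ideal.span_singleton_le_iff_mem]
    exact hxm
  induction k with
  | zero =>
    intro M N _ _ _ _ _ _ _ hxM π hπ hN
    rw [pd_zero_iff] at hN ⊢
    have hfinN : Module.Finite S N := by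
      have : Module.Finite R N := Module.Finite.of_surjective π hπ.surj
      exact Module.Finite.of_restrictScalars_finite R S N
    have hfree : Module.Free S N := Module.free_of_flat_of_isLocalRing
    let b := Module.finBasis S N
    choose a ha using fun i => hπ.surj (b i)
    let f : (Fin (Module.finrank S N) → R) →ₗ[R] M := Fintype.linearCombination R a
    have hfs : ∀ i, f (Pi.single i 1) = a i := by
      intro i
      show Fintype.linearCombination R a (Pi.single i 1) = a i
      rw [Fintype.linearCombination_apply_single, one_smul]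
    have hred : redMap S f π = b.equivFun.symm.toLinearMap := by
      apply (Pi.basisFun S (Fin (Module.finrank S N))).ext
      intro i
      rw [Pi.basisFun_apply, redMap, Fintype.linearCombination_apply_single, one_smul, hfs, ha]
      show b i = b.equivFun.symm (Pi.single i 1)
      rw [Module.Basis.equivFun_symm_apply]
      simp [Pi.single_apply]
    have hf : Function.Surjective f := by
      rw [← LinearMap.range_eq_top, ← top_le_iff]
      apply Submodule.le_of_le_smul_of_le_jacobson_bot (I := Ideal.span {x})
        (Module.Finite.fg_top) hjac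
      intro y _
      obtain ⟨w, hw⟩ : ∃ w, redMap S f π w = π y := by
        rw [hred]
        exact b.equivFun.symm.surjective (π y)
      obtain ⟨v, rfl⟩ := (redFin_isRed hS _).surj w
      rw [redMap_redFin] at hw
      obtain ⟨m', hm'⟩ := (hπ.ker (y - f v)).1 (by rw [map_sub, hw, sub_self])
      rw [← sub_add_cancel y (f v), hm', add_comm]
      exact Submodule.add_mem_sup ⟨v, rfl⟩
        (Submodule.smul_mem_smul (Ideal.mem_span_singleton_self x) trivial)
    obtain ⟨h1, π', hπ'⟩ := exists_redKer hS f hf hxM π hπ
    have hker : LinearMap.ker f = ⊥ := by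
      have hk2 : LinearMap.ker (redMap S f π) = ⊥ := by
        rw [hred]
        exact LinearEquiv.ker b.equivFun.symm
      apply Submodule.eq_bot_of_le_smul_of_le_jacobson_bot (Ideal.span {x}) _
        (IsNoetherian.noetherian _) _ hjac
      intro v hv
      have h3 : π' ⟨v, hv⟩ = 0 := by
        apply Subtype.ext
        exact (Submodule.mem_bot S).1 (hk2.le (π' ⟨v, hv⟩).2)
      obtain ⟨v', hv'⟩ := (hπ'.ker _).1 h3
      have h4 : v = x • v'.1 := congrArg Subtype.val hv'
      rw [h4]
      exact Submodule.smul_mem_smul (Ideal.mem_span_singleton_self x) v'.2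
    have e : (Fin (Module.finrank S N) → R) ≃ₗ[R] M :=
      LinearEquiv.ofBijective f ⟨LinearMap.ker_eq_bot.1 hker, hf⟩
    exact Module.Projective.of_equiv e
  | succ k ih =>
    intro M N _ _ _ _ _ _ _ hxM π hπ hN
    obtain ⟨m, f, hf⟩ := Module.Finite.exists_fin' R M
    obtain ⟨h1, π', hπ'⟩ := exists_redKer hS f hf hxM π hπ
    rw [pd_succ_iff f hf]
    rw [pd_succ_iff (redMap S f π) h1] at hN
    refine ih (LinearMap.ker f) (LinearMap.ker (redMap S f π)) ?_ π' hπ' hN
    intro a b hab
    apply Subtype.ext
    have h3 : ∀ i, x • (a.1 i) = x • (b.1 i) := fun i => congrFun (congrArg Subtype.val hab) i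
    funext i
    exact hx (h3 i)

end change

/-- The quotient ring by `x` is the reduction modulo `x`. -/
theorem isRed_quotient {R : Type u} [CommRing R] (x : R) :
    IsRed (S := R ⧸ Ideal.span {x}) x (Algebra.linearMap R (R ⧸ Ideal.span {x})) := by
  refine ⟨Ideal.Quotient.mk_surjective, ?_⟩
  intro r
  show Ideal.Quotient.mk _ r = 0 ↔ _
  rw [Ideal.Quotient.eq_zero_iff_mem, Ideal.mem_span_singleton]
  rfl

/-- The reduction of a module. -/
theorem isRed_mkQ {R : Type u} [CommRing R] (x : R) (M : Type u) [AddCommGroup M] [Module R M] :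
    IsRed (S := R ⧸ Ideal.span {x}) x (Ideal.span {x} • (⊤ : Submodule R M)).mkQ := by
  refine ⟨Submodule.mkQ_surjective _, ?_⟩
  intro m
  rw [Submodule.mkQ_apply, Submodule.Quotient.mk_eq_zero, Submodule.ideal_span_singleton_smul,
    Submodule.mem_smul_pointwise_iff_exists]
  constructor
  · rintro ⟨b, -, rfl⟩
    exact ⟨b, rfl⟩
  · rintro ⟨b, rfl⟩
    exact ⟨b, trivial, rfl⟩

theorem exists_pd_aux (n : ℕ) : ∀ (R : Type u) [CommRing R] [IsRegularLocalRing R],
    (maximalIdeal R).spanFinrank = n →
    ∀ (M : Type u) [AddCommGroup M] [Module R M] [Module.Finite R M], PD R n M := by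
  induction n with
  | zero =>
    intro R _ _ h M _ _ _
    rw [pd_zero_iff]
    have hF := isField_of_spanFinrank_eq_zero h
    let := hF.toField
    infer_instance
  | succ n ih =>
    intro R _ _ h M _ _ _
    have hdom := isDomain_of_regular R
    have hm : maximalIdeal R ≠ ⊥ := by
      intro h0
      rw [h0, Submodule.spanFinrank_bot] at h
      omega
    obtain ⟨x, hx, hx2, -⟩ := exists_notMem_sq (R := R) hm (s := ∅) Set.finite_empty
      (by simp) (by simp)
    obtain ⟨hreg, hrk⟩ := regular_quotient hx hx2
    have hx0 : x ≠ 0 := by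
      rintro rfl
      exact hx2 (Submodule.zero_mem _)
    have hxR : IsSMulRegular R x := fun a b hab => mul_left_cancel₀ hx0 hab
    obtain ⟨m, f, hf⟩ := Module.Finite.exists_fin' R M
    rw [pd_succ_iff f hf]
    have hxL : IsSMulRegular (LinearMap.ker f) x := by
      intro a b hab
      apply Subtype.ext
      funext i
      exact hxR (congrFun (congrArg Subtype.val hab) i)
    have h1 := ih (R ⧸ Ideal.span {x}) (by omega)
      ((LinearMap.ker f) ⧸ (Ideal.span {x} • (⊤ : Submodule R (LinearMap.ker f))))
    exact pd_up (isRed_quotient x) hxR hx n _ _ hxL _ (isRed_mkQ x _) h1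

/-- Finitely generated modules over a regular local ring have finite projective dimension. -/
theorem exists_pd (R : Type u) [CommRing R] [IsRegularLocalRing R]
    (M : Type u) [AddCommGroup M] [Module R M] [Module.Finite R M] : ∃ n, PD R n M :=
  ⟨_, exists_pd_aux _ R rfl M⟩

end Pool.Agent.Lib.MP_1ce8ed_ag
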