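import Mathlib
import Pool.Agent.Lib.MP_1ce8ed_ag.RL2

/-!
The theorem of Auslander-Buchsbaum-Serre (one direction) and the regularity of localizations of
regular local rings.
-/

namespace Pool.Agent.Lib.MP_1ce8ed_ag

open IsLocalRing CategoryTheory TensorProduct

universe u

section

variable {R : Type u} [CommRing R] [IsLocalRing R]

theorem one_tmul_eq_zero_iff {M : Type u} [AddCommGroup M] [Module R M] (m : M) :
    ((1 : ResidueField R) ⊗ₜ[R] m = 0) ↔ m ∈ maximalIdeal R • (⊤ : Submodule R M) := by
  have h := (quotTensorEquivQuotSMul M (maximalIdeal R)).map_eq_zero_iff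
    (x := (1 : R ⧸ maximalIdeal R) ⊗ₜ[R] m)
  have h2 : (quotTensorEquivQuotSMul M (maximalIdeal R)) ((1 : R ⧸ maximalIdeal R) ⊗ₜ[R] m) =
      Submodule.Quotient.mk m := by
    have := quotTensorEquivQuotSMul_mk_tmul (M := M) (maximalIdeal R) 1 m
    rw [map_one, one_smul] at this
    exact this
  rw [h2, Submodule.Quotient.mk_eq_zero] at h
  exact h.symm

/-- If the ring has a nonzero socle, then finite projective dimension implies projective. -/
theorem projective_of_pd [IsNoetherianRing R] {u : R} (hu : u ≠ 0)
    (hmu : ∀ r ∈ maximalIdeal R, u * r = 0) (k : ℕ) :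
    ∀ (M : Type u) [AddCommGroup M] [Module R M] [Module.Finite R M], PD R k M →
      Module.Projective R M := by
  induction k with
  | zero =>
    intro M _ _ _ h
    exact pd_zero_iff.1 h
  | succ k ih =>
    intro M _ _ _ h
    obtain ⟨m, f, hf⟩ := Module.Finite.exists_fin' R M
    rw [pd_succ_iff f hf] at h
    have hL := ih _ h
    have hfree : Module.Free R (LinearMap.ker f) := Module.free_of_flat_of_isLocalRing
    let b := Module.finBasis R (LinearMap.ker f)
    have hinj : Function.Injective ((LinearMap.ker f).subtype.lTensor (ResidueField R)) := by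
      rw [← LinearMap.ker_eq_bot, Submodule.eq_bot_iff]
      intro t ht
      obtain ⟨l, rfl⟩ := TensorProduct.mk_surjective R (LinearMap.ker f) (ResidueField R)
        residue_surjective t
      rw [LinearMap.mem_ker, TensorProduct.mk_apply, LinearMap.lTensor_tmul,
        one_tmul_eq_zero_iff] at ht
      rw [TensorProduct.mk_apply, one_tmul_eq_zero_iff]
      have h1 : ∀ i, (l : Fin m → R) i ∈ maximalIdeal R := by
        have h2 : ∀ v ∈ maximalIdeal R • (⊤ : Submodule R (Fin m → R)),
            ∀ i, v i ∈ maximalIdeal R := by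
          intro v hv
          refine Submodule.smul_induction_on hv ?_ ?_
          · intro r hr n _ i
            exact Ideal.mul_mem_right _ _ hr
          · intro a b ha hb i
            exact Ideal.add_mem _ (ha i) (hb i)
        exact h2 _ ht
      have h2 : u • l = 0 := by
        apply Subtype.ext
        funext i
        exact hmu _ (h1 i)
      have h3 : ∀ i, b.repr l i ∈ maximalIdeal R := by
        intro i
        by_contra hcon
        have hunit : IsUnit (b.repr l i) := by
          by_contra hnu
          exact hcon ((mem_maximalIdeal _).2 hnu)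
        have h4 : u * b.repr l i = 0 := by
          have : b.repr (u • l) i = 0 := by rw [h2]; simp
          rw [map_smul, Finsupp.smul_apply, smul_eq_mul] at this
          exact this
        exact hu ((hunit.mul_left_eq_zero).1 h4)
      rw [← b.sum_repr l]
      exact Submodule.sum_mem _ fun i _ => Submodule.smul_mem_smul (h3 i) trivial
    obtain ⟨l', hl'⟩ :=
      (IsLocalRing.split_injective_iff_lTensor_residueField_injective
        (LinearMap.ker f).subtype).2 hinj
    -- the sequence splits
    have hsec : ∃ g : M →ₗ[R] (Fin m → R), f ∘ₗ g = LinearMap.id := by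
      let h0 : (Fin m → R) →ₗ[R] (Fin m → R) :=
        LinearMap.id - (LinearMap.ker f).subtype ∘ₗ l'
      have hker : LinearMap.ker f ≤ LinearMap.ker h0 := by
        intro v hv
        have := LinearMap.congr_fun hl' ⟨v, hv⟩
        have h5 : l' v = ⟨v, hv⟩ := this
        show v - ((l' v : LinearMap.ker f) : Fin m → R) = 0
        rw [h5, sub_self]
      let e := f.quotKerEquivOfSurjective hf
      refine ⟨((LinearMap.ker f).liftQ h0 hker) ∘ₗ e.symm.toLinearMap, ?_⟩
      ext y
      obtain ⟨v, rfl⟩ := hf y
      have h6 : e.symm (f v) = Submodule.Quotient.mk v := by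
        rw [LinearEquiv.symm_apply_eq]
        rfl
      show f ((LinearMap.ker f).liftQ h0 hker (e.symm (f v))) = f v
      rw [h6, Submodule.liftQ_apply]
      show f (v - ((l' v : LinearMap.ker f) : Fin m → R)) = f v
      rw [map_sub, LinearMap.mem_ker.1 (l' v).2, sub_zero]
    obtain ⟨g, hg⟩ := hsec
    exact Module.Projective.of_split g f hg

end

/-- A regular element outside of the square of the maximal ideal. -/
theorem exists_regular_notMem_sq {R : Type u} [CommRing R] [IsLocalRing R] [IsNoetherianRing R]
    (hm : maximalIdeal R ≠ ⊥) (hsoc : ∀ u : R, (∀ r ∈ maximalIdeal R, u * r = 0) → u = 0) :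
    ∃ x ∈ maximalIdeal R, x ∉ maximalIdeal R ^ 2 ∧ IsSMulRegular R x := by
  obtain ⟨x, hx, hx2, hxp⟩ := exists_notMem_sq (R := R) hm (s := associatedPrimes R R)
    (associatedPrimes.finite R R) (fun p hp => hp.isPrime) (by
      intro p hp hle
      obtain ⟨hprime, u, hu⟩ := isAssociatedPrime_iff.1 (AssociatedPrimes.mem_iff.1 hp)
      have hu0 : u = 0 := by
        apply hsoc
        intro r hr
        have h1 : r ∈ p := hle hr
        rw [hu, Submodule.mem_colon_singleton, Submodule.mem_bot, smul_eq_mul, mul_comm] at h1
        exact h1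
      apply hprime.ne_top
      rw [hu, hu0]
      rw [Ideal.eq_top_iff_one, Submodule.mem_colon_singleton]
      simp)
  refine ⟨x, hx, hx2, ?_⟩
  by_contra hcon
  have h3 : x ∈ ⋃ p ∈ associatedPrimes R R, (p : Set R) := by
    rw [biUnion_associatedPrimes_eq_compl_regular]
    exact hcon
  simp only [Set.mem_iUnion] at h3
  obtain ⟨p, hp, hxp'⟩ := h3
  exact hxp p hp hxp'

section retract

variable {R : Type u} [CommRing R] [IsLocalRing R]

/-- The residue field of `R/y` is a direct summand of `𝔪/y𝔪`. -/
theorem exists_retract [IsNoetherianRing R] {y : R} (hy : y ∈ maximalIdeal R)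
    (hy2 : y ∉ maximalIdeal R ^ 2) [IsLocalRing (R ⧸ Ideal.span {y})] :
    ∃ (i : ResidueField (R ⧸ Ideal.span {y}) →ₗ[R ⧸ Ideal.span {y}]
        (maximalIdeal R) ⧸ (Ideal.span {y} • (⊤ : Submodule R (maximalIdeal R))))
      (r : ((maximalIdeal R) ⧸ (Ideal.span {y} • (⊤ : Submodule R (maximalIdeal R))))
        →ₗ[R ⧸ Ideal.span {y}] ResidueField (R ⧸ Ideal.span {y})),
      ∀ n, r (i n) = n := by
  set S := R ⧸ Ideal.span {y} with hSdef
  set N := (maximalIdeal R) ⧸ (Ideal.span {y} • (⊤ : Submodule R (maximalIdeal R))) with hN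
  have hsurj : Function.Surjective (algebraMap R S) := Ideal.Quotient.mk_surjective
  have hloc : IsLocalHom (algebraMap R S) := hsurj.isLocalHom
  -- the map `𝔪 → κ_S`
  let v : CotangentSpace R := (maximalIdeal R).toCotangent ⟨y, hy⟩
  have hv0 : v ≠ 0 := by
    rw [Ne, Ideal.toCotangent_eq_zero]
    exact hy2
  obtain ⟨φ, hφ⟩ := LinearMap.exists_leftInverse_of_injective
    (LinearMap.toSpanSingleton (ResidueField R) (CotangentSpace R) v) (by
      exact LinearMap.ker_toSpanSingleton _ hv0)
  have hφv : φ v = 1 := by
    have := LinearMap.congr_fun hφ 1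
    simpa using this
  let μ : ResidueField R →ₗ[R] ResidueField S :=
    { toFun := ResidueField.map (algebraMap R S)
      map_add' := map_add _
      map_smul' := by
        intro r a
        rw [Algebra.smul_def, map_mul, RingHom.id_apply, Algebra.smul_def]
        congr 1 }
  let ρ : (maximalIdeal R) →ₗ[R] ResidueField S :=
    μ ∘ₗ (φ.restrictScalars R) ∘ₗ (maximalIdeal R).toCotangent
  have hρy : ρ ⟨y, hy⟩ = 1 := by
    show ResidueField.map (algebraMap R S) (φ v) = 1
    rw [hφv, map_one]
  have hy0 : algebraMap R S y = 0 :=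
    Ideal.Quotient.eq_zero_iff_mem.2 (Ideal.mem_span_singleton_self y)
  have hρker : Ideal.span {y} • (⊤ : Submodule R (maximalIdeal R)) ≤ LinearMap.ker ρ := by
    rw [Submodule.ideal_span_singleton_smul]
    intro w hw
    obtain ⟨w', -, rfl⟩ := (Submodule.mem_smul_pointwise_iff_exists _ _ _).1 hw
    rw [LinearMap.mem_ker, map_smul, ← algebraMap_smul S y, hy0, zero_smul]
  let r : N →ₗ[S] ResidueField S :=
    LinearMap.extendScalarsOfSurjective hsurj (Submodule.liftQ _ ρ hρker)
  let n0 : N := Submodule.Quotient.mk ⟨y, hy⟩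
  have hr0 : r n0 = 1 := hρy
  have hikill : maximalIdeal S ≤ LinearMap.ker (LinearMap.toSpanSingleton S N n0) := by
    intro s hs
    obtain ⟨a, rfl⟩ := hsurj s
    have ha : a ∈ maximalIdeal R := by
      have := (mem_maximalIdeal _).1 hs
      rw [mem_maximalIdeal]
      intro hua
      exact this (hua.map _)
    rw [LinearMap.mem_ker, LinearMap.toSpanSingleton_apply, algebraMap_smul]
    show (Submodule.Quotient.mk (a • (⟨y, hy⟩ : maximalIdeal R)) : N) = 0
    rw [Submodule.Quotient.mk_eq_zero]
    have h1 : a • (⟨y, hy⟩ : maximalIdeal R) = y • (⟨a, ha⟩ : maximalIdeal R) := by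
      apply Subtype.ext
      show a * y = y * a
      ring
    rw [h1]
    exact Submodule.smul_mem_smul (Ideal.mem_span_singleton_self y) trivial
  let i : ResidueField S →ₗ[S] N :=
    Submodule.liftQ (maximalIdeal S) (LinearMap.toSpanSingleton S N n0) hikill
  refine ⟨i, r, ?_⟩
  intro n
  obtain ⟨s, rfl⟩ := residue_surjective n
  have h2 : i (residue S s) = s • n0 := rfl
  rw [h2, map_smul, hr0, Algebra.smul_def, mul_one]
  rfl

end retract

theorem spanFinrank_le_quotient_succ {R : Type u} [CommRing R] [IsLocalRing R]
    [IsNoetherianRing R] {y : R} (hy : y ∈ maximalIdeal R) [IsLocalRing (R ⧸ Ideal.span {y})] :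
    (maximalIdeal R).spanFinrank ≤ (maximalIdeal (R ⧸ Ideal.span {y})).spanFinrank + 1 := by
  classical
  obtain ⟨s, hs, hspan⟩ := Submodule.FG.exists_span_finset_card_eq_spanFinrank
    (maximalIdeal (R ⧸ Ideal.span {y})).fg_of_isNoetherianRing
  let σ : (R ⧸ Ideal.span {y}) → R := Function.surjInv Ideal.Quotient.mk_surjective
  have hσ : ∀ a, Ideal.Quotient.mk (Ideal.span {y}) (σ a) = a :=
    Function.surjInv_eq Ideal.Quotient.mk_surjective
  have hgen : Ideal.span (insert y (σ '' (s : Set (R ⧸ Ideal.span {y})))) = maximalIdeal R := by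
    apply le_antisymm
    · rw [Ideal.span_le]
      intro a ha
      rcases ha with rfl | ⟨b, hb, rfl⟩
      · exact hy
      · have hb' : b ∈ maximalIdeal (R ⧸ Ideal.span {y}) := by
          rw [← hspan]
          exact Submodule.subset_span hb
        rw [SetLike.mem_coe, mem_maximalIdeal]
        intro hu
        have := hu.map (Ideal.Quotient.mk (Ideal.span {y}))
        rw [hσ] at this
        exact (mem_maximalIdeal _).1 hb' this
    · intro a ha
      have h1 : Ideal.Quotient.mk (Ideal.span {y}) a ∈
          (Ideal.span (insert y (σ '' (s : Set (R ⧸ Ideal.span {y}))))).map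
            (Ideal.Quotient.mk (Ideal.span {y})) := by
        rw [Ideal.map_span, Set.image_insert_eq, ← Set.image_comp]
        have h2 : ((Ideal.Quotient.mk (Ideal.span {y})) ∘ σ) = id := funext hσ
        rw [h2, Set.image_id]
        have h3 : Ideal.Quotient.mk (Ideal.span {y}) a ∈
            maximalIdeal (R ⧸ Ideal.span {y}) := by
          rw [← IsLocalRing.map_maximalIdeal_of_surjective _ Ideal.Quotient.mk_surjective]
          exact Ideal.mem_map_of_mem _ ha
        rw [← hspan] at h3
        exact Submodule.span_mono (Set.subset_insert _ _) h3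
      rw [Ideal.mem_map_iff_of_surjective _ Ideal.Quotient.mk_surjective] at h1
      obtain ⟨b, hb, hab⟩ := h1
      have h4 : b - a ∈ Ideal.span {y} := Ideal.Quotient.eq.1 hab
      have h5 : b - a ∈ Ideal.span (insert y (σ '' (s : Set (R ⧸ Ideal.span {y})))) :=
        Ideal.span_mono (by simp) h4
      have := Ideal.sub_mem _ hb h5
      rwa [sub_sub_cancel] at this
  have hfin : (σ '' (s : Set (R ⧸ Ideal.span {y}))).Finite := s.finite_toSet.image _
  have h6 := Submodule.spanFinrank_span_le_ncard_of_finite (R := R) (hfin.insert y)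
  have h7 : (maximalIdeal R).spanFinrank ≤
      (insert y (σ '' (s : Set (R ⧸ Ideal.span {y})))).ncard := by
    rw [← hgen]
    exact h6
  have h8 := Set.ncard_insert_le y (σ '' (s : Set (R ⧸ Ideal.span {y})))
  have h9 : (σ '' (s : Set (R ⧸ Ideal.span {y}))).ncard ≤ s.card := by
    have := Set.ncard_image_le (f := σ) s.finite_toSet
    rwa [Set.ncard_coe_finset] at this
  omega

theorem regular_of_isField {R : Type u} [CommRing R] [IsLocalRing R] [IsNoetherianRing R]
    (h : (maximalIdeal R).spanFinrank = 0) : IsRegularLocalRing R := by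
  apply IsRegularLocalRing.of_spanFinrank_maximalIdeal_le
  rw [h]
  exact ringKrullDim_nonneg_of_nontrivial

theorem eq_bot_of_projective {R : Type u} [CommRing R] [IsLocalRing R] [IsNoetherianRing R]
    (hproj : Module.Projective R (ResidueField R)) : maximalIdeal R = ⊥ := by
  have hflat : Module.Flat R (ResidueField R) := @Module.Flat.of_projective _ _ _ _ _ hproj
  have hfree : Module.Free R (ResidueField R) :=
    @Module.free_of_flat_of_isLocalRing _ _ _ _ _ _ _ hflat
  let b := Module.Free.chooseBasis R (ResidueField R)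
  have hnt : Nontrivial (ResidueField R) := (ResidueField.field R).toNontrivial
  have hne : Nonempty (Module.Free.ChooseBasisIndex R (ResidueField R)) := by
    by_contra hemp
    rw [not_nonempty_iff] at hemp
    have : Subsingleton (ResidueField R) := b.repr.toEquiv.subsingleton
    exact not_subsingleton (ResidueField R) this
  obtain ⟨i⟩ := hne
  rw [Submodule.eq_bot_iff]
  intro r hr
  have h1 : r • b i = 0 := by
    rw [Algebra.smul_def]
    have : algebraMap R (ResidueField R) r = 0 := (residue_eq_zero_iff r).2 hr
    rw [this, zero_mul]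
  have h2 : b.repr (r • b i) i = 0 := by rw [h1]; simp
  rw [map_smul, Finsupp.smul_apply, b.repr_self, Finsupp.single_eq_same, smul_eq_mul,
    mul_one] at h2
  exact h2

/-- Auslander-Buchsbaum-Serre: if the residue field has finite projective dimension, then the
local ring is regular. -/
theorem abs_aux (e : ℕ) : ∀ (R : Type u) [CommRing R] [IsLocalRing R] [IsNoetherianRing R],
    (maximalIdeal R).spanFinrank ≤ e → (∃ k, PD R k (ResidueField R)) →
    IsRegularLocalRing R := by
  induction e with
  | zero =>
    intro R _ _ _ h _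
    exact regular_of_isField (by omega)
  | succ e ih =>
    intro R _ _ _ h hk
    by_cases hm : maximalIdeal R = ⊥
    · exact regular_of_isField (by rw [hm, Submodule.spanFinrank_bot])
    obtain ⟨k, hk⟩ := hk
    have hsoc : ∀ u : R, (∀ r ∈ maximalIdeal R, u * r = 0) → u = 0 := by
      intro u hmu
      by_contra hu
      exact hm (eq_bot_of_projective (projective_of_pd hu hmu k (ResidueField R) hk))
    obtain ⟨y, hy, hy2, hyR⟩ := exists_regular_notMem_sq hm hsoc
    have hlocS := isLocalRing_quotient hy
    have hmpd : PD R k (maximalIdeal R) := by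
      have h1 := (pd_succ_iff (Algebra.linearMap R (ResidueField R)) residue_surjective k).1
        (pd_mono (Nat.le_succ k) hk)
      have h2 : LinearMap.ker (Algebra.linearMap R (ResidueField R)) = maximalIdeal R := by
        ext a
        exact residue_eq_zero_iff a
      exact pd_of_equiv (LinearEquiv.ofEq _ _ h2) h1
    have hym : IsSMulRegular (maximalIdeal R) y := by
      intro a b hab
      apply Subtype.ext
      exact hyR (congrArg Subtype.val hab)
    have h3 := pd_down (isRed_quotient y) hyR k _ _ hym _ (isRed_mkQ y (maximalIdeal R)) hmpd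
    obtain ⟨i, r, hir⟩ := exists_retract hy hy2
    have h4 := pd_retract i r hir h3
    have h5 := spanFinrank_quotient_succ_le hy hy2
    have hregS := ih (R ⧸ Ideal.span {y}) (by omega) ⟨k, h4⟩
    apply IsRegularLocalRing.of_spanFinrank_maximalIdeal_le
    have h6 := spanFinrank_le_quotient_succ hy
    have h7 : ringKrullDim (R ⧸ Ideal.span {y}) + 1 ≤ ringKrullDim R := by
      apply ringKrullDim_quotient_succ_le_of_nonZeroDivisor
      rw [mem_nonZeroDivisors_iff_right]
      intro a ha
      apply hyR
      show y * a = y * 0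
      rw [mul_comm, ha, mul_zero]
    rw [← hregS.spanFinrank_maximalIdeal] at h7
    refine le_trans ?_ h7
    exact_mod_cast h6

end Pool.Agent.Lib.MP_1ce8ed_ag
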