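import Mathlib
import Pool.Agent.Lib.MP_1ce8ed_ag.RL3

/-!
Localizations of regular local rings at primes are regular (Serre).
-/

namespace Pool.Agent.Lib.MP_1ce8ed_ag

open IsLocalRing CategoryTheory

universe u

variable {R : Type u} [CommRing R] (p : Ideal R) [p.IsPrime]

/-- The map from `R/p` to the residue field at `p`. -/
noncomputable def toRes : (R ⧸ p) →ₗ[R] ResidueField (Localization.AtPrime p) :=
  Submodule.liftQ p (Algebra.linearMap R (ResidueField (Localization.AtPrime p))) (by
    intro a ha
    rw [LinearMap.mem_ker, Algebra.linearMap_apply]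
    exact Ideal.algebraMap_residueField_eq_zero.2 ha)

theorem toRes_mk (a : R) : toRes p (Submodule.Quotient.mk a) =
    algebraMap R (ResidueField (Localization.AtPrime p)) a := rfl

theorem toRes_isLocalized : IsLocalizedModule p.primeCompl (toRes p) := by
  refine ⟨?_, ?_, ?_⟩
  · intro s
    rw [Module.End.isUnit_iff]
    have hs : algebraMap R (ResidueField (Localization.AtPrime p)) s ≠ 0 := by
      intro h
      exact s.2 (Ideal.algebraMap_residueField_eq_zero.1 h)
    constructor
    · intro a b hab
      have h1 : (s : R) • a = (s : R) • b := hab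
      rw [Algebra.smul_def, Algebra.smul_def] at h1
      exact mul_left_cancel₀ hs h1
    · intro b
      refine ⟨(algebraMap R (ResidueField (Localization.AtPrime p)) s)⁻¹ * b, ?_⟩
      show (s : R) • ((algebraMap R (ResidueField (Localization.AtPrime p)) s)⁻¹ * b) = b
      rw [Algebra.smul_def, mul_inv_cancel_left₀ hs]
  · intro y
    obtain ⟨z, rfl⟩ := residue_surjective y
    obtain ⟨⟨r, s⟩, hrs⟩ := IsLocalization.surj p.primeCompl z
    refine ⟨⟨Submodule.Quotient.mk r, s⟩, ?_⟩
    show (s : R) • residue _ z = toRes p (Submodule.Quotient.mk r)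
    rw [toRes_mk, Algebra.smul_def]
    have h1 : algebraMap R (ResidueField (Localization.AtPrime p)) s =
        residue _ (algebraMap R (Localization.AtPrime p) s) := rfl
    have h2 : algebraMap R (ResidueField (Localization.AtPrime p)) r =
        residue _ (algebraMap R (Localization.AtPrime p) r) := rfl
    rw [h1, h2, ← map_mul, mul_comm]
    exact congrArg _ hrs
  · intro a b hab
    refine ⟨1, ?_⟩
    congr 1
    obtain ⟨a, rfl⟩ := Submodule.Quotient.mk_surjective _ a
    obtain ⟨b, rfl⟩ := Submodule.Quotient.mk_surjective _ b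
    rw [toRes_mk, toRes_mk, ← sub_eq_zero, ← map_sub] at hab
    rw [Submodule.Quotient.eq]
    exact Ideal.algebraMap_residueField_eq_zero.1 hab

/-- Localizations of regular local rings are regular. -/
theorem regular_localization [IsRegularLocalRing R] :
    IsRegularLocalRing (Localization.AtPrime p) := by
  obtain ⟨k, hk⟩ := exists_pd R (R ⧸ p)
  have h1 : HasProjectiveDimensionLE ((ModuleCat.of R (R ⧸ p)).localizedModule p.primeCompl) k :=
    ModuleCat.localizedModule_hasProjectiveDimensionLE k p.primeCompl (ModuleCat.of R (R ⧸ p))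
  have hloc := toRes_isLocalized p
  have hloc2 := ModuleCat.localizedModule_isLocalizedModule (ModuleCat.of R (R ⧸ p)) p.primeCompl
  let e1 : ((ModuleCat.of R (R ⧸ p)).localizedModule p.primeCompl) ≃ₗ[R]
      ResidueField (Localization.AtPrime p) :=
    IsLocalizedModule.linearEquiv p.primeCompl
      ((ModuleCat.of R (R ⧸ p)).localizedModuleMkLinearMap p.primeCompl) (toRes p)
  let e2 := LinearEquiv.extendScalarsOfIsLocalization p.primeCompl (Localization.AtPrime p) e1
  have h2 : PD (Localization.AtPrime p) k (ResidueField (Localization.AtPrime p)) :=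
    ModuleCat.hasProjectiveDimensionLE_of_linearEquiv
      (N := ModuleCat.of (Localization.AtPrime p) (ResidueField (Localization.AtPrime p))) e2 k
  have hnoeth : IsNoetherianRing (Localization.AtPrime p) :=
    IsLocalization.isNoetherianRing p.primeCompl _ inferInstance
  exact abs_aux _ (Localization.AtPrime p) le_rfl ⟨k, h2⟩

end Pool.Agent.Lib.MP_1ce8ed_ag
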