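import Mathlib
import Pool.Agent.Lib.MP_1ce8ed_ag.RL4

/-!
Regular sequences in a regular local ring: depth and socles.
-/

namespace Pool.Agent.Lib.MP_1ce8ed_ag

open IsLocalRing CategoryTheory Abelian RingTheory.Sequence Pointwise

universe u

theorem exists_regular_list_aux (n : ℕ) : ∀ (R : Type u) [CommRing R] [IsRegularLocalRing R],
    (maximalIdeal R).spanFinrank = n →
    ∃ xs : List R, xs.length = n ∧ IsWeaklyRegular R xs ∧ Ideal.ofList xs = maximalIdeal R := by
  induction n with
  | zero =>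
    intro R _ _ h
    refine ⟨[], rfl, IsWeaklyRegular.nil R R, ?_⟩
    rw [Ideal.ofList_nil]
    rw [Submodule.spanFinrank_eq_zero_iff_eq_bot (maximalIdeal R).fg_of_isNoetherianRing] at h
    exact h.symm
  | succ n ih =>
    intro R _ _ h
    have hdom := isDomain_of_regular R
    have hm : maximalIdeal R ≠ ⊥ := by
      intro h0
      rw [h0, Submodule.spanFinrank_bot] at h
      omega
    obtain ⟨x, hx, hx2, -⟩ := exists_notMem_sq (R := R) hm (s := ∅) Set.finite_empty
      (by simp) (by simp)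
    obtain ⟨hreg, hrk⟩ := regular_quotient hx hx2
    have hx0 : x ≠ 0 := by
      rintro rfl
      exact hx2 (Submodule.zero_mem _)
    have hxR : IsSMulRegular R x := fun a b hab => mul_left_cancel₀ hx0 hab
    obtain ⟨xs', hlen, hwr, hspan⟩ := ih (R ⧸ Ideal.span {x}) (by omega)
    let σ : (R ⧸ Ideal.span {x}) → R := Function.surjInv Ideal.Quotient.mk_surjective
    have hσ : ∀ a, Ideal.Quotient.mk (Ideal.span {x}) (σ a) = a :=
      Function.surjInv_eq Ideal.Quotient.mk_surjective
    have hmap : (xs'.map σ).map (algebraMap R (R ⧸ Ideal.span {x})) = xs' := by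
      rw [List.map_map]
      have : (algebraMap R (R ⧸ Ideal.span {x})) ∘ σ = id := funext hσ
      rw [this, List.map_id]
    refine ⟨x :: xs'.map σ, by simp [hlen], ?_, ?_⟩
    · apply IsWeaklyRegular.cons hxR
      have h1 : IsWeaklyRegular (R ⧸ Ideal.span {x})
          ((xs'.map σ).map (algebraMap R (R ⧸ Ideal.span {x}))) := by
        rw [hmap]
        exact hwr
      rw [isWeaklyRegular_map_algebraMap_iff] at h1
      have e : QuotSMulTop x R ≃ₗ[R] (R ⧸ Ideal.span {x}) :=
        Submodule.quotEquivOfEq _ _ (by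
          rw [← Submodule.ideal_span_singleton_smul]
          simp)
      exact (e.isWeaklyRegular_congr _).2 h1
    · have h2 : (Ideal.ofList (xs'.map σ)).map (Ideal.Quotient.mk (Ideal.span {x})) =
          maximalIdeal (R ⧸ Ideal.span {x}) := by
        rw [Ideal.map_ofList, ← hspan]
        congr 1
      have h3 : (maximalIdeal (R ⧸ Ideal.span {x})).comap
          (Ideal.Quotient.mk (Ideal.span {x})) = maximalIdeal R := by
        have := Ideal.Quotient.mk_surjective (I := Ideal.span {x}) |>.isLocalHom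
        exact (((IsLocalRing.local_hom_TFAE (Ideal.Quotient.mk (Ideal.span {x}))).out 0 4).1 this)
      rw [← h3, ← h2, Ideal.comap_map_of_surjective _ Ideal.Quotient.mk_surjective,
        Ideal.ofList_cons, sup_comm]
      congr 1
      ext a
      rw [Ideal.mem_comap, Ideal.mem_bot, Ideal.Quotient.eq_zero_iff_mem]

section

variable {P : Type u} [CommRing P] [IsLocalRing P]

/-- The residue field as an object of the category of modules. -/
abbrev kk (P : Type u) [CommRing P] [IsLocalRing P] : ModuleCat.{u} P :=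
  ModuleCat.of P (P ⧸ maximalIdeal P)

theorem smul_ext_eq_zero {x : P} (hx : x ∈ maximalIdeal P) (M : ModuleCat.{u} P) (i : ℕ)
    (γ : Ext (kk P) M i) : x • γ = 0 := by
  have h0 : x • 𝟙 (kk P) = 0 := by
    apply ModuleCat.hom_ext
    apply LinearMap.ext
    intro a
    obtain ⟨a, rfl⟩ := Ideal.Quotient.mk_surjective a
    show x • (Ideal.Quotient.mk (maximalIdeal P) a) = 0
    rw [← Ideal.Quotient.mk_eq_mk, ← Submodule.Quotient.mk_smul, Ideal.Quotient.mk_eq_mk,
      Ideal.Quotient.eq_zero_iff_mem, smul_eq_mul]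
    exact Ideal.mul_mem_right _ _ hx
  have h1 : x • γ = (Ext.mk₀ (x • 𝟙 (kk P))).comp γ (zero_add i) := by
    simp [Ext.mk₀_smul]
  rw [h1, h0, Ext.mk₀_zero, Ext.zero_comp]

/-- Transport of Ext along a linear equivalence of the second variable. -/
noncomputable def extEquiv (N : ModuleCat.{u} P) {M M' : Type u} [AddCommGroup M] [Module P M]
    [AddCommGroup M'] [Module P M'] (e : M ≃ₗ[P] M') (i : ℕ) :
    Ext N (ModuleCat.of P M) i ≃ₗ[P] Ext N (ModuleCat.of P M') i where
  toFun α := α.comp (Ext.mk₀ (ModuleCat.ofHom e.toLinearMap)) (add_zero i)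
  map_add' := by simp
  map_smul' := by simp
  invFun α := α.comp (Ext.mk₀ (ModuleCat.ofHom e.symm.toLinearMap)) (add_zero i)
  left_inv α := by
    have : ModuleCat.ofHom e.toLinearMap ≫ ModuleCat.ofHom e.symm.toLinearMap =
        𝟙 (ModuleCat.of P M) := by
      ext a
      exact e.symm_apply_apply a
    simp [this]
  right_inv α := by
    have : ModuleCat.ofHom e.symm.toLinearMap ≫ ModuleCat.ofHom e.toLinearMap =
        𝟙 (ModuleCat.of P M') := by
      ext a
      exact e.apply_symm_apply a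
    simp [this]

/-- The connecting isomorphism. -/
theorem ext_quot {x : P} (hx : x ∈ maximalIdeal P) (M : Type u) [AddCommGroup M] [Module P M]
    (hxM : IsSMulRegular M x) (i : ℕ) (h0 : Subsingleton (Ext (kk P) (ModuleCat.of P M) i)) :
    Nonempty (Ext (kk P) (ModuleCat.of P (QuotSMulTop x M)) i ≃ₗ[P]
      Ext (kk P) (ModuleCat.of P M) (i + 1)) := by
  have hS : (ModuleCat.smulShortComplex (ModuleCat.of P M) x).ShortExact :=
    IsSMulRegular.smulShortComplex_shortExact (M := ModuleCat.of P M) hxM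
  let φ : Ext (kk P) (ModuleCat.of P (QuotSMulTop x M)) i →ₗ[P]
      Ext (kk P) (ModuleCat.of P M) (i + 1) :=
    { toFun := fun α => α.comp hS.extClass rfl
      map_add' := by intro a b; exact Ext.add_comp _ _ _ _
      map_smul' := by intro r a; exact Ext.smul_comp _ _ _ _ }
  refine ⟨LinearEquiv.ofBijective φ ⟨?_, ?_⟩⟩
  · rw [← LinearMap.ker_eq_bot, Submodule.eq_bot_iff]
    intro α hα
    obtain ⟨β, hβ⟩ := Ext.covariant_sequence_exact₃ (kk P) hS α rfl hα
    have : β = 0 := Subsingleton.elim (h := h0) _ _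
    rw [← hβ, this, Ext.zero_comp]
    rfl
  · intro γ
    obtain ⟨α, hα⟩ := Ext.covariant_sequence_exact₁ (kk P) hS γ (by
      have h1 : γ.comp (Ext.mk₀ (x • 𝟙 (ModuleCat.of P M))) (add_zero _) = 0 := by
        rw [← Ext.smul_eq_comp_mk₀]
        exact smul_ext_eq_zero hx _ _ γ
      exact h1) rfl
    exact ⟨α, hα⟩

theorem ext_quot_sub {x : P} (hx : x ∈ maximalIdeal P) (M : Type u) [AddCommGroup M]
    [Module P M] (hxM : IsSMulRegular M x) (i : ℕ)
    (h0 : Subsingleton (Ext (kk P) (ModuleCat.of P M) i))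
    (h1 : Subsingleton (Ext (kk P) (ModuleCat.of P M) (i + 1))) :
    Subsingleton (Ext (kk P) (ModuleCat.of P (QuotSMulTop x M)) i) := by
  obtain ⟨e⟩ := ext_quot hx M hxM i h0
  exact e.toEquiv.subsingleton

/-- Rees: `Hom(k, M/(rs)M) = Ext^r(k, M)`. -/
theorem ext_list (rs : List P) : ∀ (M : Type u) [AddCommGroup M] [Module P M],
    (∀ r ∈ rs, r ∈ maximalIdeal P) → IsWeaklyRegular M rs →
    (∀ i < rs.length, Subsingleton (Ext (kk P) (ModuleCat.of P M) i)) →
    Nonempty (Ext (kk P) (ModuleCat.of P (M ⧸ (Ideal.ofList rs • ⊤ : Submodule P M))) 0 ≃ₗ[P]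
      Ext (kk P) (ModuleCat.of P M) rs.length) := by
  induction rs with
  | nil =>
    intro M _ _ _ _ _
    exact ⟨extEquiv (kk P) (Submodule.quotEquivOfEqBot _ (by
      rw [Ideal.ofList_nil, Submodule.bot_smul])) 0⟩
  | cons x rs ih =>
    intro M _ _ hmem hreg hvan
    rw [isWeaklyRegular_cons_iff] at hreg
    have hx := hmem x List.mem_cons_self
    obtain ⟨e1⟩ := ih (QuotSMulTop x M) (fun r hr => hmem r (List.mem_cons_of_mem _ hr)) hreg.2
      (fun i hi => ext_quot_sub hx M hreg.1 i (hvan i (by simp; omega))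
        (hvan (i + 1) (by simp; omega)))
    obtain ⟨e2⟩ := ext_quot hx M hreg.1 rs.length (hvan rs.length (by simp))
    exact ⟨(extEquiv (kk P) (Submodule.quotOfListConsSMulTopEquivQuotSMulTopInner M x rs) 0).trans
      (e1.trans e2)⟩

/-- Any two elements are dependent, in the strong sense that a nonzero element generates. -/
def Cyc (P : Type u) [CommRing P] (E : Type*) [AddCommGroup E] [Module P E] : Prop :=
  ∀ a b : E, a = 0 ∨ ∃ r : P, b = r • a

theorem Cyc.of_equiv {E E' : Type*} [AddCommGroup E] [Module P E] [AddCommGroup E']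
    [Module P E'] (e : E ≃ₗ[P] E') (h : Cyc P E) : Cyc P E' := by
  intro a b
  rcases h (e.symm a) (e.symm b) with h1 | ⟨r, hr⟩
  · left
    have := congrArg e h1
    simpa using this
  · right
    refine ⟨r, ?_⟩
    have := congrArg e hr
    simpa using this

/-- The homomorphism `k → M` with `1 ↦ m` if `m` is killed by the maximal ideal. -/
noncomputable def socHom {M : Type u} [AddCommGroup M] [Module P M] (m : M)
    (hm : ∀ r ∈ maximalIdeal P, r • m = 0) : kk P ⟶ ModuleCat.of P M :=
  ModuleCat.ofHom (Submodule.liftQ (maximalIdeal P) (LinearMap.toSpanSingleton P M m) (by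
    intro r hr
    rw [LinearMap.mem_ker, LinearMap.toSpanSingleton_apply]
    exact hm r hr))

theorem socHom_one {M : Type u} [AddCommGroup M] [Module P M] (m : M)
    (hm : ∀ r ∈ maximalIdeal P, r • m = 0) :
    (socHom m hm).hom (Submodule.Quotient.mk 1) = m := by
  show (1 : P) • m = m
  rw [one_smul]

theorem hom_kk_cyc : Cyc P (kk P ⟶ ModuleCat.of P (P ⧸ maximalIdeal P)) := by
  intro φ ψ
  obtain ⟨c, hc⟩ := Submodule.Quotient.mk_surjective _ (φ.hom (Submodule.Quotient.mk 1))
  obtain ⟨d, hd⟩ := Submodule.Quotient.mk_surjective _ (ψ.hom (Submodule.Quotient.mk 1))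
  have hval : ∀ (χ : kk P ⟶ ModuleCat.of P (P ⧸ maximalIdeal P)) (a : P),
      χ.hom (Submodule.Quotient.mk a) = a • χ.hom (Submodule.Quotient.mk 1) := by
    intro χ a
    rw [← map_smul]
    congr 1
    show _ = (Submodule.Quotient.mk (a • 1) : P ⧸ maximalIdeal P)
    rw [smul_eq_mul, mul_one]
  by_cases hcm : c ∈ maximalIdeal P
  · left
    apply ModuleCat.hom_ext
    apply LinearMap.ext
    intro a
    obtain ⟨a, rfl⟩ := Submodule.Quotient.mk_surjective _ a
    rw [hval, ← hc, (Submodule.Quotient.mk_eq_zero _).2 hcm]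
    simp
  · right
    have hu : IsUnit c := by
      by_contra hnu
      exact hcm ((mem_maximalIdeal _).2 hnu)
    obtain ⟨u, hu⟩ := hu
    refine ⟨d * ↑u⁻¹, ?_⟩
    apply ModuleCat.hom_ext
    apply LinearMap.ext
    intro a
    obtain ⟨a, rfl⟩ := Submodule.Quotient.mk_surjective _ a
    have h1 : ((d * ↑u⁻¹) • φ).hom (Submodule.Quotient.mk a) =
        (d * ↑u⁻¹) • (φ.hom (Submodule.Quotient.mk a)) := rfl
    rw [h1, hval ψ, hval φ, ← hd, ← hc, ← Submodule.Quotient.mk_smul,
      ← Submodule.Quotient.mk_smul, ← Submodule.Quotient.mk_smul]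
    congr 1
    rw [smul_eq_mul, smul_eq_mul, smul_eq_mul, ← hu]
    have : d * ↑u⁻¹ * (a * ↑u) = a * d * (↑u⁻¹ * ↑u) := by ring
    rw [this, Units.inv_mul, mul_one]

end

section regular

variable {P : Type u} [CommRing P] [IsRegularLocalRing P]

theorem ext_vanish (i : ℕ) (hi : i < (maximalIdeal P).spanFinrank) :
    Subsingleton (Ext (kk P) (ModuleCat.of P P) i) := by
  obtain ⟨xs, hlen, hreg, hspan⟩ := exists_regular_list_aux _ P rfl
  have hmem : ∀ x ∈ xs, x ∈ maximalIdeal P := by
    intro x hx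
    rw [← hspan]
    exact Ideal.subset_span hx
  have hsmul : maximalIdeal P • (⊤ : Submodule P (ModuleCat.of P P)) < ⊤ := by
    rw [lt_top_iff_ne_top]
    intro h
    apply (maximalIdeal.isMaximal P).ne_top
    have h2 : (maximalIdeal P • (⊤ : Submodule P P)) = ⊤ := h
    rw [smul_eq_mul, Ideal.mul_top] at h2
    exact h2
  have hsupp : Module.support P (kk P) ⊆ PrimeSpectrum.zeroLocus (maximalIdeal P) := by
    have : Module.support P (P ⧸ maximalIdeal P) =
        PrimeSpectrum.zeroLocus (maximalIdeal P) := by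
      rw [Module.support_eq_zeroLocus, Ideal.annihilator_quotient]
    exact this.le
  exact ModuleCat.subsingleton_ext_of_exists_isRegular (maximalIdeal P) (kk P) hsupp
    (ModuleCat.of P P) hsmul xs hmem
    (IsRegular.of_isWeaklyRegular_of_mem_maximalIdeal (L := P) hmem hreg) i (by omega)

/-- Positive depth of the quotient by a short regular sequence. -/
theorem mem_of_soc {gs : List P} (hmem : ∀ g ∈ gs, g ∈ maximalIdeal P)
    (hreg : IsWeaklyRegular P gs) (hlen : gs.length < (maximalIdeal P).spanFinrank) {a : P}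
    (ha : ∀ r ∈ maximalIdeal P, r * a ∈ Ideal.ofList gs) : a ∈ Ideal.ofList gs := by
  obtain ⟨e⟩ := ext_list gs P hmem hreg (fun i hi => ext_vanish i (by omega))
  have h0 := ext_vanish (P := P) gs.length hlen
  have h1 : Subsingleton (Ext (kk P)
      (ModuleCat.of P (P ⧸ (Ideal.ofList gs • ⊤ : Submodule P P))) 0) :=
    e.toEquiv.subsingleton
  have htop : (Ideal.ofList gs • ⊤ : Submodule P P) = Ideal.ofList gs := by
    rw [smul_eq_mul, Ideal.mul_top]
  let f := socHom (P := P) (M := P ⧸ (Ideal.ofList gs • ⊤ : Submodule P P))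
    (Submodule.Quotient.mk a) (by
      intro r hr
      rw [← Submodule.Quotient.mk_smul, Submodule.Quotient.mk_eq_zero, htop]
      exact ha r hr)
  have h2 : f = 0 := by
    apply (Ext.linearEquiv₀ (R := P)).symm.injective
    exact Subsingleton.elim _ _
  have h3 : f.hom (Submodule.Quotient.mk 1) = Submodule.Quotient.mk a := socHom_one _ _
  rw [h2] at h3
  have h4 : (Submodule.Quotient.mk a : P ⧸ (Ideal.ofList gs • ⊤ : Submodule P P)) = 0 := h3.symm
  rw [Submodule.Quotient.mk_eq_zero, htop] at h4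
  exact h4

/-- The socle modulo a system of parameters is one-dimensional. -/
theorem soc_cyclic {gs : List P} (hmem : ∀ g ∈ gs, g ∈ maximalIdeal P)
    (hreg : IsWeaklyRegular P gs) (hlen : gs.length = (maximalIdeal P).spanFinrank) {a b : P}
    (ha : ∀ r ∈ maximalIdeal P, r * a ∈ Ideal.ofList gs)
    (hb : ∀ r ∈ maximalIdeal P, r * b ∈ Ideal.ofList gs) :
    a ∈ Ideal.ofList gs ∨ ∃ r, b - r * a ∈ Ideal.ofList gs := by
  obtain ⟨e⟩ := ext_list gs P hmem hreg (fun i hi => ext_vanish i (by omega))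
  obtain ⟨xs, hxlen, hxreg, hxspan⟩ := exists_regular_list_aux _ P rfl
  have hxmem : ∀ x ∈ xs, x ∈ maximalIdeal P := by
    intro x hx
    rw [← hxspan]
    exact Ideal.subset_span hx
  obtain ⟨e'⟩ := ext_list xs P hxmem hxreg (fun i hi => ext_vanish i (by omega))
  have hxtop : (Ideal.ofList xs • ⊤ : Submodule P P) = maximalIdeal P := by
    rw [smul_eq_mul, Ideal.mul_top, hxspan]
  have c1 : Cyc P (Ext (kk P) (ModuleCat.of P (P ⧸ maximalIdeal P)) 0) :=
    Cyc.of_equiv (Ext.linearEquiv₀ (R := P)).symm hom_kk_cyc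
  have c2 : Cyc P (Ext (kk P) (ModuleCat.of P (P ⧸ (Ideal.ofList xs • ⊤ : Submodule P P))) 0) :=
    Cyc.of_equiv (extEquiv (kk P) (Submodule.quotEquivOfEq _ _ hxtop.symm) 0) c1
  have c3 := Cyc.of_equiv e' c2
  rw [hxlen, ← hlen] at c3
  have c4 := Cyc.of_equiv e.symm c3
  have c5 := Cyc.of_equiv (Ext.linearEquiv₀ (R := P)) c4
  have htop : (Ideal.ofList gs • ⊤ : Submodule P P) = Ideal.ofList gs := by
    rw [smul_eq_mul, Ideal.mul_top]
  have hker : ∀ c : P, (∀ r ∈ maximalIdeal P, r * c ∈ Ideal.ofList gs) →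
      ∀ r ∈ maximalIdeal P, r • (Submodule.Quotient.mk c :
        P ⧸ (Ideal.ofList gs • ⊤ : Submodule P P)) = 0 := by
    intro c hc r hr
    rw [← Submodule.Quotient.mk_smul, Submodule.Quotient.mk_eq_zero, htop]
    exact hc r hr
  rcases c5 (socHom _ (hker a ha)) (socHom _ (hker b hb)) with h | ⟨r, hr⟩
  · left
    have h3 := socHom_one _ (hker a ha)
    rw [h] at h3
    have h4 : (Submodule.Quotient.mk a : P ⧸ (Ideal.ofList gs • ⊤ : Submodule P P)) = 0 :=
      h3.symm
    rw [Submodule.Quotient.mk_eq_zero, htop] at h4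
    exact h4
  · right
    refine ⟨r, ?_⟩
    have h3 := socHom_one _ (hker b hb)
    rw [hr] at h3
    have h4 : r • (socHom _ (hker a ha)).hom (Submodule.Quotient.mk 1) =
        (Submodule.Quotient.mk b : P ⧸ (Ideal.ofList gs • ⊤ : Submodule P P)) := h3
    rw [socHom_one, ← Submodule.Quotient.mk_smul, eq_comm, Submodule.Quotient.eq, htop] at h4
    exact h4

end regular

end Pool.Agent.Lib.MP_1ce8ed_ag
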