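import Mathlib
import Pool.Agent.Lib.MP_1ce8ed_ag.Dep

/-!
Syzygies with entries in the ideal: the local statement at a minimal prime.
-/

namespace Pool.Agent.Lib.MP_1ce8ed_ag

open IsLocalRing RingTheory.Sequence

universe u

theorem span_cotangent_iff {R : Type u} [CommRing R] [IsLocalRing R] [IsNoetherianRing R]
    (s : Set (maximalIdeal R)) :
    Submodule.span (ResidueField R) ((maximalIdeal R).toCotangent '' s) = ⊤ ↔
      Ideal.span (Subtype.val '' s) = maximalIdeal R := by
  rw [CotangentSpace.span_image_eq_top_iff]
  have h1 : Submodule.map (maximalIdeal R).subtype (Submodule.span R s) =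
      Ideal.span (Subtype.val '' s) := by
    rw [Submodule.map_span]
    rfl
  rw [← h1]
  constructor
  · intro h
    rw [h]
    simp
  · intro h
    have h2 : Submodule.map (maximalIdeal R).subtype (Submodule.span R s) =
        Submodule.map (maximalIdeal R).subtype ⊤ := by
      rw [h]
      simp
    exact Submodule.map_injective_of_injective (Submodule.injective_subtype _) h2

theorem local_claim {R : Type u} [CommRing R] [IsRegularLocalRing R] {m : ℕ}
    (hdim : (maximalIdeal R).spanFinrank = m) (g : Fin m → R) (h : R)
    (hgen : Ideal.span (Set.range g) ⊔ Ideal.span {h} = maximalIdeal R) (e : Fin m → R)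
    (he : ∀ i, e i ∈ maximalIdeal R) (d : R) (hd : d ∈ maximalIdeal R)
    (hrel : ∑ i, e i * g i = h * d) : d ∈ Ideal.span (Set.range g) := by
  classical
  have hgm : ∀ i, g i ∈ maximalIdeal R := fun i => by
    rw [← hgen]
    exact Ideal.mem_sup_left (Ideal.subset_span ⟨i, rfl⟩)
  have hhm : h ∈ maximalIdeal R := by
    rw [← hgen]
    exact Ideal.mem_sup_right (Ideal.mem_span_singleton_self h)
  set τ := (maximalIdeal R).toCotangent with hτ
  let G : Fin m → maximalIdeal R := fun i => ⟨g i, hgm i⟩
  let H : maximalIdeal R := ⟨h, hhm⟩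
  let v : Fin m → CotangentSpace R := fun i => τ (G i)
  let w : CotangentSpace R := τ H
  have hall : Submodule.span (ResidueField R) (Set.range v ∪ {w}) = ⊤ := by
    have h1 : Set.range v ∪ {w} = τ '' (Set.range G ∪ {H}) := by
      rw [Set.image_union, Set.image_singleton, ← Set.range_comp]
      rfl
    rw [h1, span_cotangent_iff, Set.image_union, Set.image_singleton, ← Set.range_comp,
      Ideal.span_union]
    exact hgen
  by_cases hw : w ∈ Submodule.span (ResidueField R) (Set.range v)
  · -- then `g` generates the maximal ideal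
    have h1 : Submodule.span (ResidueField R) (Set.range v) = ⊤ := by
      rw [eq_top_iff, ← hall, Submodule.span_le]
      rintro x (hx | hx)
      · exact Submodule.subset_span hx
      · rw [Set.mem_singleton_iff] at hx
        rw [hx]
        exact hw
    have h2 : Set.range v = τ '' (Set.range G) := by
      rw [← Set.range_comp]
      rfl
    rw [h2, span_cotangent_iff, ← Set.range_comp] at h1
    have h3 : Ideal.span (Set.range g) = maximalIdeal R := h1
    rw [h3]
    exact hd
  · have hnli : ¬ LinearIndependent (ResidueField R) v := by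
      intro hli
      have h1 : LinearIndependent (ResidueField R) (Fin.cons w v : Fin (m + 1) → _) :=
        linearIndependent_finCons.2 ⟨hli, hw⟩
      have h2 := h1.fintype_card_le_finrank
      rw [← spanFinrank_maximalIdeal_eq_finrank_cotangentSpace, hdim, Fintype.card_fin] at h2
      omega
    rw [linearIndependent_iff_notMem_span] at hnli
    push Not at hnli
    obtain ⟨i, hi⟩ := hnli
    have hspan : Ideal.span (g '' (Set.univ \ {i})) ⊔ Ideal.span {h} = maximalIdeal R := by
      have h1 : Submodule.span (ResidueField R) (v '' (Set.univ \ {i}) ∪ {w}) = ⊤ := by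
        rw [eq_top_iff, ← hall, Submodule.span_le]
        rintro x (⟨j, rfl⟩ | hx)
        · by_cases hj : j = i
          · subst hj
            exact Submodule.span_mono Set.subset_union_left hi
          · exact Submodule.subset_span (Or.inl ⟨j, ⟨trivial, hj⟩, rfl⟩)
        · exact Submodule.subset_span (Or.inr hx)
      have h2 : v '' (Set.univ \ {i}) ∪ {w} = τ '' (G '' (Set.univ \ {i}) ∪ {H}) := by
        rw [Set.image_union, Set.image_singleton, ← Set.image_comp]
        rfl
      rw [h2, span_cotangent_iff, Set.image_union, Set.image_singleton, ← Set.image_comp,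
        Ideal.span_union] at h1
      exact h1
    set b : Ideal R := Ideal.span (g '' (Set.univ \ {i})) with hb
    have hbm : b ≤ maximalIdeal R := by
      rw [← hspan]
      exact le_sup_left
    have hnt : Nontrivial (R ⧸ b) := by
      apply Ideal.Quotient.nontrivial_iff.2
      intro htop
      rw [htop] at hbm
      exact (maximalIdeal.isMaximal R).ne_top (top_le_iff.1 hbm)
    have hloc : IsLocalRing (R ⧸ b) :=
      IsLocalRing.of_surjective' (Ideal.Quotient.mk b) Ideal.Quotient.mk_surjective
    have hmax : maximalIdeal (R ⧸ b) = Ideal.span {Ideal.Quotient.mk b h} := by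
      rw [← IsLocalRing.map_maximalIdeal_of_surjective _ (Ideal.Quotient.mk_surjective (I := b)),
        ← hspan, Ideal.map_sup, Ideal.map_quotient_self, bot_sup_eq, Ideal.map_span,
        Set.image_singleton]
    have hrank : (maximalIdeal (R ⧸ b)).spanFinrank ≤ 1 := by
      rw [hmax]
      refine (Submodule.spanFinrank_span_le_ncard_of_finite (Set.finite_singleton _)).trans ?_
      simp
    have hm1 : 0 < m := i.pos
    have hdimb : (1 : WithBot ℕ∞) ≤ ringKrullDim (R ⧸ b) := by
      have h1 := ringKrullDim_le_ringKrullDim_quotient_add_card (R := R)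
        (Finset.image g (Finset.univ.erase i)) (by
          intro x hx
          rw [Finset.coe_image] at hx
          obtain ⟨j, -, rfl⟩ := hx
          rw [IsLocalRing.ringJacobson_eq_maximalIdeal]
          exact hgm j)
      have h2 : Ideal.span ((Finset.image g (Finset.univ.erase i) : Finset R) : Set R) = b := by
        rw [hb, Finset.coe_image, Finset.coe_erase, Finset.coe_univ]
      rw [h2, ← IsRegularLocalRing.spanFinrank_maximalIdeal, hdim] at h1
      have h3 : (Finset.image g (Finset.univ.erase i)).card ≤ m - 1 := by
        refine Finset.card_image_le.trans ?_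
        rw [Finset.card_erase_of_mem (Finset.mem_univ i), Finset.card_univ, Fintype.card_fin]
      have h4 : ((m : ℕ) : WithBot ℕ∞) ≤ ringKrullDim (R ⧸ b) + ((m - 1 : ℕ) : WithBot ℕ∞) := by
        refine h1.trans ?_
        gcongr
      have h5 : ((m : ℕ) : WithBot ℕ∞) = 1 + ((m - 1 : ℕ) : WithBot ℕ∞) := by
        have : m = 1 + (m - 1) := by omega
        exact_mod_cast congrArg (Nat.cast : ℕ → WithBot ℕ∞) this
      rw [h5] at h4
      exact ENat.WithBot.add_le_add_natCast_right_iff.1 h4
    have hregb : IsRegularLocalRing (R ⧸ b) := by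
      apply IsRegularLocalRing.of_spanFinrank_maximalIdeal_le
      refine le_trans ?_ hdimb
      exact_mod_cast hrank
    have hdomb := isDomain_of_regular (R ⧸ b)
    have hh0 : Ideal.Quotient.mk b h ≠ 0 := by
      intro h0
      rw [h0] at hmax
      have h1 : (maximalIdeal (R ⧸ b)).spanFinrank = 0 := by
        rw [hmax]
        simp
      have h2 := hregb.spanFinrank_maximalIdeal
      rw [h1] at h2
      rw [← h2] at hdimb
      have : (1 : ℕ) ≤ 0 := by exact_mod_cast hdimb
      omega
    have key : ∀ x ∈ maximalIdeal R, ∃ r, Ideal.Quotient.mk b x =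
        Ideal.Quotient.mk b h * Ideal.Quotient.mk b r := by
      intro x hx
      have h1 : Ideal.Quotient.mk b x ∈ maximalIdeal (R ⧸ b) := by
        rw [← IsLocalRing.map_maximalIdeal_of_surjective _
          (Ideal.Quotient.mk_surjective (I := b))]
        exact Ideal.mem_map_of_mem _ hx
      rw [hmax, Ideal.mem_span_singleton] at h1
      obtain ⟨c, hc⟩ := h1
      obtain ⟨r, rfl⟩ := Ideal.Quotient.mk_surjective c
      exact ⟨r, hc⟩
    obtain ⟨r, hr⟩ := key (g i) (hgm i)
    obtain ⟨κ, hκ⟩ := key (e i) (he i)
    have hzero : ∀ j, j ≠ i → Ideal.Quotient.mk b (g j) = 0 := by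
      intro j hj
      rw [Ideal.Quotient.eq_zero_iff_mem]
      exact Ideal.subset_span ⟨j, ⟨trivial, hj⟩, rfl⟩
    have h1 : Ideal.Quotient.mk b (e i) * Ideal.Quotient.mk b (g i) =
        Ideal.Quotient.mk b h * Ideal.Quotient.mk b d := by
      rw [← map_mul, ← map_mul, ← hrel, map_sum]
      rw [Finset.sum_eq_single i]
      · intro j _ hj
        rw [map_mul, hzero j hj, mul_zero]
      · intro hi
        exact absurd (Finset.mem_univ i) hi
    have h2 : Ideal.Quotient.mk b d = Ideal.Quotient.mk b (κ * g i) := by
      apply mul_left_cancel₀ hh0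
      rw [← h1, hκ, map_mul]
      ring
    have h3 : d - κ * g i ∈ b := Ideal.Quotient.eq.1 h2
    have h4 : b ≤ Ideal.span (Set.range g) := by
      apply Ideal.span_mono
      rintro x ⟨j, -, rfl⟩
      exact ⟨j, rfl⟩
    have h5 : κ * g i ∈ Ideal.span (Set.range g) :=
      Ideal.mul_mem_left _ _ (Ideal.subset_span ⟨i, rfl⟩)
    have := Ideal.add_mem _ (h4 h3) h5
    rwa [sub_add_cancel] at this

end Pool.Agent.Lib.MP_1ce8ed_ag
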