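import Mathlib
import Pool.Agent.Lib.MP_1ce8ed_ag.Syz

/-!
Syzygies with entries in the saturation `I` of the almost complete intersection `J`.
-/

namespace Pool.Agent.Lib.MP_1ce8ed_ag

open IsLocalRing RingTheory.Sequence

universe u

/-- The hypotheses on the one-dimensional almost complete intersection `(g, h)` and its
saturation `I`. -/
structure Setup {P : Type u} [CommRing P] [IsRegularLocalRing P] {m : ℕ} (g : Fin m → P) (h : P)
    (I : Ideal P) : Prop where
  dim : (maximalIdeal P).spanFinrank = m + 1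
  gmem : ∀ i, g i ∈ maximalIdeal P
  hmem : h ∈ maximalIdeal P
  reg : IsWeaklyRegular P (List.ofFn g)
  prime : ∀ p p' : Ideal P, p.IsPrime → p'.IsPrime →
    Ideal.span (Set.range g) ⊔ Ideal.span {h} ≤ p → p < p' → p' = maximalIdeal P
  rad : I.IsRadical
  le : Ideal.span (Set.range g) ⊔ Ideal.span {h} ≤ I
  pow : ∃ k, maximalIdeal P ^ k * I ≤ Ideal.span (Set.range g) ⊔ Ideal.span {h}
  sat : ∀ a, (∀ r ∈ maximalIdeal P, r * a ∈ I) → a ∈ I

theorem ofList_ofFn {P : Type u} [CommRing P] {m : ℕ} (g : Fin m → P) :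
    Ideal.ofList (List.ofFn g) = Ideal.span (Set.range g) := by
  unfold Ideal.ofList
  congr 1
  ext a
  simp only [Set.mem_ofPred_eq, List.mem_ofFn']

theorem mem_mul_span_range {P : Type u} [CommRing P] {m : ℕ} (g : Fin m → P) (I : Ideal P)
    (x : P) : x ∈ I * Ideal.span (Set.range g) ↔
      ∃ e : Fin m → P, (∀ i, e i ∈ I) ∧ ∑ i, e i * g i = x := by
  have h := Submodule.mem_ideal_smul_span_iff_exists_sum I g x
  rw [← smul_eq_mul, h]
  constructor
  · rintro ⟨a, ha, hax⟩
    refine ⟨fun i => a i, ha, ?_⟩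
    rw [← hax, Finsupp.sum_fintype _ _ (by simp)]
    rfl
  · rintro ⟨e, he, hex⟩
    refine ⟨Finsupp.equivFunOnFinite.symm e, fun i => he i, ?_⟩
    rw [← hex, Finsupp.sum_fintype _ _ (by simp)]
    rfl

theorem mem_span_range' {P : Type u} [CommRing P] {m : ℕ} (g : Fin m → P) (x : P) :
    x ∈ Ideal.span (Set.range g) ↔ ∃ e : Fin m → P, ∑ i, e i * g i = x := by
  have h := mem_mul_span_range g ⊤ x
  rw [Ideal.top_mul] at h
  rw [h]
  simp

/-- If `p` is a minimal prime of the radical ideal `I`, then `I` and `p` agree at `p`. -/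
theorem exists_mul_mem_of_minimal {P : Type u} [CommRing P] {I p : Ideal P}
    (hI : I.IsRadical) (hp : p ∈ I.minimalPrimes) {r : P} (hr : r ∈ p) : ∃ w, w ∉ p ∧ w * r ∈ I := by
  have hprime : p.IsPrime := hp.1.1
  by_contra hcon
  push Not at hcon
  -- the multiplicative set generated by the complement of `p` and `r` misses `I`
  let T : Submonoid P := p.primeCompl ⊔ Submonoid.powers r
  have hdisj : Disjoint (I : Set P) (T : Set P) := by
    rw [Set.disjoint_left]
    intro x hxI hxT
    obtain ⟨w, hw, y, ⟨k, rfl⟩, rfl⟩ := Submonoid.mem_sup.1 hxT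
    have h1 : (w * r) ^ k ∈ I ∨ k = 0 := by
      by_cases hk : k = 0
      · exact Or.inr hk
      · left
        obtain ⟨k', rfl⟩ := Nat.exists_eq_succ_of_ne_zero hk
        have : (w * r) ^ (k' + 1) = w ^ k' * (w * r ^ (k' + 1)) := by ring
        rw [this]
        exact Ideal.mul_mem_left _ _ hxI
    rcases h1 with h1 | h1
    · exact hcon w hw (hI ⟨k, h1⟩)
    · subst h1
      simp only [pow_zero, mul_one] at hxI
      exact hw (hp.1.2 hxI)
  obtain ⟨q, hq, hIq, hqT⟩ := Ideal.exists_le_prime_disjoint I T hdisj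
  have hqp : q ≤ p := by
    intro x hx
    by_contra hxp
    exact Set.disjoint_left.1 hqT hx (Submonoid.mem_sup_left (S := p.primeCompl) hxp)
  have hpq : p ≤ q := hp.2 ⟨hq, hIq⟩ hqp
  exact Set.disjoint_left.1 hqT (hpq hr)
    (Submonoid.mem_sup_right (T := Submonoid.powers r) ⟨1, pow_one r⟩)

section

variable {P : Type u} [CommRing P] [IsRegularLocalRing P] {m : ℕ} {g : Fin m → P} {h : P}
  {I : Ideal P}

theorem Setup.q_le (S : Setup g h I) : Ideal.span (Set.range g) ≤ I := le_sup_left.trans S.le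

theorem Setup.h_mem (S : Setup g h I) : h ∈ I :=
  S.le (Ideal.mem_sup_right (Ideal.mem_span_singleton_self h))

/-- The quotient by the regular sequence has positive depth. -/
theorem Setup.q_sat (S : Setup g h I) {a : P}
    (ha : ∀ r ∈ maximalIdeal P, r * a ∈ Ideal.span (Set.range g)) :
    a ∈ Ideal.span (Set.range g) := by
  rw [← ofList_ofFn] at ha ⊢
  apply mem_of_soc (gs := List.ofFn g) _ S.reg _ ha
  · intro x hx
    rw [List.mem_ofFn'] at hx
    obtain ⟨i, rfl⟩ := hx
    exact S.gmem i
  · rw [List.length_ofFn, S.dim]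
    omega

/-- Main syzygy lemma. -/
theorem Setup.syz (S : Setup g h I) {d : P} (hd : d ∈ I)
    (hrel : h * d ∈ I * Ideal.span (Set.range g)) : d ∈ Ideal.span (Set.range g) := by
  set q := Ideal.span (Set.range g) with hq
  by_contra hdq
  have hx0 : (Ideal.Quotient.mk q d : P ⧸ q) ≠ 0 := by
    rw [Ne, Ideal.Quotient.eq_zero_iff_mem]
    exact hdq
  obtain ⟨p, hpass, hple⟩ := exists_le_isAssociatedPrime_of_isNoetherianRing P
    (Ideal.Quotient.mk q d : P ⧸ q) hx0
  have hpprime : p.IsPrime := hpass.isPrime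
  have hwd : ∀ w, w * d ∈ q → w ∈ p := by
    intro w hw
    apply hple
    rw [Submodule.mem_colon_singleton, Submodule.mem_bot, ← Ideal.Quotient.mk_eq_mk,
      ← Submodule.Quotient.mk_smul, Ideal.Quotient.mk_eq_mk, Ideal.Quotient.eq_zero_iff_mem]
    exact hw
  have hpm : p ≠ maximalIdeal P := by
    rintro rfl
    obtain ⟨_, c, hc⟩ := isAssociatedPrime_iff.1 hpass
    obtain ⟨c, rfl⟩ := Ideal.Quotient.mk_surjective c
    have hcq : c ∈ q := by
      apply S.q_sat
      intro r hr
      rw [hc, Submodule.mem_colon_singleton, Submodule.mem_bot, ← Ideal.Quotient.mk_eq_mk,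
        ← Submodule.Quotient.mk_smul, Ideal.Quotient.mk_eq_mk,
        Ideal.Quotient.eq_zero_iff_mem] at hr
      exact hr
    apply hpprime.ne_top
    rw [hc, Ideal.eq_top_iff_one, Submodule.mem_colon_singleton, Submodule.mem_bot, one_smul,
      Ideal.Quotient.eq_zero_iff_mem]
    exact hcq
  have hpm' : p ≤ maximalIdeal P := IsLocalRing.le_maximalIdeal hpprime.ne_top
  have hplt : p < maximalIdeal P := lt_of_le_of_ne hpm' hpm
  have hqp : q ≤ p := by
    intro x hx
    exact hwd x (Ideal.mul_mem_right _ _ hx)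
  have hhp : h ∈ p := by
    apply hwd
    exact Ideal.mul_le_right hrel
  have hJp : q ⊔ Ideal.span {h} ≤ p := by
    rw [sup_le_iff, Ideal.span_singleton_le_iff_mem]
    exact ⟨hqp, hhp⟩
  obtain ⟨k, hk⟩ := S.pow
  obtain ⟨z, hz, hzp⟩ : ∃ z ∈ maximalIdeal P ^ k, z ∉ p := by
    by_contra hcon
    push Not at hcon
    have : maximalIdeal P ^ k ≤ p := hcon
    exact hpm (le_antisymm hpm' (hpprime.le_of_pow_le this))
  have hIp : I ≤ p := by
    intro a ha
    have h1 : z * a ∈ p := hJp (hk (Ideal.mul_mem_mul hz ha))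
    exact (hpprime.mem_or_mem h1).resolve_left hzp
  have hmin : p ∈ I.minimalPrimes := by
    refine ⟨⟨hpprime, hIp⟩, ?_⟩
    rintro p' ⟨hp', hIp'⟩ hle
    by_contra hnle
    have hlt : p' < p := lt_of_le_not_ge hle hnle
    exact hpm (S.prime p' p hp' hpprime (S.le.trans hIp') hlt)
  have hloc : ∀ r ∈ p, ∃ w, w ∉ p ∧ w * r ∈ q ⊔ Ideal.span {h} := by
    intro r hr
    obtain ⟨w, hw, hwr⟩ := exists_mul_mem_of_minimal S.rad hmin hr
    refine ⟨z * w, fun hc => ?_, ?_⟩
    · rcases hpprime.mem_or_mem hc with h1 | h1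
      · exact hzp h1
      · exact hw h1
    · rw [mul_assoc]
      exact hk (Ideal.mul_mem_mul hz hwr)
  -- localize
  have hregp := regular_localization p
  let R := Localization.AtPrime p
  let φ : P →+* R := algebraMap P R
  have hmax : maximalIdeal R = p.map φ := (Localization.AtPrime.map_eq_maximalIdeal).symm
  have hgen : Ideal.span (Set.range (fun i => φ (g i))) ⊔ Ideal.span {φ h} = maximalIdeal R := by
    have h1 : Ideal.span (Set.range (fun i => φ (g i))) ⊔ Ideal.span {φ h} =
        (q ⊔ Ideal.span {h}).map φ := by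
      rw [Ideal.map_sup, hq, Ideal.map_span, Ideal.map_span, Set.image_singleton,
        ← Set.range_comp]
      rfl
    rw [h1, hmax]
    apply le_antisymm (Ideal.map_mono hJp)
    rw [Ideal.map_le_iff_le_comap]
    intro r hr
    obtain ⟨w, hw, hwr⟩ := hloc r hr
    rw [Ideal.mem_comap]
    have h2 : φ (w * r) ∈ (q ⊔ Ideal.span {h}).map φ := Ideal.mem_map_of_mem _ hwr
    rw [map_mul] at h2
    have hu : IsUnit (φ w) := IsLocalization.map_units R (⟨w, hw⟩ : p.primeCompl)
    exact (Ideal.unit_mul_mem_iff_mem _ hu).1 h2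
  have hdimR : (maximalIdeal R).spanFinrank = m := by
    have h1 : ringKrullDim R = (p.height : WithBot ℕ∞) :=
      IsLocalization.AtPrime.ringKrullDim_eq_height p R
    have hle : p.height ≤ m := by
      have h2 : p.height + 1 ≤ (maximalIdeal P).height :=
        Ideal.height_add_one_le_of_lt_of_isPrime hplt
      have h3 : ((maximalIdeal P).height : WithBot ℕ∞) = ((m + 1 : ℕ) : WithBot ℕ∞) := by
        rw [IsLocalRing.maximalIdeal_height_eq_ringKrullDim,
          ← IsRegularLocalRing.spanFinrank_maximalIdeal, S.dim]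
      have h4 : (maximalIdeal P).height = ((m + 1 : ℕ) : ℕ∞) := by exact_mod_cast h3
      rw [h4] at h2
      push_cast at h2
      exact (ENat.add_le_add_iff_right (by simp)).1 h2
    have hge : ((m : ℕ) : WithBot ℕ∞) ≤ ringKrullDim R := by
      have h2 : IsRegular R ((List.ofFn g).map φ) :=
        S.reg.isRegular_of_isLocalization_of_mem R p (by
          intro r hr
          rw [List.mem_ofFn'] at hr
          obtain ⟨i, rfl⟩ := hr
          exact hqp (Ideal.subset_span ⟨i, rfl⟩))
      have h3 := ringKrullDim_add_length_eq_ringKrullDim_of_isRegular _ h2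
      rw [List.length_map, List.length_ofFn] at h3
      rw [← h3]
      have h4 : (0 : WithBot ℕ∞) ≤ ringKrullDim (R ⧸ Ideal.ofList ((List.ofFn g).map φ)) := by
        have : Nontrivial (R ⧸ Ideal.ofList ((List.ofFn g).map φ)) := by
          apply Ideal.Quotient.nontrivial_iff.2
          intro htop
          apply h2.top_ne_smul
          rw [htop]
          simp
        exact ringKrullDim_nonneg_of_nontrivial
      exact le_add_of_nonneg_left h4
    have h5 := hregp.spanFinrank_maximalIdeal
    have h6 : (((maximalIdeal R).spanFinrank : ℕ) : WithBot ℕ∞) = ringKrullDim R := h5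
    apply le_antisymm
    · have : (((maximalIdeal R).spanFinrank : ℕ) : WithBot ℕ∞) ≤ ((m : ℕ) : WithBot ℕ∞) := by
        rw [h6, h1]
        exact_mod_cast hle
      exact_mod_cast this
    · rw [← h6] at hge
      exact_mod_cast hge
  obtain ⟨e, heI, hesum⟩ := (mem_mul_span_range g I _).1 hrel
  have hmemR : ∀ x ∈ I, φ x ∈ maximalIdeal R := by
    intro x hx
    rw [hmax]
    exact Ideal.mem_map_of_mem _ (hIp hx)
  have hfin := local_claim hdimR (fun i => φ (g i)) (φ h) hgen (fun i => φ (e i))
    (fun i => hmemR _ (heI i)) (φ d) (hmemR d hd) (by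
      rw [← map_mul, ← hesum, map_sum]
      simp)
  have h7 : φ d ∈ q.map φ := by
    rw [hq, Ideal.map_span, ← Set.range_comp]
    exact hfin
  rw [IsLocalization.algebraMap_mem_map_algebraMap_iff p.primeCompl] at h7
  obtain ⟨w, hw, hwd'⟩ := h7
  exact hw (hwd w hwd')

end

end Pool.Agent.Lib.MP_1ce8ed_ag
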