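import Mathlib
import Pool.Agent.Lib.MP_1ce8ed_ag.Syz2

/-!
The double annihilator property of an Artinian local ring with simple socle.
-/

namespace Pool.Agent.Lib.MP_1ce8ed_ag

open IsLocalRing

universe u

section

variable {P : Type u} [CommRing P]

theorem length_le_of_exact_mid {A B C : Type u} [AddCommGroup A] [Module P A] [AddCommGroup B]
    [Module P B] [AddCommGroup C] [Module P C] (f : A →ₗ[P] B) (g : B →ₗ[P] C)
    (h : ∀ b, g b = 0 → ∃ a, f a = b) :
    Module.length P B ≤ Module.length P A + Module.length P C := by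
  have h1 := Module.length_eq_add_of_exact (R := P) (LinearMap.ker g).subtype
    g.rangeRestrict (Submodule.injective_subtype _) g.surjective_rangeRestrict (by
      intro b
      constructor
      · intro hb
        have : g b = 0 := congrArg Subtype.val hb
        exact ⟨⟨b, this⟩, rfl⟩
      · rintro ⟨⟨b, hb⟩, rfl⟩
        apply Subtype.ext
        exact hb)
  rw [h1]
  gcongr
  · have h2 : Module.length P (LinearMap.ker g) ≤ Module.length P (LinearMap.range f) := by
      apply Module.length_le_of_injective (Submodule.inclusion (by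
        intro b hb
        exact h b hb)) (Submodule.inclusion_injective _)
    exact h2.trans (Module.length_le_of_surjective f.rangeRestrict f.surjective_rangeRestrict)
  · exact Module.length_le_of_injective _ (Submodule.injective_subtype _)

theorem length_le_one_of_cyc {E : Type u} [AddCommGroup E] [Module P E] (h : Cyc P E) :
    Module.length P E ≤ 1 := by
  by_cases hE : Subsingleton E
  · rw [Module.length_eq_zero]
    exact zero_le_one
  · have hnt : Nontrivial E := not_subsingleton_iff_nontrivial.1 hE
    have hs : IsSimpleModule P E := by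
      rw [isSimpleModule_iff]
      refine { exists_pair_ne := ⟨⊥, ⊤, bot_ne_top⟩, eq_bot_or_eq_top := ?_ }
      intro N
      by_cases hN : N = ⊥
      · exact Or.inl hN
      · right
        obtain ⟨a, ha, ha0⟩ := (Submodule.ne_bot_iff N).1 hN
        rw [eq_top_iff]
        intro b _
        rcases h a b with h1 | ⟨r, hr⟩
        · exact absurd h1 ha0
        · rw [hr]
          exact N.smul_mem r ha
    rw [Module.length_eq_one]

variable [IsLocalRing P]

/-- The socle of `T` is cyclic. -/
def SocCyc (T : Type u) [AddCommGroup T] [Module P T] : Prop :=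
  ∀ a b : T, (∀ r ∈ maximalIdeal P, r • a = 0) → (∀ r ∈ maximalIdeal P, r • b = 0) →
    a = 0 ∨ ∃ r : P, b = r • a

theorem length_hom_le {T : Type u} [AddCommGroup T] [Module P T] (hT : SocCyc (P := P) T)
    {L : Type u} [AddCommGroup L] [Module P L] (hL : IsFiniteLength P L) :
    Module.length P (L →ₗ[P] T) ≤ Module.length P L := by
  induction hL with
  | of_subsingleton =>
    rw [Module.length_eq_zero]
    exact zero_le
  | @of_simple_quotient M _ _ N hsimple hN ih =>
    have h1 : Module.length P M = Module.length P N + Module.length P (M ⧸ N) :=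
      Module.length_eq_add_of_exact N.subtype N.mkQ (Submodule.injective_subtype _)
        (Submodule.mkQ_surjective _) (LinearMap.exact_subtype_mkQ N)
    rw [h1, Module.length_eq_one P (M ⧸ N), add_comm]
    have hcyc : Cyc P ((M ⧸ N) →ₗ[P] T) := by
      have hnt := IsSimpleModule.nontrivial P (M ⧸ N)
      obtain ⟨x, hx⟩ := exists_ne (0 : M ⧸ N)
      have hgen : ∀ y : M ⧸ N, ∃ r : P, y = r • x := by
        intro y
        have h2 : Submodule.span P {x} = ⊤ := by
          rcases (isSimpleModule_iff P (M ⧸ N)).1 hsimple |>.eq_bot_or_eq_top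
            (Submodule.span P {x}) with h | h
          · exact absurd (Submodule.span_singleton_eq_bot.1 h) hx
          · exact h
        have h3 : y ∈ Submodule.span P {x} := by
          rw [h2]
          trivial
        obtain ⟨r, hr⟩ := Submodule.mem_span_singleton.1 h3
        exact ⟨r, hr.symm⟩
      have hkill : ∀ r ∈ maximalIdeal P, r • x = 0 := by
        intro r hr
        by_contra hne
        obtain ⟨s, hs⟩ : ∃ s : P, x = s • (r • x) := by
          have h2 : Submodule.span P {r • x} = ⊤ := by
            rcases (isSimpleModule_iff P (M ⧸ N)).1 hsimple |>.eq_bot_or_eq_top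
              (Submodule.span P {r • x}) with h | h
            · exact absurd (Submodule.span_singleton_eq_bot.1 h) hne
            · exact h
          have h3 : x ∈ Submodule.span P {r • x} := by
            rw [h2]
            trivial
          obtain ⟨s, hs⟩ := Submodule.mem_span_singleton.1 h3
          exact ⟨s, hs.symm⟩
        have h4 : (1 - s * r) • x = 0 := by
          rw [sub_smul, one_smul, mul_smul, ← hs, sub_self]
        have h5 : IsUnit (1 - s * r) := by
          by_contra hnu
          have h6 : (1 - s * r) ∈ maximalIdeal P := (mem_maximalIdeal _).2 hnu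
          have h7 : s * r ∈ maximalIdeal P := Ideal.mul_mem_left _ _ hr
          have h8 := Ideal.add_mem _ h6 h7
          rw [sub_add_cancel] at h8
          exact (Ideal.ne_top_iff_one _).1 (maximalIdeal.isMaximal P).ne_top h8
        exact hx ((h5.smul_eq_zero).1 h4)
      intro φ ψ
      rcases hT (φ x) (ψ x) (fun r hr => by rw [← map_smul, hkill r hr, map_zero])
        (fun r hr => by rw [← map_smul, hkill r hr, map_zero]) with h | ⟨r, hr⟩
      · left
        ext y
        obtain ⟨s, hs⟩ := hgen (Submodule.Quotient.mk y)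
        show φ (Submodule.Quotient.mk y) = 0
        rw [hs, map_smul, h, smul_zero]
      · right
        refine ⟨r, ?_⟩
        ext y
        obtain ⟨s, hs⟩ := hgen (Submodule.Quotient.mk y)
        show ψ (Submodule.Quotient.mk y) = r • φ (Submodule.Quotient.mk y)
        rw [hs, map_smul, map_smul, hr, smul_comm]
    have h2 := length_le_of_exact_mid (P := P)
      (LinearMap.lcomp P T N.mkQ : ((M ⧸ N) →ₗ[P] T) →ₗ[P] (M →ₗ[P] T))
      (LinearMap.lcomp P T N.subtype : (M →ₗ[P] T) →ₗ[P] (N →ₗ[P] T)) (by
        intro φ hφ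
        refine ⟨N.liftQ φ ?_, ?_⟩
        · intro y hy
          exact LinearMap.congr_fun hφ ⟨y, hy⟩
        · ext y
          rfl)
    exact h2.trans (add_le_add (length_le_one_of_cyc hcyc) ih)

end

section dann

variable {P : Type u} [CommRing P] [IsLocalRing P] (a : Ideal P)

/-- The ideal quotient `(a : B)`. -/
def colonIdeal (B : Ideal P) : Ideal P where
  carrier := {r | ∀ b ∈ B, r * b ∈ a}
  add_mem' := by
    intro x y hx hy b hb
    rw [add_mul]
    exact a.add_mem (hx b hb) (hy b hb)
  zero_mem' := by
    intro b _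
    rw [zero_mul]
    exact a.zero_mem
  smul_mem' := by
    intro c x hx b hb
    rw [smul_eq_mul, mul_assoc]
    exact a.mul_mem_left _ (hx b hb)

theorem mem_colonIdeal {B : Ideal P} {r : P} : r ∈ colonIdeal a B ↔ ∀ b ∈ B, r * b ∈ a := Iff.rfl

/-- The submodule of `P/a` killed by `B`. -/
def annT (B : Ideal P) : Submodule P (P ⧸ a) where
  carrier := {t | ∀ b ∈ B, b • t = 0}
  add_mem' := by
    intro x y hx hy b hb
    rw [smul_add, hx b hb, hy b hb, add_zero]
  zero_mem' := by
    intro b _
    rw [smul_zero]
  smul_mem' := by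
    intro c x hx b hb
    rw [smul_comm, hx b hb, smul_zero]

theorem smul_mk_eq (b r : P) : b • (Submodule.Quotient.mk r : P ⧸ a) = 0 ↔ r * b ∈ a := by
  rw [← Submodule.Quotient.mk_smul, Submodule.Quotient.mk_eq_zero, smul_eq_mul, mul_comm]

variable {a}

theorem length_annT_le (hT : SocCyc (P := P) (P ⧸ a)) (hfl : IsFiniteLength P (P ⧸ a))
    {B : Ideal P} (haB : a ≤ B) :
    Module.length P (annT a B) ≤ Module.length P (P ⧸ B) := by
  have hflB : IsFiniteLength P (P ⧸ B) :=
    hfl.of_surjective (f := Submodule.factor haB) (Submodule.factor_surjective haB)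
  refine le_trans ?_ (length_hom_le hT hflB)
  let F : annT a B →ₗ[P] ((P ⧸ B) →ₗ[P] (P ⧸ a)) :=
    { toFun := fun t => Submodule.liftQ B (LinearMap.toSpanSingleton P (P ⧸ a) t.1) (by
        intro b hb
        rw [LinearMap.mem_ker, LinearMap.toSpanSingleton_apply]
        exact t.2 b hb)
      map_add' := by
        intro s t
        ext
        show (1 : P) • (s.1 + t.1) = (1 : P) • s.1 + (1 : P) • t.1
        rw [smul_add]
      map_smul' := by
        intro c t
        ext
        show (1 : P) • (c • t.1) = c • ((1 : P) • t.1)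
        rw [one_smul, one_smul] }
  apply Module.length_le_of_injective F
  rw [← LinearMap.ker_eq_bot, Submodule.eq_bot_iff]
  intro t ht
  apply Subtype.ext
  have h1 := LinearMap.congr_fun (LinearMap.mem_ker.1 ht) (Submodule.Quotient.mk 1)
  have h2 : (1 : P) • t.1 = 0 := h1
  rwa [one_smul] at h2

theorem length_colon_le (hT : SocCyc (P := P) (P ⧸ a)) (hfl : IsFiniteLength P (P ⧸ a))
    (B : Ideal P) :
    Module.length P (P ⧸ colonIdeal a B) ≤ Module.length P (Submodule.map a.mkQ B) := by
  have hflB : IsFiniteLength P (Submodule.map a.mkQ B) :=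
    hfl.of_injective (f := (Submodule.map a.mkQ B).subtype) (Submodule.injective_subtype _)
  refine le_trans ?_ (length_hom_le hT hflB)
  let F0 : P →ₗ[P] ((Submodule.map a.mkQ B) →ₗ[P] (P ⧸ a)) :=
    LinearMap.toSpanSingleton P _ (Submodule.map a.mkQ B).subtype
  let F : (P ⧸ colonIdeal a B) →ₗ[P] ((Submodule.map a.mkQ B) →ₗ[P] (P ⧸ a)) :=
    Submodule.liftQ _ F0 (by
      intro r hr
      rw [LinearMap.mem_ker]
      ext ⟨t, ht⟩
      obtain ⟨b, hb, rfl⟩ := ht
      show r • (Submodule.Quotient.mk b : P ⧸ a) = 0
      rw [smul_mk_eq, mul_comm]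
      exact hr b hb)
  apply Module.length_le_of_injective F
  rw [← LinearMap.ker_eq_bot, Submodule.eq_bot_iff]
  intro t ht
  obtain ⟨r, rfl⟩ := Submodule.Quotient.mk_surjective _ t
  rw [Submodule.Quotient.mk_eq_zero]
  intro b hb
  have h1 := LinearMap.congr_fun (LinearMap.mem_ker.1 ht)
    ⟨a.mkQ b, Submodule.mem_map_of_mem hb⟩
  have h2 : r • (Submodule.Quotient.mk b : P ⧸ a) = 0 := h1
  rw [smul_mk_eq, mul_comm] at h2
  exact h2

theorem length_eq (hT : SocCyc (P := P) (P ⧸ a)) (hfl : IsFiniteLength P (P ⧸ a))
    {B : Ideal P} (haB : a ≤ B) :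
    Module.length P (P ⧸ colonIdeal a B) = Module.length P (Submodule.map a.mkQ B) := by
  have haA : a ≤ colonIdeal a B := fun r hr b _ => a.mul_mem_right _ hr
  have h1 : Module.length P (P ⧸ a) =
      Module.length P (annT a B) + Module.length P (P ⧸ colonIdeal a B) := by
    apply Module.length_eq_add_of_exact (annT a B).subtype (Submodule.factor haA)
      (Submodule.injective_subtype _) (Submodule.factor_surjective haA)
    intro t
    obtain ⟨r, rfl⟩ := Submodule.Quotient.mk_surjective _ t
    have h2 : Submodule.factor haA (Submodule.Quotient.mk r) = Submodule.Quotient.mk r := rfl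
    rw [h2, Submodule.Quotient.mk_eq_zero]
    constructor
    · intro hr
      exact ⟨⟨Submodule.Quotient.mk r, fun b hb => (smul_mk_eq a b r).2 (hr b hb)⟩, rfl⟩
    · rintro ⟨⟨t, ht⟩, htr⟩ b hb
      have h3 : t = Submodule.Quotient.mk r := htr
      have h4 := ht b hb
      rw [h3] at h4
      exact (smul_mk_eq a b r).1 h4
  have h5 : Module.length P (P ⧸ a) =
      Module.length P (Submodule.map a.mkQ B) + Module.length P (P ⧸ B) := by
    apply Module.length_eq_add_of_exact (Submodule.map a.mkQ B).subtype (Submodule.factor haB)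
      (Submodule.injective_subtype _) (Submodule.factor_surjective haB)
    intro t
    obtain ⟨r, rfl⟩ := Submodule.Quotient.mk_surjective _ t
    have h2 : Submodule.factor haB (Submodule.Quotient.mk r) = Submodule.Quotient.mk r := rfl
    rw [h2, Submodule.Quotient.mk_eq_zero]
    constructor
    · intro hr
      exact ⟨⟨a.mkQ r, Submodule.mem_map_of_mem hr⟩, rfl⟩
    · rintro ⟨⟨t, ⟨b, hb, rfl⟩⟩, htr⟩
      have h3 : (Submodule.Quotient.mk b : P ⧸ a) = Submodule.Quotient.mk r := htr
      rw [Submodule.Quotient.eq] at h3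
      have h4 := B.sub_mem hb (haB h3)
      rwa [sub_sub_cancel] at h4
  have h6 := length_annT_le hT hfl haB
  have h7 := length_colon_le hT hfl B
  apply le_antisymm h7
  have hfin : Module.length P (P ⧸ B) ≠ ⊤ := by
    rw [Module.length_ne_top_iff]
    exact hfl.of_surjective (f := Submodule.factor haB) (Submodule.factor_surjective haB)
  rw [h1] at h5
  have h8 : Module.length P (Submodule.map a.mkQ B) + Module.length P (P ⧸ B) ≤
      Module.length P (P ⧸ B) + Module.length P (P ⧸ colonIdeal a B) := by
    rw [← h5]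
    gcongr
  rw [add_comm (Module.length P (P ⧸ B))] at h8
  exact (ENat.add_le_add_iff_right hfin).1 h8

/-- Ideals with the same annihilator in `P/a` are equal. -/
theorem le_of_colon (hT : SocCyc (P := P) (P ⧸ a)) (hfl : IsFiniteLength P (P ⧸ a))
    {B₁ B₂ : Ideal P} (h1 : a ≤ B₁) (h2 : B₁ ≤ B₂)
    (h : ∀ r, (∀ b ∈ B₁, r * b ∈ a) → ∀ b ∈ B₂, r * b ∈ a) : B₂ ≤ B₁ := by
  have hA : colonIdeal a B₁ = colonIdeal a B₂ := by
    apply le_antisymm
    · intro r hr
      exact h r hr
    · intro r hr b hb
      exact hr b (h2 hb)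
  have e1 := length_eq hT hfl h1
  have e2 := length_eq hT hfl (h1.trans h2)
  rw [hA] at e1
  have e3 : Module.length P (Submodule.map a.mkQ B₁) = Module.length P (Submodule.map a.mkQ B₂) := by
    rw [← e1, ← e2]
  have hNA := isFiniteLength_iff_isNoetherian_isArtinian.1 hfl
  have hN := hNA.1
  have hAr := hNA.2
  have hle : Submodule.map a.mkQ B₁ ≤ Submodule.map a.mkQ B₂ := Submodule.map_mono h2
  have heq : Submodule.map a.mkQ B₁ = Submodule.map a.mkQ B₂ := by
    by_contra hne
    have hlt := lt_of_le_of_ne hle hne
    have := Submodule.height_strictMono hlt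
    rw [← Module.length_submodule, ← Module.length_submodule, e3] at this
    exact lt_irrefl _ this
  intro x hx
  have h3 : a.mkQ x ∈ Submodule.map a.mkQ B₁ := by
    rw [heq]
    exact Submodule.mem_map_of_mem hx
  obtain ⟨y, hy, hyx⟩ := h3
  have h4 : y - x ∈ a := (Submodule.Quotient.eq a).1 hyx
  have h5 := B₁.sub_mem hy (h1 h4)
  rwa [sub_sub_cancel] at h5

theorem isFiniteLength_quotient [IsNoetherianRing P] {k : ℕ} (h : maximalIdeal P ^ k ≤ a) :
    IsFiniteLength P (P ⧸ a) := by
  rw [isFiniteLength_iff_isNoetherian_isArtinian]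
  refine ⟨inferInstance, ?_⟩
  have hdim : Ring.KrullDimLE 0 (P ⧸ a) := by
    rw [Ring.krullDimLE_zero_iff]
    intro p hp
    have h1 : maximalIdeal P ≤ p.comap (Ideal.Quotient.mk a) := by
      have hp' : (p.comap (Ideal.Quotient.mk a)).IsPrime := inferInstance
      apply hp'.le_of_pow_le (n := k)
      intro x hx
      rw [Ideal.mem_comap, Ideal.Quotient.eq_zero_iff_mem.2 (h hx)]
      exact p.zero_mem
    have hmax : (p.comap (Ideal.Quotient.mk a)).IsMaximal := by
      have h2 : p.comap (Ideal.Quotient.mk a) = maximalIdeal P := by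
        apply le_antisymm _ h1
        apply IsLocalRing.le_maximalIdeal
        exact (inferInstance : (p.comap (Ideal.Quotient.mk a)).IsPrime).ne_top
      rw [h2]
      exact maximalIdeal.isMaximal P
    rcases Ideal.map_eq_top_or_isMaximal_of_surjective (Ideal.Quotient.mk a)
      Ideal.Quotient.mk_surjective hmax with h3 | h3
    · rw [Ideal.map_comap_of_surjective _ Ideal.Quotient.mk_surjective] at h3
      exact absurd h3 hp.ne_top
    · rwa [Ideal.map_comap_of_surjective _ Ideal.Quotient.mk_surjective] at h3
  have hart : IsArtinianRing (P ⧸ a) :=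
    isArtinianRing_iff_isNoetherianRing_krullDimLE_zero.2 ⟨inferInstance, hdim⟩
  exact isArtinian_of_surjective_algebraMap (Ideal.Quotient.mk_surjective (I := a))

end dann

end Pool.Agent.Lib.MP_1ce8ed_ag
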