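import Mathlib

/-!
Definitions used in the statement about the pairing on `I/J` for a one-dimensional almost complete
intersection `J = q + (h)`, `q` generated by a regular sequence, in a local ring `P`.
-/

namespace Pool.Agent.Lib.MP_1ce8ed_ag

open IsLocalRing CategoryTheory Abelian RingTheory.Sequence

universe u v

section ideals

variable {P : Type u} [CommRing P]

/-- The `P`-module `P`. -/
def MP (P : Type u) [CommRing P] : ModuleCat.{u} P := ModuleCat.of P P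

/-- The `P`-module `P/b`. -/
def MQ (b : Ideal P) : ModuleCat.{u} P := ModuleCat.of P (P ⧸ b)

/-- The `P`-module `J/q`, as the image of `J` in `P/q`. -/
def MJq (q J : Ideal P) : ModuleCat.{u} P := ModuleCat.of P ↥(Submodule.map q.mkQ J)

/-- The `P`-module `A/(A ∩ B)` for ideals `A`, `B`; this is `A/B` if `B ⊆ A`. -/
def MI (A B : Ideal P) : ModuleCat.{u} P :=
  ModuleCat.of P (↥A ⧸ Submodule.comap (Submodule.subtype A) B)

/-- The class of `x` in `P/b`. -/
def clQ (b : Ideal P) (x : P) : MQ b := Submodule.Quotient.mk (p := b) x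

/-- The class of `x ∈ J` in `J/q`. -/
def clJq (q : Ideal P) {J : Ideal P} (x : P) (hx : x ∈ J) : MJq q J :=
  (⟨Submodule.mkQ q x, ⟨x, hx, rfl⟩⟩ : ↥(Submodule.map q.mkQ J))

/-- The class of `x ∈ A` in `A/B`. -/
def clI {A : Ideal P} (B : Ideal P) (x : P) (hx : x ∈ A) : MI A B :=
  Submodule.Quotient.mk (p := Submodule.comap (Submodule.subtype A) B) ⟨x, hx⟩

/-- The inclusion `A/B → P/B`. -/
def inclI (A B : Ideal P) : MI A B ⟶ MQ B :=
  ModuleCat.ofHom (Submodule.mapQ _ B (Submodule.subtype A) le_rfl)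

/-- The inclusion `J/q → P/q`. -/
def inclJq (q J : Ideal P) : MJq q J ⟶ MQ q :=
  ModuleCat.ofHom (Submodule.subtype (Submodule.map q.mkQ J))

/-- The projection `P/b → P/c` for `b ⊆ c`. -/
def proj {b c : Ideal P} (hbc : b ≤ c) : MQ b ⟶ MQ c :=
  ModuleCat.ofHom (Submodule.factor hbc)

/-- The short complex `0 → J/q → P/q → P/J → 0`. -/
def seqM {q J : Ideal P} (hqJ : q ≤ J) : ShortComplex (ModuleCat.{u} P) :=
  ShortComplex.mk (inclJq q J) (proj hqJ) (by
    apply ModuleCat.hom_ext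
    apply LinearMap.ext
    rintro ⟨_, ⟨x, hx, rfl⟩⟩
    exact (Submodule.Quotient.mk_eq_zero _).2 hx)

theorem seqM_exact {q J : Ideal P} (hqJ : q ≤ J) : (seqM hqJ).ShortExact := by
  apply ModuleCat.shortComplex_shortExact
  · intro x
    obtain ⟨x, rfl⟩ := Submodule.Quotient.mk_surjective q x
    constructor
    · intro hx
      have hx' : (Submodule.Quotient.mk x : P ⧸ J) = 0 := hx
      rw [Submodule.Quotient.mk_eq_zero] at hx'
      exact ⟨⟨Submodule.Quotient.mk x, ⟨x, hx', rfl⟩⟩, rfl⟩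
    · rintro ⟨⟨_, ⟨y, hy, rfl⟩⟩, hyx⟩
      rw [← hyx]
      exact (Submodule.Quotient.mk_eq_zero _).2 hy
  · exact Submodule.injective_subtype _
  · exact Submodule.factor_surjective hqJ

/-- The class in `Ext¹(P/J, J/q)` of the short exact sequence `0 → J/q → P/q → P/J → 0`. -/
noncomputable def extJq {q J : Ideal P} (hqJ : q ≤ J) : Ext (MQ J) (MJq q J) 1 :=
  (seqM_exact hqJ).extClass

/-- The class in `Ext^{m+1}(I/J, P)` attached to a homomorphism `l : J/q → P/q` and a class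
`E ∈ Ext^m(P/q, P)`: the Yoneda product of the inclusion `I/J → P/J`, the class of
`0 → J/q → P/q → P/J → 0`, the homomorphism `l`, and `E`. -/
noncomputable def linkClass {q J : Ideal P} (hqJ : q ≤ J) (I : Ideal P) (l : MJq q J ⟶ MQ q)
    {m : ℕ} (E : Ext (MQ q) (MP P) m) : Ext (MI I J) (MP P) (m + 1) :=
  (Ext.mk₀ (inclI I J)).comp
    ((extJq hqJ).comp ((Ext.mk₀ l).comp E (zero_add m)) (add_comm 1 m)) (zero_add (m + 1))

/-- `J = (g₁, ..., g_m, h)` and `g₁, ..., g_m` is a regular sequence. -/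
def LinkGens (J : Ideal P) {m : ℕ} (g : Fin m → P) (h : P) : Prop :=
  IsWeaklyRegular P (List.ofFn g) ∧ J = Ideal.span (Set.range g) ⊔ Ideal.span {h}

/-- The class `E` generates the `P`-module `Ext^m(P/q, P)`. -/
def IsGen {q : Ideal P} {m : ℕ} (E : Ext (MQ q) (MP P) m) : Prop :=
  ∀ E' : Ext (MQ q) (MP P) m, ∃ r : P, E' = r • E

/-- For each `b ∈ I` there is a homomorphism `l : J/q → P/q` with `h ↦ b`, and the map
`κ : I/J → Ext^{m+1}(I/J, P)` sends the class of `b` to `linkClass l E` for each such `l`. -/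
def IsLinkIso {q J I : Ideal P} (hqJ : q ≤ J) {h : P} (hh : h ∈ J) {m : ℕ}
    (E : Ext (MQ q) (MP P) m) (κ : MI I J → Ext (MI I J) (MP P) (m + 1)) : Prop :=
  ∀ (b : P) (hb : b ∈ I), (∃ l : MJq q J ⟶ MQ q, l.hom (clJq q h hh) = clQ q b) ∧
    ∀ l : MJq q J ⟶ MQ q, l.hom (clJq q h hh) = clQ q b → κ (clI J b hb) = linkClass hqJ I l E

/-- The homomorphism `P/b → N`, `1 ↦ a`, for an element `a` killed by the ideal `b`. -/
def evM {N : ModuleCat.{u} P} (b : Ideal P) (a : N) (hb : ∀ r ∈ b, r • a = 0) : MQ b ⟶ N :=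
  ModuleCat.ofHom (Submodule.liftQ b (LinearMap.toSpanSingleton P N a) hb)

end ideals

section lc

variable (P : Type u) [CommRing P] [IsLocalRing P]

/-- The transition maps `Extⁿ(P/𝔪ᵏ, P) → Extⁿ(P/𝔪ˡ, P)`, `k ≤ l`. -/
noncomputable def lcMap (n k l : ℕ) (hkl : k ≤ l) :
    Ext (MQ (maximalIdeal P ^ k)) (MP P) n →ₗ[P] Ext (MQ (maximalIdeal P ^ l)) (MP P) n :=
  Ext.precompOfLinear (Ext.mk₀ (proj (Ideal.pow_le_pow_right hkl))) P (MP P) (zero_add n)

/-- Local cohomology `Hⁿ_𝔪(P) = colim_k Extⁿ(P/𝔪ᵏ, P)`. -/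
noncomputable def LCM (n : ℕ) : ModuleCat.{u} P :=
  ModuleCat.of P (Module.DirectLimit (fun k : ℕ => Ext (MQ (maximalIdeal P ^ k)) (MP P) n)
    (lcMap P n))

variable {P}

/-- The map `Extⁿ(P/𝔪ᵏ, P) → Hⁿ_𝔪(P)`. -/
noncomputable def toLC {n : ℕ} (k : ℕ) (x : Ext (MQ (maximalIdeal P ^ k)) (MP P) n) : LCM P n :=
  Module.DirectLimit.of P ℕ (fun k : ℕ => Ext (MQ (maximalIdeal P ^ k)) (MP P) n) (lcMap P n) k x

/-- The product `N × Extⁿ(N, P) → Hⁿ_𝔪(P)` for an element `a ∈ N` with `𝔪ᵏ a = 0`: the class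
`x` is pulled back along `P/𝔪ᵏ → N`, `1 ↦ a`. -/
noncomputable def dualPair {N : ModuleCat.{u} P} {n : ℕ} (a : N) (k : ℕ)
    (hk : ∀ r ∈ maximalIdeal P ^ k, r • a = 0) (x : Ext N (MP P) n) : LCM P n :=
  toLC k ((Ext.mk₀ (evM (maximalIdeal P ^ k) a hk)).comp x (zero_add n))

variable {K : Type v} [Field K] [Algebra K P]

/-- The additive map `τ : N → K` is `K`-linear. -/
def IsKLin {N : ModuleCat.{u} P} (τ : N →+ K) : Prop :=
  ∀ (c : K) (x : N), τ (algebraMap K P c • x) = c * τ x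

/-- `τ` is not zero on the image of `Extⁿ(P/𝔪, P)`. -/
def SocleNonzero {n : ℕ} (τ : LCM P n →+ K) : Prop :=
  ∃ x : Ext (MQ (maximalIdeal P ^ 1)) (MP P) n, τ (toLC 1 x) ≠ 0

/-- The pairing `([a], [b]) ↦ τ([a] · κ[b])` on `I/J` factors over the multiplication map
`([a], [b]) ↦ [ab] ∈ I²/IJ`. -/
def FactorsOverMul {I J : Ideal P} {n : ℕ} (κ : MI I J → Ext (MI I J) (MP P) n)
    (τ : LCM P n →+ K) : Prop :=
  ∃ β : MI (I * I) (I * J) →+ K, IsKLin β ∧ ∀ (a b : P) (ha : a ∈ I) (hb : b ∈ I) (k : ℕ)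
    (hk : ∀ r ∈ maximalIdeal P ^ k, r • clI J a ha = 0),
    τ (dualPair (clI J a ha) k hk (κ (clI J b hb))) =
      β (clI (I * J) (a * b) (Ideal.mul_mem_mul ha hb))

/-- The pairing `([a], [b]) ↦ τ([a] · κ[b])` on `I/J` is non-degenerate (in `b`; it is symmetric
if it factors over multiplication). -/
def IsNondeg {I J : Ideal P} {n : ℕ} (κ : MI I J → Ext (MI I J) (MP P) n)
    (τ : LCM P n →+ K) : Prop :=
  ∀ b : MI I J, (∀ (a : MI I J) (k : ℕ) (hk : ∀ r ∈ maximalIdeal P ^ k, r • a = 0),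
    τ (dualPair a k hk (κ b)) = 0) → b = 0

/-- The socle `{u : 𝔪 u = 0}` of `N` is a one-dimensional vector space over `K`. -/
def SocleOneDim (K : Type v) [Field K] [Algebra K P] (N : ModuleCat.{u} P) : Prop :=
  ∃ u : N, u ≠ 0 ∧ (∀ r ∈ maximalIdeal P, r • u = 0) ∧
    ∀ w : N, (∀ r ∈ maximalIdeal P, r • w = 0) → ∃ c : K, w = algebraMap K P c • u

end lc

end Pool.Agent.Lib.MP_1ce8ed_ag
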