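import Mathlib
import Pool.Agent.Lib.MP_1ce8ed_ag.DAnn

/-!
The socle of `I^2/IJ` is one-dimensional if `I ≠ J`.
-/

namespace Pool.Agent.Lib.MP_1ce8ed_ag

open IsLocalRing RingTheory.Sequence Pointwise

universe u

section general

variable {P : Type u} [CommRing P]

theorem regular_mod {q : Ideal P} {s : P} :
    IsSMulRegular (P ⧸ (q • ⊤ : Submodule P P)) s ↔ ∀ a, s * a ∈ q → a ∈ q := by
  have htop : (q • ⊤ : Submodule P P) = q := by rw [smul_eq_mul, Ideal.mul_top]
  rw [isSMulRegular_iff_right_eq_zero_of_smul]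
  constructor
  · intro h a ha
    have h1 := h (Submodule.Quotient.mk a) (by
      rw [← Submodule.Quotient.mk_smul, Submodule.Quotient.mk_eq_zero, htop]
      exact ha)
    rw [Submodule.Quotient.mk_eq_zero, htop] at h1
    exact h1
  · intro h t ht
    obtain ⟨a, rfl⟩ := Submodule.Quotient.mk_surjective _ t
    rw [← Submodule.Quotient.mk_smul, Submodule.Quotient.mk_eq_zero, htop] at ht
    rw [Submodule.Quotient.mk_eq_zero, htop]
    exact h a ht

theorem isWeaklyRegular_ofFn_succ {m : ℕ} (g : Fin (m + 1) → P) :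
    IsWeaklyRegular P (List.ofFn g) ↔
      IsWeaklyRegular P (List.ofFn fun i : Fin m => g i.castSucc) ∧
      ∀ a, g (Fin.last m) * a ∈ Ideal.span (Set.range fun i : Fin m => g i.castSucc) →
        a ∈ Ideal.span (Set.range fun i : Fin m => g i.castSucc) := by
  rw [List.ofFn_succ', List.concat_eq_append, isWeaklyRegular_append_iff,
    isWeaklyRegular_singleton_iff, ofList_ofFn, regular_mod]

/-- Syzygies of regular sequences have entries in the ideal. -/
theorem regfam_syz {m : ℕ} : ∀ (g : Fin m → P), IsWeaklyRegular P (List.ofFn g) →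
    ∀ c : Fin m → P, ∑ i, c i * g i = 0 → ∀ i, c i ∈ Ideal.span (Set.range g) := by
  induction m with
  | zero =>
    intro g _ c _ i
    exact i.elim0
  | succ m ih =>
    intro g hreg c hc
    rw [isWeaklyRegular_ofFn_succ] at hreg
    obtain ⟨hreg1, hlast⟩ := hreg
    set q' := Ideal.span (Set.range fun i : Fin m => g i.castSucc) with hq'
    have hle : q' ≤ Ideal.span (Set.range g) := by
      apply Ideal.span_mono
      rintro x ⟨i, rfl⟩
      exact ⟨i.castSucc, rfl⟩
    rw [Fin.sum_univ_castSucc] at hc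
    have h1 : g (Fin.last m) * c (Fin.last m) ∈ q' := by
      have : g (Fin.last m) * c (Fin.last m) = -∑ i : Fin m, c i.castSucc * g i.castSucc := by
        rw [eq_neg_iff_add_eq_zero, add_comm, mul_comm (g _)]
        exact hc
      rw [this]
      apply q'.neg_mem
      exact q'.sum_mem fun i _ => q'.mul_mem_left _ (Ideal.subset_span ⟨i, rfl⟩)
    have h2 := hlast _ h1
    obtain ⟨b, hb⟩ := (mem_span_range' _ _).1 h2
    have h3 := ih (fun i => g i.castSucc) hreg1
      (fun i => c i.castSucc + b i * g (Fin.last m)) (by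
        rw [← hc, ← hb, Finset.sum_mul, ← Finset.sum_add_distrib]
        refine Finset.sum_congr rfl fun i _ => ?_
        ring)
    intro i
    refine Fin.lastCases ?_ (fun i => ?_) i
    · exact hle h2
    · have h4 := hle (h3 i)
      have h5 : b i * g (Fin.last m) ∈ Ideal.span (Set.range g) :=
        Ideal.mul_mem_left _ _ (Ideal.subset_span ⟨_, rfl⟩)
      have := Ideal.sub_mem _ h4 h5
      rwa [add_sub_cancel_right] at this

theorem mem_mul_sup_iff {I q : Ideal P} {h x : P} :
    x ∈ I * (q ⊔ Ideal.span {h}) ↔ ∃ y ∈ I * q, ∃ d ∈ I, x = y + h * d := by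
  rw [Ideal.mul_sup, Submodule.mem_sup]
  constructor
  · rintro ⟨y, hy, z, hz, rfl⟩
    obtain ⟨d, hd, rfl⟩ := Ideal.mem_mul_span_singleton.1 hz
    exact ⟨y, hy, d, hd, by ring⟩
  · rintro ⟨y, hy, d, hd, rfl⟩
    exact ⟨y, hy, h * d, Ideal.mem_mul_span_singleton.2 ⟨d, hd, by ring⟩, rfl⟩

end general

section

variable {P : Type u} [CommRing P] [IsRegularLocalRing P] {m : ℕ} {g : Fin m → P} {h : P}
  {I : Ideal P}

theorem Setup.exists_s (S : Setup g h I) : ∃ s ∈ maximalIdeal P,
    (∀ a, s * a ∈ Ideal.span (Set.range g) → a ∈ Ideal.span (Set.range g)) ∧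
    (∀ a, s * a ∈ I → a ∈ I) := by
  set q := Ideal.span (Set.range g) with hq
  have h1 : Subsingleton ((P ⧸ maximalIdeal P) →ₗ[P] ((P ⧸ q) × (P ⧸ I))) := by
    apply subsingleton_of_forall_eq 0
    intro φ
    have h2 : φ (Submodule.Quotient.mk 1) = 0 := by
      obtain ⟨⟨a, b⟩, hab⟩ : ∃ ab : P × P, φ (Submodule.Quotient.mk 1) =
          (Submodule.Quotient.mk ab.1, Submodule.Quotient.mk ab.2) := by
        obtain ⟨a, ha⟩ := Submodule.Quotient.mk_surjective _ (φ (Submodule.Quotient.mk 1)).1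
        obtain ⟨b, hb⟩ := Submodule.Quotient.mk_surjective _ (φ (Submodule.Quotient.mk 1)).2
        exact ⟨(a, b), Prod.ext ha.symm hb.symm⟩
      have hkill : ∀ r ∈ maximalIdeal P, r * a ∈ q ∧ r * b ∈ I := by
        intro r hr
        have h3 : r • φ (Submodule.Quotient.mk 1) = 0 := by
          rw [← map_smul, ← Submodule.Quotient.mk_smul, smul_eq_mul, mul_one,
            (Submodule.Quotient.mk_eq_zero _).2 hr, map_zero]
        rw [hab] at h3
        have h4 := congrArg Prod.fst h3
        have h5 := congrArg Prod.snd h3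
        constructor
        · have : (Submodule.Quotient.mk (r • a) : P ⧸ q) = 0 := h4
          rwa [Submodule.Quotient.mk_eq_zero] at this
        · have : (Submodule.Quotient.mk (r • b) : P ⧸ I) = 0 := h5
          rwa [Submodule.Quotient.mk_eq_zero] at this
      have ha : a ∈ q := S.q_sat fun r hr => (hkill r hr).1
      have hb : b ∈ I := S.sat _ fun r hr => (hkill r hr).2
      rw [hab]
      exact Prod.ext ((Submodule.Quotient.mk_eq_zero _).2 ha)
        ((Submodule.Quotient.mk_eq_zero _).2 hb)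
    apply LinearMap.ext
    intro t
    obtain ⟨r, rfl⟩ := Submodule.Quotient.mk_surjective _ t
    have h3 : (Submodule.Quotient.mk r : P ⧸ maximalIdeal P) =
        r • Submodule.Quotient.mk 1 := by
      rw [← Submodule.Quotient.mk_smul, smul_eq_mul, mul_one]
    rw [h3, map_smul, h2, smul_zero]
    rfl
  rw [IsSMulRegular.subsingleton_linearMap_iff] at h1
  obtain ⟨s, hs, hreg⟩ := h1
  rw [Ideal.annihilator_quotient] at hs
  rw [isSMulRegular_iff_right_eq_zero_of_smul] at hreg
  refine ⟨s, hs, ?_, ?_⟩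
  · intro a ha
    have h2 := hreg (Submodule.Quotient.mk a, 0) (by
      refine Prod.ext ?_ ?_
      · show (Submodule.Quotient.mk (s • a) : P ⧸ q) = 0
        rw [Submodule.Quotient.mk_eq_zero]
        exact ha
      · show s • (0 : P ⧸ I) = 0
        rw [smul_zero])
    have h3 : (Submodule.Quotient.mk a : P ⧸ q) = 0 := congrArg Prod.fst h2
    rwa [Submodule.Quotient.mk_eq_zero] at h3
  · intro a ha
    have h2 := hreg (0, Submodule.Quotient.mk a) (by
      refine Prod.ext ?_ ?_
      · show s • (0 : P ⧸ q) = 0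
        rw [smul_zero]
      · show (Submodule.Quotient.mk (s • a) : P ⧸ I) = 0
        rw [Submodule.Quotient.mk_eq_zero]
        exact ha)
    have h3 : (Submodule.Quotient.mk a : P ⧸ I) = 0 := congrArg Prod.snd h2
    rwa [Submodule.Quotient.mk_eq_zero] at h3

/-- The module `q/Iq` has no `s`-torsion. -/
theorem Setup.koszul (S : Setup g h I) {s : P} (hsI : ∀ a, s * a ∈ I → a ∈ I) {x : P}
    (hx : x ∈ Ideal.span (Set.range g)) (hsx : s * x ∈ I * Ideal.span (Set.range g)) :
    x ∈ I * Ideal.span (Set.range g) := by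
  obtain ⟨r, rfl⟩ := (mem_span_range' _ _).1 hx
  obtain ⟨c, hc, hcs⟩ := (mem_mul_span_range _ _ _).1 hsx
  have h1 := regfam_syz g S.reg (fun i => s * r i - c i) (by
    have : ∑ i, (s * r i - c i) * g i = s * ∑ i, r i * g i - ∑ i, c i * g i := by
      rw [Finset.mul_sum, ← Finset.sum_sub_distrib]
      refine Finset.sum_congr rfl fun i _ => ?_
      ring
    rw [this, hcs, sub_self])
  rw [mem_mul_span_range]
  refine ⟨r, fun i => hsI _ ?_, rfl⟩
  have := I.add_mem (S.q_le (h1 i)) (hc i)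
  rwa [sub_add_cancel] at this

/-- The regular sequence `g, s`. -/
theorem Setup.reg_snoc (S : Setup g h I) {s : P}
    (hsq : ∀ a, s * a ∈ Ideal.span (Set.range g) → a ∈ Ideal.span (Set.range g)) :
    IsWeaklyRegular P (List.ofFn g ++ [s]) := by
  rw [isWeaklyRegular_append_iff, isWeaklyRegular_singleton_iff, ofList_ofFn, regular_mod]
  exact ⟨S.reg, hsq⟩

theorem ofList_snoc {s : P} : Ideal.ofList (List.ofFn g ++ [s]) =
    Ideal.span (Set.range g) ⊔ Ideal.span {s} := by
  rw [Ideal.ofList_append, ofList_ofFn, Ideal.ofList_singleton]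

theorem Setup.mem_snoc (S : Setup g h I) {s : P} (hs : s ∈ maximalIdeal P) :
    ∀ x ∈ List.ofFn g ++ [s], x ∈ maximalIdeal P := by
  intro x hx
  rw [List.mem_append, List.mem_ofFn', List.mem_singleton] at hx
  rcases hx with ⟨i, rfl⟩ | rfl
  · exact S.gmem i
  · exact hs

theorem Setup.soc_snoc (S : Setup g h I) {s : P} (hs : s ∈ maximalIdeal P)
    (hsq : ∀ a, s * a ∈ Ideal.span (Set.range g) → a ∈ Ideal.span (Set.range g)) {a b : P}
    (ha : ∀ r ∈ maximalIdeal P, r * a ∈ Ideal.span (Set.range g) ⊔ Ideal.span {s})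
    (hb : ∀ r ∈ maximalIdeal P, r * b ∈ Ideal.span (Set.range g) ⊔ Ideal.span {s}) :
    a ∈ Ideal.span (Set.range g) ⊔ Ideal.span {s} ∨
      ∃ r, b - r * a ∈ Ideal.span (Set.range g) ⊔ Ideal.span {s} := by
  rw [← ofList_snoc] at ha hb ⊢
  exact soc_cyclic (S.mem_snoc hs) (S.reg_snoc hsq) (by simp [S.dim]) ha hb

/-- Division of socle elements by `s`. -/
theorem Setup.socle_step (S : Setup g h I) {s : P} (hs : s ∈ maximalIdeal P)
    {u : P} (hu : ∀ r ∈ maximalIdeal P, r * u ∈ I * (Ideal.span (Set.range g) ⊔ Ideal.span {h})) :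
    ∃ y ∈ I * Ideal.span (Set.range g), ∃ v ∈ I, s * u = y + h * v ∧
      ∀ r ∈ maximalIdeal P, r * v ∈ Ideal.span (Set.range g) ⊔ Ideal.span {s} := by
  obtain ⟨y, hy, v, hv, hyv⟩ := mem_mul_sup_iff.1 (hu s hs)
  refine ⟨y, hy, v, hv, hyv, ?_⟩
  intro r hr
  obtain ⟨y', hy', d, hd, hyd⟩ := mem_mul_sup_iff.1 (hu r hr)
  have h1 : r * v - s * d ∈ Ideal.span (Set.range g) := by
    apply S.syz
    · exact I.sub_mem (I.mul_mem_left _ hv) (I.mul_mem_left _ hd)
    · have : h * (r * v - s * d) = s * y' - r * y := by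
        have e1 : s * (r * u) = s * y' + s * (h * d) := by rw [hyd]; ring
        have e2 : r * (s * u) = r * y + r * (h * v) := by rw [hyv]; ring
        have e3 : s * (r * u) = r * (s * u) := by ring
        rw [e1, e2] at e3
        linear_combination -e3
      rw [this]
      exact Ideal.sub_mem _ (Ideal.mul_mem_left _ _ hy') (Ideal.mul_mem_left _ _ hy)
  have h2 : r * v = (r * v - s * d) + s * d := by ring
  rw [h2]
  exact Ideal.add_mem _ (Ideal.mem_sup_left h1)
    (Ideal.mem_sup_right (Ideal.mul_mem_right _ _ (Ideal.mem_span_singleton_self s)))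

/-- If the quotient is zero modulo `s`, then the element is zero. -/
theorem Setup.socle_zero (S : Setup g h I) {s : P}
    (hsq : ∀ a, s * a ∈ Ideal.span (Set.range g) → a ∈ Ideal.span (Set.range g))
    (hsI : ∀ a, s * a ∈ I → a ∈ I) {u y v : P} (hy : y ∈ I * Ideal.span (Set.range g))
    (hv : v ∈ I) (huv : s * u = y + h * v)
    (hvs : v ∈ Ideal.span (Set.range g) ⊔ Ideal.span {s}) :
    u ∈ I * (Ideal.span (Set.range g) ⊔ Ideal.span {h}) := by
  obtain ⟨q1, hq1, z, hz, rfl⟩ := Submodule.mem_sup.1 hvs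
  obtain ⟨d, rfl⟩ := Ideal.mem_span_singleton.1 hz
  have hd : d ∈ I := by
    apply hsI
    have := I.sub_mem hv (S.q_le hq1)
    rwa [add_sub_cancel_left] at this
  have h1 : s * (u - h * d) ∈ I * Ideal.span (Set.range g) := by
    have : s * (u - h * d) = y + h * q1 := by
      rw [mul_sub, huv]
      ring
    rw [this]
    exact Ideal.add_mem _ hy (Ideal.mul_mem_mul S.h_mem hq1)
  have h2 : u - h * d ∈ Ideal.span (Set.range g) := hsq _ (Ideal.mul_le_right h1)
  have h3 := S.koszul hsI h2 h1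
  rw [mem_mul_sup_iff]
  exact ⟨u - h * d, h3, d, hd, by ring⟩

/-- The socle of `P/IJ` is at most one-dimensional. -/
theorem Setup.socle_le (S : Setup g h I) {u₁ u₂ : P}
    (h1 : ∀ r ∈ maximalIdeal P, r * u₁ ∈ I * (Ideal.span (Set.range g) ⊔ Ideal.span {h}))
    (h2 : ∀ r ∈ maximalIdeal P, r * u₂ ∈ I * (Ideal.span (Set.range g) ⊔ Ideal.span {h})) :
    u₁ ∈ I * (Ideal.span (Set.range g) ⊔ Ideal.span {h}) ∨
      ∃ r, u₂ - r * u₁ ∈ I * (Ideal.span (Set.range g) ⊔ Ideal.span {h}) := by
  obtain ⟨s, hs, hsq, hsI⟩ := S.exists_s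
  obtain ⟨y₁, hy₁, v₁, hv₁, e₁, k₁⟩ := S.socle_step hs h1
  obtain ⟨y₂, hy₂, v₂, hv₂, e₂, k₂⟩ := S.socle_step hs h2
  rcases S.soc_snoc hs hsq k₁ k₂ with h3 | ⟨r, hr⟩
  · exact Or.inl (S.socle_zero hsq hsI hy₁ hv₁ e₁ h3)
  · right
    refine ⟨r, S.socle_zero hsq hsI (y := y₂ - r * y₁) (v := v₂ - r * v₁)
      (Ideal.sub_mem _ hy₂ (Ideal.mul_mem_left _ _ hy₁))
      (I.sub_mem hv₂ (I.mul_mem_left _ hv₁)) ?_ hr⟩
    have : s * (u₂ - r * u₁) = s * u₂ - r * (s * u₁) := by ring
    rw [this, e₁, e₂]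
    ring

/-- If `I ≠ J`, then `I² ≠ IJ`. -/
theorem Setup.le_of_sq_le (S : Setup g h I)
    (hsq2 : I * I ≤ I * (Ideal.span (Set.range g) ⊔ Ideal.span {h})) :
    I ≤ Ideal.span (Set.range g) ⊔ Ideal.span {h} := by
  obtain ⟨s, hs, hsq, hsI⟩ := S.exists_s
  set q := Ideal.span (Set.range g) with hq
  set a := q ⊔ Ideal.span {s} with ha
  have hT : SocCyc (P := P) (P ⧸ a) := by
    intro t₁ t₂ k₁ k₂
    obtain ⟨v₁, rfl⟩ := Submodule.Quotient.mk_surjective _ t₁
    obtain ⟨v₂, rfl⟩ := Submodule.Quotient.mk_surjective _ t₂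
    rcases S.soc_snoc hs hsq (a := v₁) (b := v₂)
      (fun r hr => by
        have := k₁ r hr
        rw [smul_mk_eq, mul_comm] at this
        exact this)
      (fun r hr => by
        have := k₂ r hr
        rw [smul_mk_eq, mul_comm] at this
        exact this) with h3 | ⟨r, hr⟩
    · left
      rw [Submodule.Quotient.mk_eq_zero]
      exact h3
    · right
      refine ⟨r, ?_⟩
      rw [← Submodule.Quotient.mk_smul, Submodule.Quotient.eq]
      exact hr
  have hfl : IsFiniteLength P (P ⧸ a) := by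
    have hreg : IsRegular P (List.ofFn g ++ [s]) :=
      IsRegular.of_isWeaklyRegular_of_mem_maximalIdeal (L := P) (S.mem_snoc hs)
        (S.reg_snoc hsq)
    have h1 := ringKrullDim_add_length_eq_ringKrullDim_of_isRegular _ hreg
    rw [ofList_snoc, ← IsRegularLocalRing.spanFinrank_maximalIdeal (R := P), S.dim] at h1
    have h2 : (List.ofFn g ++ [s]).length = m + 1 := by simp
    rw [h2] at h1
    have h3 : ringKrullDim (P ⧸ a) ≤ 0 := by
      have h4 : ringKrullDim (P ⧸ a) + ((m + 1 : ℕ) : WithBot ℕ∞) ≤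
          0 + ((m + 1 : ℕ) : WithBot ℕ∞) := by
        rw [zero_add]
        exact h1.le
      exact ENat.WithBot.add_le_add_natCast_right_iff.1 h4
    have h4 : Ring.KrullDimLE 0 (P ⧸ a) := by
      rw [Ring.krullDimLE_iff]
      exact_mod_cast h3
    have hart : IsArtinianRing (P ⧸ a) :=
      isArtinianRing_iff_isNoetherianRing_krullDimLE_zero.2 ⟨inferInstance, h4⟩
    rw [isFiniteLength_iff_isNoetherian_isArtinian]
    exact ⟨inferInstance, isArtinian_of_surjective_algebraMap
      (Ideal.Quotient.mk_surjective (I := a))⟩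
  have hB : I ⊔ a ≤ Ideal.span {h} ⊔ a := by
    apply le_of_colon hT hfl le_sup_right
    · apply sup_le_sup_right
      rw [Ideal.span_singleton_le_iff_mem]
      exact S.h_mem
    · intro r hr b hb
      have hrh : r * h ∈ a := hr h (Ideal.mem_sup_left (Ideal.mem_span_singleton_self h))
      obtain ⟨c, hc, z, hz, rfl⟩ := Submodule.mem_sup.1 hb
      rw [mul_add]
      apply a.add_mem _ (a.mul_mem_left _ hz)
      -- main computation
      obtain ⟨q1, hq1, z1, hz1, e1⟩ := Submodule.mem_sup.1 hrh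
      obtain ⟨j, rfl⟩ := Ideal.mem_span_singleton.1 hz1
      have hj : j ∈ I := by
        apply hsI
        have h1 : s * j = r * h - q1 := by rw [← e1]; ring
        rw [h1]
        exact I.sub_mem (I.mul_mem_left _ S.h_mem) (S.q_le hq1)
      obtain ⟨y, hy, d, hd, e2⟩ := mem_mul_sup_iff.1 (hsq2 (Ideal.mul_mem_mul hj hc))
      have h2 : r * c - s * d ∈ q := by
        apply S.syz
        · exact I.sub_mem (I.mul_mem_left _ hc) (I.mul_mem_left _ hd)
        · have h3 : h * (r * c - s * d) = c * q1 + s * y := by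
            have e3 : (r * h) * c = (q1 + s * j) * c := by rw [e1]
            have e4 : s * (j * c) = s * (y + h * d) := by rw [e2]
            linear_combination e3 + e4
          rw [h3]
          exact Ideal.add_mem _ (Ideal.mul_mem_mul hc hq1) (Ideal.mul_mem_left _ _ hy)
      have h4 : r * c = (r * c - s * d) + s * d := by ring
      rw [h4]
      exact a.add_mem (Ideal.mem_sup_left h2)
        (Ideal.mem_sup_right (Ideal.mul_mem_right _ _ (Ideal.mem_span_singleton_self s)))
  -- Nakayama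
  apply Submodule.le_of_le_smul_of_le_jacobson_bot (I := maximalIdeal P)
    (IsNoetherian.noetherian _)
  · rw [IsLocalRing.jacobson_eq_maximalIdeal _ bot_ne_top]
  · intro x hx
    obtain ⟨z1, hz1, z2, hz2, e1⟩ := Submodule.mem_sup.1 (hB (Ideal.mem_sup_left hx))
    obtain ⟨z3, hz3, z4, hz4, e2⟩ := Submodule.mem_sup.1 hz2
    obtain ⟨c, rfl⟩ := Ideal.mem_span_singleton.1 hz4
    have hz1' : z1 ∈ q ⊔ Ideal.span {h} := Ideal.mem_sup_right hz1
    have hz3' : z3 ∈ q ⊔ Ideal.span {h} := Ideal.mem_sup_left hz3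
    have hc : c ∈ I := by
      apply hsI
      have h1 : s * c = x - (z1 + z3) := by rw [← e1, ← e2]; ring
      rw [h1]
      exact I.sub_mem hx (S.le (Ideal.add_mem _ hz1' hz3'))
    have h2 : x = (z1 + z3) + s * c := by rw [← e1, ← e2]; ring
    rw [h2]
    exact Submodule.add_mem_sup (Ideal.add_mem _ hz1' hz3')
      (Submodule.smul_mem_smul hs hc)

end

end Pool.Agent.Lib.MP_1ce8ed_ag
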