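import Mathlib
import Pool.Agent.Lib.MP_1ce8ed_ag.Soc

/-!
Choice of generators: `J` is generated by a regular sequence of length `n-1` and one more element.
-/

namespace Pool.Agent.Lib.MP_1ce8ed_ag

open IsLocalRing RingTheory.Sequence

universe u

/-- Prime avoidance for a coset. -/
theorem coset_avoid {P : Type u} [CommRing P] {s : Set (Ideal P)} (hs : s.Finite)
    (hp : ∀ p ∈ s, p.IsPrime) (x : P) (A : Ideal P) (h : ∀ p ∈ s, x ∈ p → ¬ A ≤ p) :
    ∃ c ∈ A, ∀ p ∈ s, x + c ∉ p := by
  classical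
  set s' : Set (Ideal P) := {p | Maximal (· ∈ s) p} with hs'
  have hs'fin : s'.Finite := hs.subset fun p hp => hp.1
  set s1 : Set (Ideal P) := {p ∈ s' | x ∈ p} with hs1
  set s2 : Set (Ideal P) := {p ∈ s' | x ∉ p} with hs2
  have hs1fin : s1.Finite := hs'fin.subset fun p hp => hp.1
  have hs2fin : s2.Finite := hs'fin.subset fun p hp => hp.1
  set B : Ideal P := A ⊓ hs2fin.toFinset.inf id with hB
  have hcon : ∃ c ∈ B, ∀ p ∈ s1, c ∉ p := by
    by_contra hcon
    push Not at hcon
    have hsub : (B : Set P) ⊆ ⋃ i ∈ s1, ((id i : Ideal P) : Set P) := by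
      intro c hc
      obtain ⟨p, hp1, hcp⟩ := hcon c hc
      exact Set.mem_biUnion hp1 hcp
    obtain ⟨p, hp1, hle⟩ := (Ideal.subset_union_prime_finite hs1fin (f := id) ⊥ ⊥
      (fun i hi _ _ => hp i hi.1.1)).1 hsub
    have hpp : p.IsPrime := hp p hp1.1.1
    have hle' : A ⊓ hs2fin.toFinset.inf id ≤ p := hle
    rcases (hpp.inf_le).1 hle' with h1 | h1
    · exact h p hp1.1.1 hp1.2 h1
    · obtain ⟨p', hp', hle2⟩ := (hpp.inf_le').1 h1
      rw [Set.Finite.mem_toFinset] at hp'
      have h3 : p' = p := le_antisymm hle2 (hp'.1.2 hp1.1.1 hle2)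
      exact hp'.2 (h3 ▸ hp1.2)
  obtain ⟨c, hcB, hc1⟩ := hcon
  refine ⟨c, hcB.1, ?_⟩
  intro p hps hxc
  obtain ⟨p', hpp', hmax⟩ := hs.exists_le_maximal hps
  have hxc' : x + c ∈ p' := hpp' hxc
  by_cases hx : x ∈ p'
  · have h4 : c ∈ p' := by
      have := p'.sub_mem hxc' hx
      rwa [add_sub_cancel_left] at this
    exact hc1 p' ⟨hmax, hx⟩ h4
  · have h4 : c ∈ p' := by
      have h5 : hs2fin.toFinset.inf id ≤ p' :=
        Finset.inf_le (f := id) (hs2fin.mem_toFinset.2 ⟨hmax, hx⟩)
      exact h5 hcB.2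
    apply hx
    have := p'.sub_mem hxc' h4
    rwa [add_sub_cancel_right] at this

section

variable {P : Type u} [CommRing P] [IsRegularLocalRing P]

theorem pow_sat {q : Ideal P} (hq : ∀ a, (∀ r ∈ maximalIdeal P, r * a ∈ q) → a ∈ q) (k : ℕ) :
    ∀ a, (∀ r ∈ maximalIdeal P ^ k, r * a ∈ q) → a ∈ q := by
  induction k with
  | zero =>
    intro a ha
    have := ha 1 (by simp)
    rwa [one_mul] at this
  | succ k ih =>
    intro a ha
    apply ih
    intro r hr
    apply hq
    intro t ht
    rw [← mul_assoc]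
    apply ha
    rw [pow_succ, mul_comm t r]
    exact Ideal.mul_mem_mul hr ht

theorem exists_reg_mod {q : Ideal P}
    (hq : ∀ a, (∀ r ∈ maximalIdeal P, r * a ∈ q) → a ∈ q) :
    ∃ y ∈ maximalIdeal P, ∀ a, y * a ∈ q → a ∈ q := by
  have h1 : Subsingleton ((P ⧸ maximalIdeal P) →ₗ[P] (P ⧸ q)) := by
    apply subsingleton_of_forall_eq 0
    intro φ
    have h2 : φ (Submodule.Quotient.mk 1) = 0 := by
      obtain ⟨a, ha⟩ := Submodule.Quotient.mk_surjective _ (φ (Submodule.Quotient.mk 1))
      rw [← ha, Submodule.Quotient.mk_eq_zero]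
      apply hq
      intro r hr
      have h3 : r • φ (Submodule.Quotient.mk 1) = 0 := by
        rw [← map_smul, ← Submodule.Quotient.mk_smul, smul_eq_mul, mul_one,
          (Submodule.Quotient.mk_eq_zero _).2 hr, map_zero]
      rw [← ha, ← Submodule.Quotient.mk_smul, Submodule.Quotient.mk_eq_zero] at h3
      exact h3
    apply LinearMap.ext
    intro t
    obtain ⟨r, rfl⟩ := Submodule.Quotient.mk_surjective _ t
    have h3 : (Submodule.Quotient.mk r : P ⧸ maximalIdeal P) =
        r • Submodule.Quotient.mk 1 := by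
      rw [← Submodule.Quotient.mk_smul, smul_eq_mul, mul_one]
    rw [h3, map_smul, h2, smul_zero]
    rfl
  rw [IsSMulRegular.subsingleton_linearMap_iff] at h1
  obtain ⟨s, hs, hreg⟩ := h1
  rw [Ideal.annihilator_quotient] at hs
  rw [isSMulRegular_iff_right_eq_zero_of_smul] at hreg
  refine ⟨s, hs, ?_⟩
  intro a ha
  have h2 := hreg (Submodule.Quotient.mk a) (by
    rw [← Submodule.Quotient.mk_smul, Submodule.Quotient.mk_eq_zero]
    exact ha)
  rwa [Submodule.Quotient.mk_eq_zero] at h2

theorem not_le_of_ass {m j : ℕ} (hdim : (maximalIdeal P).spanFinrank = m + 1) (hj : j < m)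
    (g : Fin j → P) (hg : ∀ i, g i ∈ maximalIdeal P) (hreg : IsWeaklyRegular P (List.ofFn g))
    {J : Ideal P} (hprime : ∀ p p' : Ideal P, p.IsPrime → p'.IsPrime → J ≤ p → p < p' →
      p' = maximalIdeal P) {p : Ideal P}
    (hp : p ∈ associatedPrimes P (P ⧸ Ideal.span (Set.range g))) : ¬ J ≤ p := by
  intro hJp
  set q := Ideal.span (Set.range g) with hq
  have hqsat : ∀ a, (∀ r ∈ maximalIdeal P, r * a ∈ q) → a ∈ q := by
    intro a ha
    rw [hq, ← ofList_ofFn] at ha ⊢
    apply mem_of_soc (gs := List.ofFn g) _ hreg _ ha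
    · intro x hx
      rw [List.mem_ofFn'] at hx
      obtain ⟨i, rfl⟩ := hx
      exact hg i
    · rw [List.length_ofFn, hdim]
      omega
  obtain ⟨y, hy, hyq⟩ := exists_reg_mod hqsat
  have hpprime : p.IsPrime := hp.isPrime
  obtain ⟨_, c0, hc0⟩ := isAssociatedPrime_iff.1 (AssociatedPrimes.mem_iff.1 hp)
  obtain ⟨c0, rfl⟩ := Ideal.Quotient.mk_surjective c0
  have hpc : ∀ r, r ∈ p ↔ r * c0 ∈ q := by
    intro r
    rw [hc0, Submodule.mem_colon_singleton, Submodule.mem_bot, ← Ideal.Quotient.mk_eq_mk,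
      ← Submodule.Quotient.mk_smul, Ideal.Quotient.mk_eq_mk, Ideal.Quotient.eq_zero_iff_mem]
    rfl
  have hc0q : c0 ∉ q := by
    intro h
    apply hpprime.ne_top
    rw [Ideal.eq_top_iff_one, hpc, one_mul]
    exact h
  have hyp : y ∉ p := by
    intro h
    rw [hpc] at h
    exact hc0q (hyq _ h)
  set q' := q ⊔ Ideal.span {y} with hq'
  have hq'sat : ∀ a, (∀ r ∈ maximalIdeal P, r * a ∈ q') → a ∈ q' := by
    intro a ha
    have hl : Ideal.ofList (List.ofFn g ++ [y]) = q' := by
      rw [Ideal.ofList_append, ofList_ofFn, Ideal.ofList_singleton]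
    rw [← hl] at ha ⊢
    apply mem_of_soc (gs := List.ofFn g ++ [y]) _ _ _ ha
    · intro x hx
      rw [List.mem_append, List.mem_ofFn', List.mem_singleton] at hx
      rcases hx with ⟨i, rfl⟩ | rfl
      · exact hg i
      · exact hy
    · rw [isWeaklyRegular_append_iff, isWeaklyRegular_singleton_iff, ofList_ofFn, regular_mod]
      exact ⟨hreg, hyq⟩
    · simp [hdim]
      omega
  -- an element of the colon ideal outside of `q'`
  have hex : ∃ c, (∀ r ∈ p, r * c ∈ q) ∧ c ∉ q' := by
    by_contra hcon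
    push Not at hcon
    let N := colonIdeal q p
    have hN : ∀ c, c ∈ N ↔ ∀ r ∈ p, r * c ∈ q := by
      intro c
      rw [mem_colonIdeal]
      constructor
      · intro h r hr
        rw [mul_comm]
        exact h r hr
      · intro h r hr
        rw [mul_comm]
        exact h r hr
    have hNle : N ≤ q := by
      apply Submodule.le_of_le_smul_of_le_jacobson_bot (I := maximalIdeal P)
        (IsNoetherian.noetherian _)
      · rw [IsLocalRing.jacobson_eq_maximalIdeal _ bot_ne_top]
      · intro c hc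
        obtain ⟨z1, hz1, z2, hz2, rfl⟩ := Submodule.mem_sup.1 (hcon c ((hN c).1 hc))
        obtain ⟨d, rfl⟩ := Ideal.mem_span_singleton.1 hz2
        have hd : d ∈ N := by
          rw [hN]
          intro r hr
          apply hyq
          have h1 := (hN _).1 hc r hr
          have h2 : y * (r * d) = r * (z1 + y * d) - r * z1 := by ring
          rw [h2]
          exact q.sub_mem h1 (q.mul_mem_left _ hz1)
        exact Submodule.add_mem_sup hz1 (Submodule.smul_mem_smul hy hd)
    exact hc0q (hNle ((hN c0).2 fun r hr => (hpc r).1 hr))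
  obtain ⟨c, hcp, hcq'⟩ := hex
  apply hcq'
  -- `p + (y)` is primary to the maximal ideal
  have hrad : maximalIdeal P ≤ (p ⊔ Ideal.span {y}).radical := by
    rw [Ideal.radical_eq_sInf]
    apply le_sInf
    rintro p' ⟨hle, hp'⟩
    have hlt : p < p' := by
      refine lt_of_le_of_ne (le_sup_left.trans hle) ?_
      rintro rfl
      exact hyp (hle (Ideal.mem_sup_right (Ideal.mem_span_singleton_self y)))
    rw [hprime p p' hpprime hp' hJp hlt]
  obtain ⟨k, hk⟩ := Ideal.exists_radical_pow_le_of_fg (p ⊔ Ideal.span {y})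
    (IsNoetherian.noetherian _)
  apply pow_sat hq'sat k
  intro r hr
  have h1 : r ∈ p ⊔ Ideal.span {y} := hk (Ideal.pow_right_mono hrad k hr)
  obtain ⟨z1, hz1, z2, hz2, rfl⟩ := Submodule.mem_sup.1 h1
  obtain ⟨d, rfl⟩ := Ideal.mem_span_singleton.1 hz2
  rw [add_mul]
  apply q'.add_mem (Ideal.mem_sup_left (hcp z1 hz1))
  apply Ideal.mem_sup_right
  rw [mul_assoc]
  exact Ideal.mul_mem_right _ _ (Ideal.mem_span_singleton_self y)

theorem exists_good_aux {m : ℕ} (hdim : (maximalIdeal P).spanFinrank = m + 1)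
    (f : Fin (m + 1) → P) (hf : ∀ i, f i ∈ maximalIdeal P)
    (hprime : ∀ p p' : Ideal P, p.IsPrime → p'.IsPrime → Ideal.span (Set.range f) ≤ p → p < p' →
      p' = maximalIdeal P) (j : ℕ) (hj : j ≤ m) :
    ∃ g : Fin j → P, (∀ i, g i ∈ maximalIdeal P) ∧ IsWeaklyRegular P (List.ofFn g) ∧
      Ideal.span (Set.range g) ⊔ Ideal.span (f '' {i | j ≤ (i : ℕ)}) =
        Ideal.span (Set.range f) := by
  induction j with
  | zero =>
    refine ⟨fun i => i.elim0, fun i => i.elim0, ?_, ?_⟩
    · rw [List.ofFn_zero]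
      exact IsWeaklyRegular.nil P P
    · simp
  | succ j ih =>
    obtain ⟨g, hg, hreg, hspan⟩ := ih (by omega)
    let i0 : Fin (m + 1) := ⟨j, by omega⟩
    set A := Ideal.span (f '' {i | j + 1 ≤ (i : ℕ)}) with hA
    have hset : f '' {i | j ≤ (i : ℕ)} = insert (f i0) (f '' {i | j + 1 ≤ (i : ℕ)}) := by
      rw [← Set.image_insert_eq]
      congr 1
      ext i
      simp only [Set.mem_ofPred_eq, Set.mem_insert_iff, Fin.ext_iff, i0]
      omega
    have hspan2 : Ideal.span (Set.range g) ⊔ (Ideal.span {f i0} ⊔ A) =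
        Ideal.span (Set.range f) := by
      rw [← hspan, hset, Ideal.span_insert]
    obtain ⟨c, hcA, hc⟩ := coset_avoid (associatedPrimes.finite P
      (P ⧸ Ideal.span (Set.range g))) (fun p hp => hp.isPrime) (f i0) A (by
        intro p hp hx hAp
        apply not_le_of_ass hdim (by omega : j < m) g hg hreg hprime hp
        rw [← hspan2]
        refine sup_le ?_ (sup_le ?_ hAp)
        · intro x hx'
          obtain ⟨_, c0, hc0⟩ := isAssociatedPrime_iff.1 (AssociatedPrimes.mem_iff.1 hp)
          obtain ⟨c0, rfl⟩ := Ideal.Quotient.mk_surjective c0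
          rw [hc0, Submodule.mem_colon_singleton, Submodule.mem_bot, ← Ideal.Quotient.mk_eq_mk,
            ← Submodule.Quotient.mk_smul, Ideal.Quotient.mk_eq_mk,
            Ideal.Quotient.eq_zero_iff_mem, smul_eq_mul]
          exact Ideal.mul_mem_right _ _ hx'
        · rw [Ideal.span_singleton_le_iff_mem]
          exact hx)
    have hreg2 : ∀ a, (f i0 + c) * a ∈ Ideal.span (Set.range g) →
        a ∈ Ideal.span (Set.range g) := by
      intro a ha
      by_contra hna
      have hx0 : (Ideal.Quotient.mk (Ideal.span (Set.range g)) a : P ⧸ _) ≠ 0 := by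
        rw [Ne, Ideal.Quotient.eq_zero_iff_mem]
        exact hna
      obtain ⟨p, hpass, hple⟩ := exists_le_isAssociatedPrime_of_isNoetherianRing P
        (Ideal.Quotient.mk (Ideal.span (Set.range g)) a : P ⧸ _) hx0
      apply hc p hpass
      apply hple
      rw [Submodule.mem_colon_singleton, Submodule.mem_bot, ← Ideal.Quotient.mk_eq_mk,
        ← Submodule.Quotient.mk_smul, Ideal.Quotient.mk_eq_mk, Ideal.Quotient.eq_zero_iff_mem]
      exact ha
    refine ⟨Fin.snoc (α := fun _ => P) g (f i0 + c), ?_, ?_, ?_⟩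
    · intro i
      refine Fin.lastCases ?_ (fun i => ?_) i
      · rw [Fin.snoc_last]
        apply Ideal.add_mem _ (hf i0)
        have : A ≤ maximalIdeal P := by
          rw [hA, Ideal.span_le]
          rintro x ⟨i, -, rfl⟩
          exact hf i
        exact this hcA
      · rw [Fin.snoc_castSucc]
        exact hg i
    · rw [isWeaklyRegular_ofFn_succ]
      simp only [Fin.snoc_castSucc, Fin.snoc_last]
      exact ⟨hreg, hreg2⟩
    · have hr : Set.range (Fin.snoc (α := fun _ => P) g (f i0 + c)) =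
          insert (f i0 + c) (Set.range g) := by
        ext x
        constructor
        · rintro ⟨i, rfl⟩
          refine Fin.lastCases ?_ (fun i => ?_) i
          · rw [Fin.snoc_last]
            exact Set.mem_insert _ _
          · rw [Fin.snoc_castSucc]
            exact Set.mem_insert_of_mem _ ⟨i, rfl⟩
        · rintro (rfl | ⟨i, rfl⟩)
          · exact ⟨Fin.last j, by rw [Fin.snoc_last]⟩
          · exact ⟨i.castSucc, by rw [Fin.snoc_castSucc]⟩
      rw [hr, Ideal.span_insert, ← hspan2, sup_comm (Ideal.span {f i0 + c}), sup_assoc]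
      congr 1
      apply le_antisymm
      · refine sup_le ?_ le_sup_right
        rw [Ideal.span_singleton_le_iff_mem]
        exact Ideal.add_mem _ (Ideal.mem_sup_left (Ideal.mem_span_singleton_self _))
          (Ideal.mem_sup_right hcA)
      · refine sup_le ?_ le_sup_right
        rw [Ideal.span_singleton_le_iff_mem]
        have h1 : f i0 = (f i0 + c) - c := by ring
        rw [h1]
        exact Ideal.sub_mem _ (Ideal.mem_sup_left (by
          rw [add_sub_cancel_right]
          exact Ideal.mem_span_singleton_self _))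
          (Ideal.mem_sup_right hcA)

/-- `J` is generated by a regular sequence of length `n-1` and one more element. -/
theorem exists_good {m : ℕ} (hdim : (maximalIdeal P).spanFinrank = m + 1)
    (f : Fin (m + 1) → P) (hf : ∀ i, f i ∈ maximalIdeal P)
    (hprime : ∀ p p' : Ideal P, p.IsPrime → p'.IsPrime → Ideal.span (Set.range f) ≤ p → p < p' →
      p' = maximalIdeal P) :
    ∃ (g : Fin m → P) (h : P), (∀ i, g i ∈ maximalIdeal P) ∧ h ∈ maximalIdeal P ∧
      IsWeaklyRegular P (List.ofFn g) ∧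
      Ideal.span (Set.range g) ⊔ Ideal.span {h} = Ideal.span (Set.range f) := by
  obtain ⟨g, hg, hreg, hspan⟩ := exists_good_aux hdim f hf hprime m le_rfl
  refine ⟨g, f (Fin.last m), hg, hf _, hreg, ?_⟩
  rw [← hspan]
  congr 2
  have : {i : Fin (m + 1) | m ≤ (i : ℕ)} = {Fin.last m} := by
    ext i
    simp only [Set.mem_ofPred_eq, Set.mem_singleton_iff, Fin.ext_iff, Fin.val_last]
    omega
  rw [this, Set.image_singleton]

end

end Pool.Agent.Lib.MP_1ce8ed_ag
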