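import Mathlib
import Pool.Agent.Lib.MP_1ce8ed_ag.Gen

/-!
The Koszul extension class of a regular sequence and the Rees isomorphism.
-/

namespace Pool.Agent.Lib.MP_1ce8ed_ag

open IsLocalRing CategoryTheory Abelian RingTheory.Sequence Pointwise

universe u

section

variable {P : Type u} [CommRing P]

/-- The class in `Ext¹(M/xM, M)` of the extension `0 → M → M → M/xM → 0` given by
multiplication by `x`. -/
noncomputable def smulClass (x : P) (M : Type u) [AddCommGroup M] [Module P M]
    (hxM : IsSMulRegular M x) :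
    Ext (ModuleCat.of P (QuotSMulTop x M)) (ModuleCat.of P M) 1 :=
  (IsSMulRegular.smulShortComplex_shortExact (M := ModuleCat.of P M) hxM).extClass

theorem smulClass_comp (x : P) (M : Type u) [AddCommGroup M] [Module P M]
    (hxM : IsSMulRegular M x) :
    (smulClass x M hxM).comp (Ext.mk₀ (x • 𝟙 (ModuleCat.of P M))) (add_zero 1) = 0 :=
  (IsSMulRegular.smulShortComplex_shortExact (M := ModuleCat.of P M) hxM).extClass_comp

theorem smulClass_exact₃ (N : ModuleCat.{u} P) (x : P) (M : Type u) [AddCommGroup M] [Module P M]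
    (hxM : IsSMulRegular M x) {i j : ℕ} (hij : i + 1 = j)
    (α : Ext N (ModuleCat.of P (QuotSMulTop x M)) i)
    (h : α.comp (smulClass x M hxM) hij = 0) :
    ∃ β : Ext N (ModuleCat.of P M) i,
      β.comp (Ext.mk₀ (ModuleCat.ofHom (Submodule.mkQ (x • (⊤ : Submodule P M)))))
        (add_zero i) = α :=
  Ext.covariant_sequence_exact₃ N
    (IsSMulRegular.smulShortComplex_shortExact (M := ModuleCat.of P M) hxM) α hij h

theorem smulClass_exact₁ (N : ModuleCat.{u} P) (x : P) (M : Type u) [AddCommGroup M] [Module P M]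
    (hxM : IsSMulRegular M x) {i j : ℕ} (hij : i + 1 = j)
    (γ : Ext N (ModuleCat.of P M) j)
    (h : γ.comp (Ext.mk₀ (x • 𝟙 (ModuleCat.of P M))) (add_zero j) = 0) :
    ∃ α : Ext N (ModuleCat.of P (QuotSMulTop x M)) i, α.comp (smulClass x M hxM) hij = γ :=
  Ext.covariant_sequence_exact₁ N
    (IsSMulRegular.smulShortComplex_shortExact (M := ModuleCat.of P M) hxM) γ h hij

/-- The class of the iterated extension
`0 → M → M → M/r₁M → 0`, `0 → M/r₁M → M/r₁M → M/(r₁,r₂)M → 0`, ...
attached to a weakly regular sequence. -/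
noncomputable def koszulClass : ∀ (rs : List P) (M : Type u) [AddCommGroup M] [Module P M],
    IsWeaklyRegular M rs →
    Ext (ModuleCat.of P (M ⧸ (Ideal.ofList rs • ⊤ : Submodule P M))) (ModuleCat.of P M) rs.length
  | [], _, _, _, _ => Ext.mk₀ (ModuleCat.ofHom (Submodule.quotEquivOfEqBot _ (by
      rw [Ideal.ofList_nil, Submodule.bot_smul])).toLinearMap)
  | x :: rs, M, _, _, h =>
      (Ext.mk₀ (ModuleCat.ofHom
        (Submodule.quotOfListConsSMulTopEquivQuotSMulTopInner M x rs).toLinearMap)).comp
        ((koszulClass rs (QuotSMulTop x M) ((isWeaklyRegular_cons_iff M x rs).1 h).2).comp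
          (smulClass x M ((isWeaklyRegular_cons_iff M x rs).1 h).1) rfl) (zero_add _)

theorem smul_ext_eq_zero' {x : P} (N : ModuleCat.{u} P) (hx : x ∈ Module.annihilator P N)
    (M : ModuleCat.{u} P) (i : ℕ) (γ : Ext N M i) : x • γ = 0 := by
  have h0 : x • 𝟙 N = 0 := by
    apply ModuleCat.hom_ext
    apply LinearMap.ext
    intro a
    exact Module.mem_annihilator.1 hx a
  have h1 : x • γ = (Ext.mk₀ (x • 𝟙 N)).comp γ (zero_add i) := by
    simp [Ext.mk₀_smul]
  rw [h1, h0, Ext.mk₀_zero, Ext.zero_comp]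

/-- The connecting map `Ext^i(N, M/xM) → Ext^{i+1}(N, M)` is bijective. -/
theorem ext_quot_bij (N : ModuleCat.{u} P) {x : P} (hx : x ∈ Module.annihilator P N)
    (M : Type u) [AddCommGroup M] [Module P M] (hxM : IsSMulRegular M x) (i j : ℕ)
    (hij : i + 1 = j) (h0 : Subsingleton (Ext N (ModuleCat.of P M) i)) :
    Function.Bijective (fun α : Ext N (ModuleCat.of P (QuotSMulTop x M)) i =>
      α.comp (smulClass x M hxM) hij) := by
  constructor
  · intro α α' hα
    have h1 : (α - α').comp (smulClass x M hxM) hij = 0 := by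
      rw [sub_eq_add_neg, Ext.add_comp, Ext.neg_comp, ← sub_eq_add_neg]
      exact sub_eq_zero.2 hα
    obtain ⟨β, hβ⟩ := smulClass_exact₃ N x M hxM hij (α - α') h1
    have h3 : β = 0 := Subsingleton.elim _ _
    rw [h3, Ext.zero_comp] at hβ
    exact sub_eq_zero.1 hβ.symm
  · intro γ
    exact smulClass_exact₁ N x M hxM hij γ (by
      rw [← Ext.smul_eq_comp_mk₀]
      exact smul_ext_eq_zero' N hx _ _ γ)

/-- Composition with an isomorphism is bijective. -/
theorem ext_equiv_bij (N : ModuleCat.{u} P) {M M' : Type u} [AddCommGroup M] [Module P M]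
    [AddCommGroup M'] [Module P M'] (e : M ≃ₗ[P] M') (i : ℕ) :
    Function.Bijective (fun α : Ext N (ModuleCat.of P M) i =>
      α.comp (Ext.mk₀ (ModuleCat.ofHom e.toLinearMap)) (add_zero i)) := by
  have h1 : ModuleCat.ofHom e.toLinearMap ≫ ModuleCat.ofHom e.symm.toLinearMap =
      𝟙 (ModuleCat.of P M) := by
    ext a
    exact e.symm_apply_apply a
  have h2 : ModuleCat.ofHom e.symm.toLinearMap ≫ ModuleCat.ofHom e.toLinearMap =
      𝟙 (ModuleCat.of P M') := by
    ext a
    exact e.apply_symm_apply a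
  refine Function.bijective_iff_has_inverse.2
    ⟨fun α => α.comp (Ext.mk₀ (ModuleCat.ofHom e.symm.toLinearMap)) (add_zero i), ?_, ?_⟩
  · intro α
    simp [h1]
  · intro α
    simp [h2]

theorem ext_quot_sub' (N : ModuleCat.{u} P) {x : P} (hx : x ∈ Module.annihilator P N)
    (M : Type u) [AddCommGroup M] [Module P M] (hxM : IsSMulRegular M x) (i : ℕ)
    (h0 : Subsingleton (Ext N (ModuleCat.of P M) i))
    (h1 : Subsingleton (Ext N (ModuleCat.of P M) (i + 1))) :
    Subsingleton (Ext N (ModuleCat.of P (QuotSMulTop x M)) i) :=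
  (ext_quot_bij N hx M hxM i (i + 1) rfl h0).1.subsingleton

/-- The Rees isomorphism `Ext^i(N, M/(rs)M) → Ext^{i+r}(N, M)`, given by the Koszul class. -/
theorem koszul_bij (N : ModuleCat.{u} P) (rs : List P) : ∀ (M : Type u) [AddCommGroup M]
    [Module P M] (_ : ∀ r ∈ rs, r ∈ Module.annihilator P N) (hreg : IsWeaklyRegular M rs)
    (i j : ℕ) (hij : i + rs.length = j)
    (_ : ∀ l < j, Subsingleton (Ext N (ModuleCat.of P M) l)),
    Function.Bijective
      (fun α : Ext N (ModuleCat.of P (M ⧸ (Ideal.ofList rs • ⊤ : Submodule P M))) i =>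
        α.comp (koszulClass rs M hreg) hij) := by
  induction rs with
  | nil =>
    intro M _ _ _ hreg i j hij _
    have hij' : i = j := hij
    subst hij'
    exact ext_equiv_bij N (Submodule.quotEquivOfEqBot _ (by
      rw [Ideal.ofList_nil, Submodule.bot_smul])) i
  | cons x rs ih =>
    intro M _ _ hann hreg i j hij hvan
    have hreg' := (isWeaklyRegular_cons_iff M x rs).1 hreg
    have hx := hann x List.mem_cons_self
    have hij' : i + rs.length + 1 = j := hij
    have hlt : i + rs.length < j := by omega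
    have b1 := ext_equiv_bij N (Submodule.quotOfListConsSMulTopEquivQuotSMulTopInner M x rs) i
    have b2 := ih (QuotSMulTop x M) (fun r hr => hann r (List.mem_cons_of_mem _ hr)) hreg'.2 i
      (i + rs.length) rfl (fun l hl => ext_quot_sub' N hx M hreg'.1 l (hvan l (by omega))
        (hvan (l + 1) (by omega)))
    have b3 := ext_quot_bij N hx M hreg'.1 (i + rs.length) j hij' (hvan (i + rs.length) hlt)
    have b4 := b3.comp (b2.comp b1)
    have heq : (fun α : Ext N (ModuleCat.of P
        (M ⧸ (Ideal.ofList (x :: rs) • ⊤ : Submodule P M))) i =>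
        α.comp (koszulClass (x :: rs) M hreg) hij) =
        (fun α => α.comp (smulClass x M hreg'.1) hij') ∘
        (fun α => α.comp (koszulClass rs (QuotSMulTop x M) hreg'.2) rfl) ∘
        (fun α => α.comp (Ext.mk₀ (ModuleCat.ofHom
          (Submodule.quotOfListConsSMulTopEquivQuotSMulTopInner M x rs).toLinearMap))
          (add_zero i)) := by
      funext α
      show α.comp ((Ext.mk₀ _).comp ((koszulClass rs (QuotSMulTop x M) hreg'.2).comp
        (smulClass x M hreg'.1) rfl) (zero_add _)) hij =
        ((α.comp (Ext.mk₀ _) (add_zero i)).comp (koszulClass rs (QuotSMulTop x M) hreg'.2)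
          rfl).comp (smulClass x M hreg'.1) hij'
      rw [← Ext.comp_assoc_of_second_deg_zero]
      symm
      apply Ext.comp_assoc
      omega
    rw [heq]
    exact b4

end

end Pool.Agent.Lib.MP_1ce8ed_ag
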