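import Mathlib
import Pool.Agent.Lib.MP_1ce8ed_ag.Kos

/-!
The map `κ : I/J → Extⁿ(I/J, P)` and the main computation.
-/

namespace Pool.Agent.Lib.MP_1ce8ed_ag

open IsLocalRing CategoryTheory Abelian RingTheory.Sequence Pointwise

universe u

section defs

variable {P : Type u} [CommRing P]

/-- The `P`-module `I/J` (for `J ⊆ I`). -/
abbrev IJ (I J : Ideal P) : Type u := ↥I ⧸ Submodule.comap (Submodule.subtype I) J

/-- The inclusion `I/J → P/J`. -/
noncomputable def incl (I J : Ideal P) : IJ I J →ₗ[P] P ⧸ J :=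
  Submodule.mapQ _ J (Submodule.subtype I) le_rfl

/-- The short complex `0 → J/q → P/q → P/J → 0`. -/
noncomputable def seqJ {q J : Ideal P} (hqJ : q ≤ J) : ShortComplex (ModuleCat.{u} P) :=
  ModuleCat.shortComplexOfCompEqZero (Submodule.subtype (Submodule.map q.mkQ J))
    (Submodule.factor hqJ) (by
      apply LinearMap.ext
      rintro ⟨_, ⟨x, hx, rfl⟩⟩
      exact (Submodule.Quotient.mk_eq_zero _).2 hx)

theorem seqJ_exact {q J : Ideal P} (hqJ : q ≤ J) : (seqJ hqJ).ShortExact := by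
  apply ModuleCat.shortComplex_shortExact
  · intro x
    obtain ⟨x, rfl⟩ := Submodule.Quotient.mk_surjective _ x
    constructor
    · intro hx
      have hx' : (Submodule.Quotient.mk x : P ⧸ J) = 0 := hx
      rw [Submodule.Quotient.mk_eq_zero] at hx'
      exact ⟨⟨Submodule.Quotient.mk x, ⟨x, hx', rfl⟩⟩, rfl⟩
    · rintro ⟨⟨_, ⟨y, hy, rfl⟩⟩, hyx⟩
      rw [← hyx]
      exact (Submodule.Quotient.mk_eq_zero _).2 hy
  · exact Submodule.injective_subtype _
  · exact Submodule.factor_surjective hqJ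

/-- The class in `Ext¹(P/J, J/q)` of `0 → J/q → P/q → P/J → 0`. -/
noncomputable def clsJ {q J : Ideal P} (hqJ : q ≤ J) :
    Ext (ModuleCat.of P (P ⧸ J)) (ModuleCat.of P ↥(Submodule.map q.mkQ J)) 1 :=
  (seqJ_exact hqJ).extClass

/-- The class in `Ext^{m+1}(I/J, P)` attached to a homomorphism `λ : J/q → P/q` and a class
`E ∈ Ext^m(P/q, P)`: the Yoneda product of the inclusion `I/J → P/J`, the class of
`0 → J/q → P/q → P/J → 0`, `λ` and `E`. -/
noncomputable def kap {q J : Ideal P} (hqJ : q ≤ J) (I : Ideal P)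
    (lam : ↥(Submodule.map q.mkQ J) →ₗ[P] P ⧸ q) {m : ℕ}
    (E : Ext (ModuleCat.of P (P ⧸ q)) (ModuleCat.of P P) m) :
    Ext (ModuleCat.of P (IJ I J)) (ModuleCat.of P P) (m + 1) :=
  (Ext.mk₀ (ModuleCat.ofHom (incl I J))).comp
    ((clsJ hqJ).comp ((Ext.mk₀ (ModuleCat.ofHom lam)).comp E (zero_add m))
      (add_comm 1 m)) (zero_add (m + 1))

/-- The homomorphism `P/b → N`, `1 ↦ a`, for an element `a` killed by the ideal `b`. -/
noncomputable def ev {N : Type u} [AddCommGroup N] [Module P N] (b : Ideal P) (a : N)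
    (h : ∀ r ∈ b, r • a = 0) : P ⧸ b →ₗ[P] N :=
  Submodule.liftQ b (LinearMap.toSpanSingleton P N a) (by
    intro r hr
    rw [LinearMap.mem_ker, LinearMap.toSpanSingleton_apply]
    exact h r hr)

theorem ev_mk {N : Type u} [AddCommGroup N] [Module P N] (b : Ideal P) (a : N)
    (h : ∀ r ∈ b, r • a = 0) (r : P) : ev b a h (Submodule.Quotient.mk r) = r • a := rfl

/-- An element of `J/q`. -/
noncomputable def mkJ {q J : Ideal P} (x : P) (hx : x ∈ J) : ↥(Submodule.map q.mkQ J) :=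
  ⟨Submodule.Quotient.mk x, ⟨x, hx, rfl⟩⟩

theorem kap_zero {q J : Ideal P} (hqJ : q ≤ J) (I : Ideal P) {m : ℕ}
    (E : Ext (ModuleCat.of P (P ⧸ q)) (ModuleCat.of P P) m) : kap hqJ I 0 E = 0 := by
  unfold kap
  have : ModuleCat.ofHom (0 : ↥(Submodule.map q.mkQ J) →ₗ[P] P ⧸ q) = 0 := rfl
  rw [this, Ext.mk₀_zero]
  simp

theorem kap_add {q J : Ideal P} (hqJ : q ≤ J) (I : Ideal P)
    (l₁ l₂ : ↥(Submodule.map q.mkQ J) →ₗ[P] P ⧸ q) {m : ℕ}
    (E : Ext (ModuleCat.of P (P ⧸ q)) (ModuleCat.of P P) m) :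
    kap hqJ I (l₁ + l₂) E = kap hqJ I l₁ E + kap hqJ I l₂ E := by
  unfold kap
  have : ModuleCat.ofHom (l₁ + l₂) = ModuleCat.ofHom l₁ + ModuleCat.ofHom l₂ := rfl
  rw [this, Ext.mk₀_add]
  simp

theorem kap_smul {q J : Ideal P} (hqJ : q ≤ J) (I : Ideal P) (r : P)
    (l : ↥(Submodule.map q.mkQ J) →ₗ[P] P ⧸ q) {m : ℕ}
    (E : Ext (ModuleCat.of P (P ⧸ q)) (ModuleCat.of P P) m) :
    kap hqJ I (r • l) E = r • kap hqJ I l E := by
  unfold kap
  have : ModuleCat.ofHom (r • l) = r • ModuleCat.ofHom l := rfl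
  rw [this, Ext.mk₀_smul]
  simp

/-- The class attached to the inclusion is zero. -/
theorem kap_subtype {q J : Ideal P} (hqJ : q ≤ J) (I : Ideal P) {m : ℕ}
    (E : Ext (ModuleCat.of P (P ⧸ q)) (ModuleCat.of P P) m) :
    kap hqJ I (Submodule.subtype _) E = 0 := by
  unfold kap
  have : (clsJ hqJ).comp ((Ext.mk₀ (ModuleCat.ofHom
      (Submodule.subtype (Submodule.map q.mkQ J)))).comp E (zero_add m)) (add_comm 1 m) = 0 :=
    (seqJ_exact hqJ).extClass_comp_assoc E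
  rw [this, Ext.comp_zero]

theorem kap_smul_right {q J : Ideal P} (hqJ : q ≤ J) (I : Ideal P) (r : P)
    (l : ↥(Submodule.map q.mkQ J) →ₗ[P] P ⧸ q) {m : ℕ}
    (E : Ext (ModuleCat.of P (P ⧸ q)) (ModuleCat.of P P) m) :
    kap hqJ I l (r • E) = r • kap hqJ I l E := by
  unfold kap
  simp

/-- The map `P/q → J/q`, `1 ↦ h α`. -/
noncomputable def mor₁ {q J : Ideal P} {h : P} (α : P) (hh : h ∈ J) :
    P ⧸ q →ₗ[P] ↥(Submodule.map q.mkQ J) :=
  Submodule.liftQ q (LinearMap.toSpanSingleton P _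
    (mkJ (q := q) (h * α) (J.mul_mem_right _ hh))) (by
      intro r hr
      rw [LinearMap.mem_ker, LinearMap.toSpanSingleton_apply]
      apply Subtype.ext
      show (Submodule.Quotient.mk (r • (h * α)) : P ⧸ q) = 0
      rw [Submodule.Quotient.mk_eq_zero]
      exact q.mul_mem_right _ hr)

/-- The map `P/(q,s) → P/J`, `1 ↦ a`. -/
noncomputable def mor₃ {q J : Ideal P} (hqJ : q ≤ J) {h s a α : P} (hh : h ∈ J)
    (hsa : s * a - h * α ∈ q) : QuotSMulTop s (P ⧸ q) →ₗ[P] P ⧸ J :=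
  Submodule.liftQ _ (Submodule.liftQ q
    (LinearMap.toSpanSingleton P (P ⧸ J) (Submodule.Quotient.mk a)) (by
      intro r hr
      rw [LinearMap.mem_ker, LinearMap.toSpanSingleton_apply, ← Submodule.Quotient.mk_smul,
        Submodule.Quotient.mk_eq_zero]
      exact J.mul_mem_right _ (hqJ hr))) (by
      rintro _ ⟨x, -, rfl⟩
      obtain ⟨x, rfl⟩ := Submodule.Quotient.mk_surjective _ x
      rw [LinearMap.mem_ker]
      show (Submodule.Quotient.mk ((s * x) • a) : P ⧸ J) = 0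
      rw [Submodule.Quotient.mk_eq_zero, smul_eq_mul]
      have h1 : s * a ∈ J := by
        have := J.add_mem (hqJ hsa) (J.mul_mem_right α hh)
        rwa [sub_add_cancel] at this
      have h2 : s * x * a = x * (s * a) := by ring
      rw [h2]
      exact J.mul_mem_left _ h1)

/-- The morphism from `0 → P/q → P/q → P/(q,s) → 0` to `0 → J/q → P/q → P/J → 0`. -/
noncomputable def mor {q J : Ideal P} (hqJ : q ≤ J) {h s a α : P} (hh : h ∈ J)
    (hsa : s * a - h * α ∈ q) :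
    ModuleCat.smulShortComplex (ModuleCat.of P (P ⧸ q)) s ⟶ seqJ hqJ where
  τ₁ := ModuleCat.ofHom (mor₁ α hh)
  τ₂ := a • 𝟙 (ModuleCat.of P (P ⧸ q))
  τ₃ := ModuleCat.ofHom (mor₃ hqJ hh hsa)
  comm₁₂ := by
    apply ModuleCat.hom_ext
    apply LinearMap.ext
    intro x
    obtain ⟨x, rfl⟩ := Submodule.Quotient.mk_surjective _ x
    show (Submodule.Quotient.mk (x • (h * α)) : P ⧸ q) = Submodule.Quotient.mk (a • (s • x))
    rw [Submodule.Quotient.eq]
    have : x • (h * α) - a • (s • x) = (-x) * (s * a - h * α) := by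
      simp only [smul_eq_mul]
      ring
    rw [this]
    exact q.mul_mem_left _ hsa
  comm₂₃ := by
    apply ModuleCat.hom_ext
    apply LinearMap.ext
    intro x
    obtain ⟨x, rfl⟩ := Submodule.Quotient.mk_surjective _ x
    show (Submodule.Quotient.mk (a • x) : P ⧸ J) = Submodule.Quotient.mk (x • a)
    rw [smul_eq_mul, smul_eq_mul, mul_comm]

theorem mor_nat {q J : Ideal P} (hqJ : q ≤ J) {h s a α : P} (hh : h ∈ J)
    (hreg : IsSMulRegular (P ⧸ q) s) (hsa : s * a - h * α ∈ q) :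
    (smulClass s (P ⧸ q) hreg).comp (Ext.mk₀ (ModuleCat.ofHom (mor₁ (q := q) α hh))) (add_zero 1) =
      (Ext.mk₀ (ModuleCat.ofHom (mor₃ hqJ hh hsa))).comp (clsJ hqJ) (zero_add 1) :=
  ShortComplex.ShortExact.extClass_naturality
    (IsSMulRegular.smulShortComplex_shortExact (M := ModuleCat.of P (P ⧸ q)) hreg)
    (seqJ_exact hqJ) (mor hqJ hh hsa)

/-- `P/b → P/(q,s)` for `b ⊆ (q,s)`. -/
noncomputable def rho {q b : Ideal P} {s : P} (hb : b ≤ q ⊔ Ideal.span {s}) :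
    P ⧸ b →ₗ[P] QuotSMulTop s (P ⧸ q) :=
  ev b (Submodule.Quotient.mk (Submodule.Quotient.mk 1)) (by
    intro r hr
    rw [← Submodule.Quotient.mk_smul, ← Submodule.Quotient.mk_smul, smul_eq_mul, mul_one,
      Submodule.Quotient.mk_eq_zero]
    obtain ⟨y, hy, z, hz, rfl⟩ := Submodule.mem_sup.1 (hb hr)
    obtain ⟨c, rfl⟩ := Ideal.mem_span_singleton.1 hz
    refine ⟨Submodule.Quotient.mk c, trivial, ?_⟩
    show (Submodule.Quotient.mk (s • c) : P ⧸ q) = Submodule.Quotient.mk (y + s * c)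
    rw [Submodule.Quotient.eq, smul_eq_mul]
    have : s * c - (y + s * c) = -y := by ring
    rw [this]
    exact q.neg_mem hy)

theorem main_aux {q J I : Ideal P} (hqJ : q ≤ J) {h s a α b : P} (hh : h ∈ J)
    (hreg : IsSMulRegular (P ⧸ q) s) (haI : a ∈ I)
    (hsa : s * a - h * α ∈ q) (lam : ↥(Submodule.map q.mkQ J) →ₗ[P] P ⧸ q)
    (hlam : lam (mkJ h hh) = Submodule.Quotient.mk b) {m : ℕ}
    (E : Ext (ModuleCat.of P (P ⧸ q)) (ModuleCat.of P P) m) {c : Ideal P}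
    (hc : c ≤ q ⊔ Ideal.span {s})
    (hca : ∀ r ∈ c, r • (Submodule.Quotient.mk (⟨a, haI⟩ : ↥I) : IJ I J) = 0) :
    (Ext.mk₀ (ModuleCat.ofHom (ev c _ hca))).comp (kap hqJ I lam E) (zero_add (m + 1)) =
      (Ext.mk₀ (ModuleCat.ofHom (rho hc))).comp ((smulClass s (P ⧸ q) hreg).comp
        ((Ext.mk₀ ((α * b) • 𝟙 (ModuleCat.of P (P ⧸ q)))).comp E (zero_add m)) (add_comm 1 m))
        (zero_add (m + 1)) := by
  have h1 : ModuleCat.ofHom (ev c _ hca) ≫ ModuleCat.ofHom (incl I J) =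
      ModuleCat.ofHom (rho hc) ≫ ModuleCat.ofHom (mor₃ hqJ hh hsa) := by
    apply ModuleCat.hom_ext
    apply LinearMap.ext
    intro x
    obtain ⟨x, rfl⟩ := Submodule.Quotient.mk_surjective _ x
    show (Submodule.Quotient.mk (x • a) : P ⧸ J) = Submodule.Quotient.mk ((x • 1 : P) • a)
    rw [smul_eq_mul x (1 : P), mul_one]
  have h2 := mor_nat hqJ hh hreg hsa
  have h3 : ModuleCat.ofHom (mor₁ (q := q) α hh) ≫ ModuleCat.ofHom lam =
      (α * b) • 𝟙 (ModuleCat.of P (P ⧸ q)) := by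
    apply ModuleCat.hom_ext
    apply LinearMap.ext
    intro x
    obtain ⟨x, rfl⟩ := Submodule.Quotient.mk_surjective _ x
    show lam (x • mkJ (h * α) _) = (α * b) • (Submodule.Quotient.mk x : P ⧸ q)
    have h4 : (mkJ (h * α) (J.mul_mem_right _ hh) : ↥(Submodule.map q.mkQ J)) =
        α • mkJ h hh := by
      apply Subtype.ext
      show (Submodule.Quotient.mk (h * α) : P ⧸ q) = α • (Submodule.Quotient.mk h : P ⧸ q)
      rw [← Submodule.Quotient.mk_smul, smul_eq_mul, mul_comm]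
    rw [h4, map_smul, map_smul, hlam, ← Submodule.Quotient.mk_smul, ← Submodule.Quotient.mk_smul,
      ← Submodule.Quotient.mk_smul]
    congr 1
    simp only [smul_eq_mul]
    ring
  unfold kap
  rw [Ext.mk₀_comp_mk₀_assoc, h1, ← Ext.mk₀_comp_mk₀_assoc]
  congr 1
  have h5 : ((Ext.mk₀ (ModuleCat.ofHom (mor₃ hqJ hh hsa))).comp ((clsJ hqJ).comp
      ((Ext.mk₀ (ModuleCat.ofHom lam)).comp E (zero_add m)) (add_comm 1 m))
      (zero_add (m + 1))) = ((Ext.mk₀ (ModuleCat.ofHom (mor₃ hqJ hh hsa))).comp (clsJ hqJ)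
        (zero_add 1)).comp ((Ext.mk₀ (ModuleCat.ofHom lam)).comp E (zero_add m))
        (add_comm 1 m) := by
    rw [Ext.comp_assoc]
    omega
  rw [h5, ← h2, Ext.comp_assoc_of_second_deg_zero, Ext.mk₀_comp_mk₀_assoc, h3]

end defs

end Pool.Agent.Lib.MP_1ce8ed_ag
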