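import Mathlib
import Pool.Agent.Lib.MP_1ce8ed_ag.Pair

/-!
The main lemma: the pairing factors over multiplication.
-/

namespace Pool.Agent.Lib.MP_1ce8ed_ag

open IsLocalRing CategoryTheory Abelian RingTheory.Sequence Pointwise

universe u

section

variable {P : Type u} [CommRing P] [IsRegularLocalRing P] {m : ℕ} {g : Fin m → P} {h : P}
  {I : Ideal P}

theorem Setup.krull_snoc (S : Setup g h I) {s : P} (hs : s ∈ maximalIdeal P)
    (hsq : ∀ a, s * a ∈ Ideal.span (Set.range g) → a ∈ Ideal.span (Set.range g)) :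
    Ring.KrullDimLE 0 (P ⧸ (Ideal.span (Set.range g) ⊔ Ideal.span {s})) := by
  set q := Ideal.span (Set.range g) with hq
  set a := q ⊔ Ideal.span {s} with ha
  have hreg : IsRegular P (List.ofFn g ++ [s]) :=
    IsRegular.of_isWeaklyRegular_of_mem_maximalIdeal (L := P) (S.mem_snoc hs)
      (S.reg_snoc hsq)
  have h1 := ringKrullDim_add_length_eq_ringKrullDim_of_isRegular _ hreg
  rw [ofList_snoc, ← IsRegularLocalRing.spanFinrank_maximalIdeal (R := P), S.dim] at h1
  have h2 : (List.ofFn g ++ [s]).length = m + 1 := by simp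
  rw [h2] at h1
  have h3 : ringKrullDim (P ⧸ a) ≤ 0 := by
    have h4 : ringKrullDim (P ⧸ a) + ((m + 1 : ℕ) : WithBot ℕ∞) ≤
        0 + ((m + 1 : ℕ) : WithBot ℕ∞) := by
      rw [zero_add]
      exact h1.le
    exact ENat.WithBot.add_le_add_natCast_right_iff.1 h4
  rw [Ring.krullDimLE_iff]
  exact_mod_cast h3

theorem Setup.isFiniteLength_snoc (S : Setup g h I) {s : P} (hs : s ∈ maximalIdeal P)
    (hsq : ∀ a, s * a ∈ Ideal.span (Set.range g) → a ∈ Ideal.span (Set.range g)) :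
    IsFiniteLength P (P ⧸ (Ideal.span (Set.range g) ⊔ Ideal.span {s})) := by
  have h4 := S.krull_snoc hs hsq
  have hart : IsArtinianRing (P ⧸ (Ideal.span (Set.range g) ⊔ Ideal.span {s})) :=
    isArtinianRing_iff_isNoetherianRing_krullDimLE_zero.2 ⟨inferInstance, h4⟩
  rw [isFiniteLength_iff_isNoetherian_isArtinian]
  exact ⟨inferInstance, isArtinian_of_surjective_algebraMap
    (Ideal.Quotient.mk_surjective (I := Ideal.span (Set.range g) ⊔ Ideal.span {s}))⟩

theorem exists_pow_le_of_krull {a : Ideal P} (h : Ring.KrullDimLE 0 (P ⧸ a)) :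
    ∃ k, maximalIdeal P ^ k ≤ a := by
  apply Ideal.exists_pow_le_of_le_radical_of_fg
  · rw [Ideal.radical_eq_sInf]
    apply le_sInf
    rintro p ⟨hap, hp⟩
    have hp' : (p.map (Ideal.Quotient.mk a)).IsPrime :=
      Ideal.map_isPrime_of_surjective Ideal.Quotient.mk_surjective (by
        rw [Ideal.mk_ker]
        exact hap)
    have hm : (p.map (Ideal.Quotient.mk a)).IsMaximal :=
      Ring.krullDimLE_zero_iff.1 h _ hp'
    have h2 : (p.map (Ideal.Quotient.mk a)).comap (Ideal.Quotient.mk a) = p := by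
      rw [Ideal.comap_map_of_surjective _ Ideal.Quotient.mk_surjective, ← RingHom.ker_eq_comap_bot,
        Ideal.mk_ker, sup_eq_left]
      exact hap
    have h3 : ((p.map (Ideal.Quotient.mk a)).comap (Ideal.Quotient.mk a)).IsMaximal :=
      Ideal.comap_isMaximal_of_surjective _ Ideal.Quotient.mk_surjective
    rw [h2] at h3
    exact (IsLocalRing.eq_maximalIdeal h3).ge
  · exact IsNoetherian.noetherian _

/-- A parameter `s` that multiplies `I` into `J`. -/
theorem Setup.exists_param (S : Setup g h I) : ∃ s ∈ maximalIdeal P,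
    (∀ a, s * a ∈ Ideal.span (Set.range g) → a ∈ Ideal.span (Set.range g)) ∧
    (∀ a, s * a ∈ I → a ∈ I) ∧
    (∀ a ∈ I, s * a ∈ Ideal.span (Set.range g) ⊔ Ideal.span {h}) ∧
    ∃ k, maximalIdeal P ^ k ≤ Ideal.span (Set.range g) ⊔ Ideal.span {s} := by
  obtain ⟨s, hs, hsq, hsI⟩ := S.exists_s
  obtain ⟨k, hk⟩ := S.pow
  have hmem : s ^ (k + 1) ∈ maximalIdeal P := by
    rw [pow_succ]
    exact Ideal.mul_mem_left _ _ hs
  have hq' : ∀ j : ℕ, ∀ a, s ^ j * a ∈ Ideal.span (Set.range g) → a ∈ Ideal.span (Set.range g) := by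
    intro j
    induction j with
    | zero =>
      intro a ha
      rwa [pow_zero, one_mul] at ha
    | succ j ih =>
      intro a ha
      apply ih
      apply hsq
      rw [← mul_assoc, ← pow_succ']
      exact ha
  have hI' : ∀ j : ℕ, ∀ a, s ^ j * a ∈ I → a ∈ I := by
    intro j
    induction j with
    | zero =>
      intro a ha
      rwa [pow_zero, one_mul] at ha
    | succ j ih =>
      intro a ha
      apply ih
      apply hsI
      rw [← mul_assoc, ← pow_succ']
      exact ha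
  refine ⟨s ^ (k + 1), hmem, hq' _, hI' _, ?_, ?_⟩
  · intro a ha
    apply hk
    apply Ideal.mul_mem_mul _ ha
    rw [pow_succ]
    exact Ideal.mul_mem_right _ _ (Ideal.pow_mem_pow hs k)
  · exact exists_pow_le_of_krull (S.krull_snoc hmem (hq' _))

theorem Setup.hh (_ : Setup g h I) : h ∈ Ideal.span (Set.range g) ⊔ Ideal.span {h} :=
  Ideal.mem_sup_right (Ideal.mem_span_singleton_self h)

theorem isSMulRegular_quot {q : Ideal P} {s : P} (hsq : ∀ a, s * a ∈ q → a ∈ q) :
    IsSMulRegular (P ⧸ q) s := by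
  rw [isSMulRegular_iff_right_eq_zero_of_smul]
  intro x hx
  obtain ⟨x, rfl⟩ := Submodule.Quotient.mk_surjective _ x
  rw [← Submodule.Quotient.mk_smul, Submodule.Quotient.mk_eq_zero] at hx
  rw [Submodule.Quotient.mk_eq_zero]
  exact hsq _ hx

/-- The coefficient `α` with `s a ≡ h α` modulo `q`. -/
theorem exists_alpha {q : Ideal P} {s a : P} (hsa : s * a ∈ q ⊔ Ideal.span {h}) :
    ∃ α, s * a - h * α ∈ q := by
  obtain ⟨y, hy, z, hz, hyz⟩ := Submodule.mem_sup.1 hsa
  obtain ⟨α, rfl⟩ := Ideal.mem_span_singleton.1 hz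
  refine ⟨α, ?_⟩
  rw [← hyz, add_sub_cancel_right]
  exact hy

/-- The main computation. -/
theorem Setup.sum_alpha (S : Setup g h I) {s : P}
    {ι : Type*} (t : Finset ι) (a b α : ι → P) (hb : ∀ i ∈ t, b i ∈ I)
    (hα : ∀ i ∈ t, s * a i - h * α i ∈ Ideal.span (Set.range g))
    (hsum : ∑ i ∈ t, a i * b i ∈ I * (Ideal.span (Set.range g) ⊔ Ideal.span {h})) :
    ∃ d, ∑ i ∈ t, α i * b i - s * d ∈ Ideal.span (Set.range g) := by
  obtain ⟨y, hy, d, hd, e⟩ := mem_mul_sup_iff.1 hsum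
  refine ⟨d, ?_⟩
  apply S.syz
  · apply I.sub_mem _ (I.mul_mem_left _ hd)
    exact I.sum_mem fun i hi => I.mul_mem_left _ (hb i hi)
  · have h1 : h * (∑ i ∈ t, α i * b i - s * d) =
        s * y - ∑ i ∈ t, b i * (s * a i - h * α i) := by
      have h2 : ∑ i ∈ t, b i * (s * a i - h * α i) =
          s * ∑ i ∈ t, a i * b i - h * ∑ i ∈ t, α i * b i := by
        rw [Finset.mul_sum, Finset.mul_sum, ← Finset.sum_sub_distrib]
        refine Finset.sum_congr rfl fun i _ => ?_
        ring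
      rw [h2, e]
      ring
    rw [h1]
    apply Ideal.sub_mem _ (Ideal.mul_mem_left _ _ hy)
    exact Ideal.sum_mem _ fun i hi => Ideal.mul_mem_mul (hb i hi) (hα i hi)

/-- The main lemma. -/
theorem Setup.main (S : Setup g h I)
    (E : Ext (ModuleCat.of P (P ⧸ Ideal.span (Set.range g))) (ModuleCat.of P P) m)
    (lam : P → (↥(Submodule.map (Ideal.span (Set.range g)).mkQ
      (Ideal.span (Set.range g) ⊔ Ideal.span {h})) →ₗ[P] P ⧸ Ideal.span (Set.range g)))
    (hlam : ∀ b ∈ I, lam b (mkJ h S.hh) = Submodule.Quotient.mk b) :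
    ∃ k₁, ∀ k, k₁ ≤ k → ∀ {ι : Type} (t : Finset ι) (a b : ι → P) (ha : ∀ i, a i ∈ I)
      (_ : ∀ i, b i ∈ I)
      (_ : ∑ i ∈ t, a i * b i ∈ I * (Ideal.span (Set.range g) ⊔ Ideal.span {h}))
      (hev : ∀ i, ∀ r ∈ maximalIdeal P ^ k, r • (Submodule.Quotient.mk (⟨a i, ha i⟩ : ↥I) :
        IJ I (Ideal.span (Set.range g) ⊔ Ideal.span {h})) = 0),
      ∑ i ∈ t, (Ext.mk₀ (ModuleCat.ofHom (ev (maximalIdeal P ^ k) _ (hev i)))).comp
        (kap le_sup_left I (lam (b i)) E) (zero_add (m + 1)) = 0 := by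
  obtain ⟨s, hs, hsq, hsI, hsJ, k₁, hk₁⟩ := S.exists_param
  refine ⟨k₁, ?_⟩
  intro k hk ι t a b ha hb hsum hev
  have hreg := isSMulRegular_quot hsq
  have hc : maximalIdeal P ^ k ≤ Ideal.span (Set.range g) ⊔ Ideal.span {s} :=
    (Ideal.pow_le_pow_right hk).trans hk₁
  choose α hα using fun i => exists_alpha (hsJ (a i) (ha i))
  obtain ⟨d, hd⟩ := S.sum_alpha t a b α (fun i _ => hb i) (fun i _ => hα i) hsum
  have h1 : ∀ i ∈ t, (Ext.mk₀ (ModuleCat.ofHom (ev (maximalIdeal P ^ k) _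
      (hev i)))).comp (kap le_sup_left I (lam (b i)) E) (zero_add (m + 1)) =
      (Ext.mk₀ (ModuleCat.ofHom (rho hc))).comp ((smulClass s _ hreg).comp
        ((Ext.mk₀ ((α i * b i) • 𝟙 (ModuleCat.of P (P ⧸ Ideal.span (Set.range g))))).comp E
          (zero_add m)) (add_comm 1 m)) (zero_add (m + 1)) := by
    intro i _
    exact main_aux le_sup_left S.hh hreg (ha i) (hα i) (lam (b i)) (hlam _ (hb i)) E hc (hev i)
  rw [Finset.sum_congr rfl h1]
  have h2 : ∀ i, (Ext.mk₀ (ModuleCat.ofHom (rho hc))).comp ((smulClass s _ hreg).comp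
        ((Ext.mk₀ ((α i * b i) • 𝟙 (ModuleCat.of P (P ⧸ Ideal.span (Set.range g))))).comp E
          (zero_add m)) (add_comm 1 m)) (zero_add (m + 1)) =
      (α i * b i) • (Ext.mk₀ (ModuleCat.ofHom (rho hc))).comp ((smulClass s _ hreg).comp E
        (add_comm 1 m)) (zero_add (m + 1)) := by
    intro i
    rw [Ext.mk₀_smul, Ext.smul_comp, Ext.mk₀_id_comp, Ext.comp_smul, Ext.comp_smul]
  simp_rw [h2]
  rw [← Finset.sum_smul]
  -- the sum is `s d` modulo `q`
  have h3 : (∑ i ∈ t, α i * b i) • E = (s * d) • E := by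
    rw [← sub_eq_zero, ← sub_smul]
    apply smul_ext_eq_zero'
    have h4 : Module.annihilator P (P ⧸ Ideal.span (Set.range g)) = Ideal.span (Set.range g) :=
      Ideal.annihilator_quotient
    exact h4.symm ▸ hd
  have h5 : s • (smulClass s (P ⧸ Ideal.span (Set.range g)) hreg) = 0 := by
    rw [Ext.smul_eq_comp_mk₀]
    exact smulClass_comp s _ hreg
  have h6 : (smulClass s _ hreg).comp (s • E) (add_comm 1 m) = 0 := by
    rw [Ext.comp_smul, ← Ext.smul_comp, h5, Ext.zero_comp]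
  have h7 : (smulClass s _ hreg).comp ((∑ i ∈ t, α i * b i) • E) (add_comm 1 m) = 0 := by
    rw [h3, mul_comm, mul_smul, Ext.comp_smul, h6, smul_zero]
  rw [← Ext.comp_smul, ← Ext.comp_smul, h7, Ext.comp_zero]

end

end Pool.Agent.Lib.MP_1ce8ed_ag
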