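import Mathlib
import Pool.Agent.Lib.MP_1ce8ed_ag.Fac

/-!
The homomorphisms `λ_b : J/q → P/q`, the map `κ : I/J → Ext^{m+1}(I/J, P)` and the functional `β`.
-/

namespace Pool.Agent.Lib.MP_1ce8ed_ag

open IsLocalRing CategoryTheory Abelian RingTheory.Sequence Pointwise

universe u v

section

variable {P : Type u} [CommRing P]

/-- A homomorphism from `J/q` is determined by its value at `h`, if `J = q + (h)`. -/
theorem lam_ext {q : Ideal P} {h : P} {N : Type u} [AddCommGroup N] [Module P N]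
    {l₁ l₂ : ↥(Submodule.map q.mkQ (q ⊔ Ideal.span {h})) →ₗ[P] N}
    (hh : h ∈ q ⊔ Ideal.span {h})
    (heq : l₁ (mkJ h hh) = l₂ (mkJ h hh)) : l₁ = l₂ := by
  apply LinearMap.ext
  rintro ⟨_, ⟨x, hx, rfl⟩⟩
  obtain ⟨y, hy, z, hz, rfl⟩ := Submodule.mem_sup.1 hx
  obtain ⟨c, rfl⟩ := Ideal.mem_span_singleton.1 hz
  have h1 : (⟨q.mkQ (y + h * c), ⟨y + h * c, hx, rfl⟩⟩ :
      ↥(Submodule.map q.mkQ (q ⊔ Ideal.span {h}))) = c • mkJ h hh := by
    apply Subtype.ext
    show (Submodule.Quotient.mk (y + h * c) : P ⧸ q) = c • (Submodule.Quotient.mk h : P ⧸ q)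
    rw [← Submodule.Quotient.mk_smul, Submodule.Quotient.eq]
    have h2 : y + h * c - c • h = y := by
      simp only [smul_eq_mul]
      ring
    rw [h2]
    exact hy
  rw [h1, map_smul, map_smul, heq]

end

section

variable {P : Type u} [CommRing P] [IsRegularLocalRing P] {m : ℕ} {g : Fin m → P} {h : P}
  {I : Ideal P}

theorem Setup.colon (S : Setup g h I) {r b : P} (hb : b ∈ I)
    (hr : r * h ∈ Ideal.span (Set.range g)) : r * b ∈ Ideal.span (Set.range g) := by
  obtain ⟨k, hk⟩ := S.pow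
  apply pow_sat (q := Ideal.span (Set.range g)) (fun a ha => S.q_sat ha) k
  intro z hz
  obtain ⟨y, hy, w, hw, e⟩ := Submodule.mem_sup.1 (hk (Ideal.mul_mem_mul hz hb))
  obtain ⟨c, rfl⟩ := Ideal.mem_span_singleton.1 hw
  have h1 : z * (r * b) = r * y + c * (r * h) := by
    have h2 : z * (r * b) = r * (z * b) := by ring
    rw [h2, ← e]
    ring
  rw [h1]
  exact Ideal.add_mem _ (Ideal.mul_mem_left _ _ hy) (Ideal.mul_mem_left _ _ hr)

/-- The homomorphism `J/q → P/q`, `h ↦ b`, for `b ∈ I`. -/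
theorem Setup.exists_lam (S : Setup g h I) {b : P} (hb : b ∈ I) :
    ∃ l : ↥(Submodule.map (Ideal.span (Set.range g)).mkQ
      (Ideal.span (Set.range g) ⊔ Ideal.span {h})) →ₗ[P] P ⧸ Ideal.span (Set.range g),
      l (mkJ h S.hh) = Submodule.Quotient.mk b := by
  set q := Ideal.span (Set.range g) with hq
  let φ : P →ₗ[P] ↥(Submodule.map q.mkQ (q ⊔ Ideal.span {h})) :=
    LinearMap.toSpanSingleton P _ (mkJ h S.hh)
  have hφ1 : φ 1 = mkJ h S.hh := by
    show (1 : P) • mkJ h S.hh = mkJ h S.hh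
    rw [one_smul]
  have hsurj : Function.Surjective φ := by
    rintro ⟨_, ⟨x, hx, rfl⟩⟩
    obtain ⟨y, hy, z, hz, rfl⟩ := Submodule.mem_sup.1 hx
    obtain ⟨c, rfl⟩ := Ideal.mem_span_singleton.1 hz
    refine ⟨c, ?_⟩
    apply Subtype.ext
    show c • (Submodule.Quotient.mk h : P ⧸ q) = (Submodule.Quotient.mk (y + h * c) : P ⧸ q)
    rw [← Submodule.Quotient.mk_smul, eq_comm, Submodule.Quotient.eq]
    have h2 : y + h * c - c • h = y := by
      simp only [smul_eq_mul]
      ring
    rw [h2]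
    exact hy
  let ψ : (P ⧸ LinearMap.ker φ) →ₗ[P] P ⧸ q :=
    Submodule.liftQ _ (LinearMap.toSpanSingleton P (P ⧸ q) (Submodule.Quotient.mk b)) (by
      intro r hr
      rw [LinearMap.mem_ker] at hr ⊢
      have h1 : (Submodule.Quotient.mk (r * h) : P ⧸ q) = 0 := congrArg Subtype.val hr
      rw [Submodule.Quotient.mk_eq_zero] at h1
      rw [LinearMap.toSpanSingleton_apply, ← Submodule.Quotient.mk_smul,
        Submodule.Quotient.mk_eq_zero]
      exact S.colon hb h1)
  let e := LinearMap.quotKerEquivOfSurjective φ hsurj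
  refine ⟨ψ.comp e.symm.toLinearMap, ?_⟩
  have h1 : e.symm (mkJ h S.hh) = Submodule.Quotient.mk 1 := by
    rw [LinearEquiv.symm_apply_eq]
    show mkJ h S.hh = φ 1
    rw [hφ1]
  show ψ (e.symm (mkJ h S.hh)) = _
  rw [h1]
  show (1 : P) • (Submodule.Quotient.mk b : P ⧸ q) = _
  rw [one_smul]

/-- The map `κ : I/J → Ext^{m+1}(I/J, P)`. -/
theorem Setup.exists_kappa (S : Setup g h I)
    (E : Ext (ModuleCat.of P (P ⧸ Ideal.span (Set.range g))) (ModuleCat.of P P) m) :
    ∃ κ : IJ I (Ideal.span (Set.range g) ⊔ Ideal.span {h}) →ₗ[P]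
      Ext (ModuleCat.of P (IJ I (Ideal.span (Set.range g) ⊔ Ideal.span {h})))
        (ModuleCat.of P P) (m + 1),
      ∀ b (hb : b ∈ I), ∀ l : ↥(Submodule.map (Ideal.span (Set.range g)).mkQ
        (Ideal.span (Set.range g) ⊔ Ideal.span {h})) →ₗ[P] P ⧸ Ideal.span (Set.range g),
        l (mkJ h S.hh) = Submodule.Quotient.mk b →
        κ (Submodule.Quotient.mk ⟨b, hb⟩) = kap le_sup_left I l E := by
  choose lam hlam using fun b : ↥I => S.exists_lam b.2
  let κ₀ : ↥I →ₗ[P] Ext (ModuleCat.of P (IJ I (Ideal.span (Set.range g) ⊔ Ideal.span {h})))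
      (ModuleCat.of P P) (m + 1) :=
    { toFun := fun b => kap le_sup_left I (lam b) E
      map_add' := by
        intro b c
        have h1 : lam (b + c) = lam b + lam c := by
          apply lam_ext S.hh
          rw [hlam, LinearMap.add_apply, hlam, hlam]
          rfl
        rw [h1, kap_add]
      map_smul' := by
        intro r b
        have h1 : lam (r • b) = r • lam b := by
          apply lam_ext S.hh
          rw [hlam, LinearMap.smul_apply, hlam]
          rfl
        rw [h1, kap_smul]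
        rfl }
  refine ⟨Submodule.liftQ _ κ₀ ?_, ?_⟩
  · rintro ⟨b, hb⟩ hbJ
    have hbJ' : b ∈ Ideal.span (Set.range g) ⊔ Ideal.span {h} := hbJ
    obtain ⟨y, hy, z, hz, e⟩ := Submodule.mem_sup.1 hbJ'
    obtain ⟨c, rfl⟩ := Ideal.mem_span_singleton.1 hz
    rw [LinearMap.mem_ker]
    show kap le_sup_left I (lam ⟨b, hb⟩) E = 0
    have h1 : lam ⟨b, hb⟩ = c • Submodule.subtype _ := by
      apply lam_ext S.hh
      rw [hlam, LinearMap.smul_apply]
      show (Submodule.Quotient.mk b : P ⧸ Ideal.span (Set.range g)) =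
        c • (Submodule.Quotient.mk h : P ⧸ Ideal.span (Set.range g))
      rw [← Submodule.Quotient.mk_smul, Submodule.Quotient.eq, ← e]
      have h2 : y + h * c - c • h = y := by
        simp only [smul_eq_mul]
        ring
      rw [h2]
      exact hy
    rw [h1, kap_smul, kap_subtype, smul_zero]
  · intro b hb l hl
    show kap le_sup_left I (lam ⟨b, hb⟩) E = _
    have h1 : lam ⟨b, hb⟩ = l := by
      apply lam_ext S.hh
      rw [hlam, hl]
    rw [h1]

end

section beta

variable {P : Type u} [CommRing P] {K : Type v} [Field K] [Algebra K P]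

/-- The `P`-module `I²/IJ`. -/
abbrev SqQ (I J : Ideal P) : Type u :=
  ↥(I * I) ⧸ Submodule.comap (Submodule.subtype (I * I)) (I * J)

/-- A function on `I × I` which respects the relations among products modulo `IJ` comes from a
linear functional on `I²/IJ`. -/
theorem exists_beta (I J : Ideal P) (B : ↥I → ↥I → K)
    (hB : ∀ {ι : Type} (t : Finset ι) (a b : ι → ↥I),
      ∑ i ∈ t, (a i : P) * (b i : P) ∈ I * J → ∑ i ∈ t, B (a i) (b i) = 0)
    (hK : ∀ (c : K) a b, B (algebraMap K P c • a) b = c * B a b) :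
    ∃ β : SqQ I J →ₗ[K] K, ∀ a b : ↥I,
      β (Submodule.Quotient.mk ⟨(a : P) * b, Ideal.mul_mem_mul a.2 b.2⟩) = B a b := by
  have hrep : ∀ z : SqQ I J, ∃ (n : ℕ) (a b : Fin n → ↥I),
      z = Submodule.Quotient.mk ⟨∑ i, (a i : P) * (b i : P),
        Ideal.sum_mem _ fun i _ => Ideal.mul_mem_mul (a i).2 (b i).2⟩ := by
    intro z
    obtain ⟨⟨x, hx⟩, rfl⟩ := Submodule.Quotient.mk_surjective _ z
    have h1 : ∃ (n : ℕ) (a b : Fin n → ↥I), x = ∑ i, (a i : P) * (b i : P) := by
      refine Submodule.mul_induction_on hx ?_ ?_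
      · intro a ha b hb
        exact ⟨1, fun _ => ⟨a, ha⟩, fun _ => ⟨b, hb⟩, by simp⟩
      · rintro x y ⟨n, a, b, rfl⟩ ⟨n', a', b', rfl⟩
        refine ⟨n + n', Fin.append a a', Fin.append b b', ?_⟩
        rw [Fin.sum_univ_add]
        simp
    obtain ⟨n, a, b, rfl⟩ := h1
    exact ⟨n, a, b, rfl⟩
  choose n a b hz using hrep
  have hneg : ∀ a b, B (-a) b = - B a b := by
    intro a b
    have h1 := hB (Finset.univ : Finset (Fin 2)) ![a, -a] ![b, b] (by
      simp [Fin.sum_univ_two])
    rw [Fin.sum_univ_two] at h1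
    simp only [Matrix.cons_val_zero, Matrix.cons_val_one] at h1
    exact (neg_eq_of_add_eq_zero_right h1).symm
  have key : ∀ (z : SqQ I J) {ι : Type} (t : Finset ι) (a' b' : ι → ↥I),
      z = Submodule.Quotient.mk ⟨∑ i ∈ t, (a' i : P) * (b' i : P),
        Ideal.sum_mem _ fun i _ => Ideal.mul_mem_mul (a' i).2 (b' i).2⟩ →
      ∑ i, B (a z i) (b z i) = ∑ i ∈ t, B (a' i) (b' i) := by
    intro z ι t a' b' h
    have h1 := hB (Finset.disjSum (Finset.univ : Finset (Fin (n z))) t)
      (Sum.elim (a z) (fun i => - a' i)) (Sum.elim (b z) b') (by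
        rw [Finset.sum_disjSum]
        simp only [Sum.elim_inl, Sum.elim_inr]
        have h2 := (hz z).symm.trans h
        rw [Submodule.Quotient.eq] at h2
        have h3 : ∑ i, (a z i : P) * (b z i : P) - ∑ i ∈ t, (a' i : P) * (b' i : P) ∈ I * J := h2
        have h4 : ∑ i, (a z i : P) * (b z i : P) +
            ∑ i ∈ t, ((-a' i : ↥I) : P) * (b' i : P) =
            ∑ i, (a z i : P) * (b z i : P) - ∑ i ∈ t, (a' i : P) * (b' i : P) := by
          rw [sub_eq_add_neg, ← Finset.sum_neg_distrib]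
          congr 1
          refine Finset.sum_congr rfl fun i _ => ?_
          simp
        rw [h4]
        exact h3)
    rw [Finset.sum_disjSum] at h1
    simp only [Sum.elim_inl, Sum.elim_inr, hneg, Finset.sum_neg_distrib] at h1
    rwa [← sub_eq_add_neg, sub_eq_zero] at h1
  refine ⟨{ toFun := fun z => ∑ i, B (a z i) (b z i), map_add' := ?_, map_smul' := ?_ }, ?_⟩
  · intro z w
    have h1 := key (z + w) (Finset.disjSum (Finset.univ : Finset (Fin (n z)))
      (Finset.univ : Finset (Fin (n w)))) (Sum.elim (a z) (a w)) (Sum.elim (b z) (b w)) (by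
        conv_lhs => rw [hz z, hz w]
        rw [← Submodule.Quotient.mk_add]
        congr 1
        apply Subtype.ext
        exact (Finset.sum_disjSum (Finset.univ : Finset (Fin (n z)))
          (Finset.univ : Finset (Fin (n w))) (fun i => ((Sum.elim (a z) (a w) i : ↥I) : P) *
            ((Sum.elim (b z) (b w) i : ↥I) : P))).symm)
    rw [h1, Finset.sum_disjSum]
    rfl
  · intro c z
    have h1 := key (c • z) (Finset.univ : Finset (Fin (n z)))
      (fun i => algebraMap K P c • a z i) (b z) (by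
        conv_lhs => rw [hz z]
        rw [← Submodule.Quotient.mk_smul]
        congr 1
        apply Subtype.ext
        show c • ∑ i, (a z i : P) * (b z i : P) = ∑ i, (algebraMap K P c * (a z i : P)) * (b z i : P)
        rw [Algebra.smul_def, Finset.mul_sum]
        refine Finset.sum_congr rfl fun i _ => ?_
        ring)
    rw [h1]
    simp only [hK, RingHom.id_apply, smul_eq_mul]
    rw [Finset.mul_sum]
  · intro a₀ b₀
    have h1 := key (Submodule.Quotient.mk ⟨(a₀ : P) * b₀, Ideal.mul_mem_mul a₀.2 b₀.2⟩)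
      (Finset.univ : Finset (Fin 1)) (fun _ => a₀) (fun _ => b₀) (by
        congr 1
        apply Subtype.ext
        show (a₀ : P) * b₀ = ∑ _i : Fin 1, (a₀ : P) * b₀
        simp)
    refine Eq.trans h1 ?_
    simp

end beta

end Pool.Agent.Lib.MP_1ce8ed_ag
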