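import Mathlib
import Pool.Agent.Lib.MP_1ce8ed_ag.Kappa

/-!
Local cohomology and the factorization of the pairing.
-/

namespace Pool.Agent.Lib.MP_1ce8ed_ag

open IsLocalRing CategoryTheory Abelian RingTheory.Sequence Pointwise

universe u v

section lc

variable (P : Type u) [CommRing P] [IsLocalRing P]

/-- The transition maps `Extⁿ(P/𝔪ᵏ, P) → Extⁿ(P/𝔪ˡ, P)`, `k ≤ l`. -/
noncomputable def lcTrans (n k l : ℕ) (h : k ≤ l) :
    Ext (ModuleCat.of P (P ⧸ maximalIdeal P ^ k)) (ModuleCat.of P P) n →ₗ[P]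
      Ext (ModuleCat.of P (P ⧸ maximalIdeal P ^ l)) (ModuleCat.of P P) n :=
  Ext.precompOfLinear
    (Ext.mk₀ (ModuleCat.ofHom (Submodule.factor (Ideal.pow_le_pow_right (I := maximalIdeal P) h))))
    P (ModuleCat.of P P) (zero_add n)

/-- Local cohomology `Hⁿ_𝔪(P) = colim_k Extⁿ(P/𝔪ᵏ, P)`. -/
abbrev LC (n : ℕ) : Type u :=
  Module.DirectLimit
    (fun k : ℕ => Ext (ModuleCat.of P (P ⧸ maximalIdeal P ^ k)) (ModuleCat.of P P) n)
    (lcTrans P n)

variable {P}

/-- The product `N × Extⁿ(N, P) → Hⁿ_𝔪(P)` for an element `a ∈ N` with `𝔪ᵏ a = 0`: the class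
`x` is pulled back along `P/𝔪ᵏ → N`, `1 ↦ a`. -/
noncomputable def lcPair {N : Type u} [AddCommGroup N] [Module P N] {n : ℕ} (a : N) (k : ℕ)
    (hk : ∀ r ∈ maximalIdeal P ^ k, r • a = 0) (x : Ext (ModuleCat.of P N) (ModuleCat.of P P) n) :
    LC P n :=
  Module.DirectLimit.of P ℕ _ (lcTrans P n) k
    ((Ext.mk₀ (ModuleCat.ofHom (ev (maximalIdeal P ^ k) a hk))).comp x (zero_add n))

theorem lcPair_of_le {N : Type u} [AddCommGroup N] [Module P N] {n : ℕ} (a : N) {k l : ℕ}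
    (hkl : k ≤ l) (hk : ∀ r ∈ maximalIdeal P ^ k, r • a = 0)
    (hl : ∀ r ∈ maximalIdeal P ^ l, r • a = 0)
    (x : Ext (ModuleCat.of P N) (ModuleCat.of P P) n) : lcPair a k hk x = lcPair a l hl x := by
  unfold lcPair
  rw [← Module.DirectLimit.of_f (hij := hkl)]
  congr 1
  refine Eq.trans (Ext.mk₀_comp_mk₀_assoc _ _ _) ?_
  congr 2
  apply ModuleCat.hom_ext
  apply LinearMap.ext
  intro r
  obtain ⟨r, rfl⟩ := Submodule.Quotient.mk_surjective _ r
  rfl

theorem lcPair_indep {N : Type u} [AddCommGroup N] [Module P N] {n : ℕ} (a : N) {k l : ℕ}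
    (hk : ∀ r ∈ maximalIdeal P ^ k, r • a = 0)
    (hl : ∀ r ∈ maximalIdeal P ^ l, r • a = 0)
    (x : Ext (ModuleCat.of P N) (ModuleCat.of P P) n) : lcPair a k hk x = lcPair a l hl x := by
  rcases le_total k l with h | h
  · exact lcPair_of_le a h hk hl x
  · exact (lcPair_of_le a h hl hk x).symm

theorem lcPair_smul_left {N : Type u} [AddCommGroup N] [Module P N] {n : ℕ} (c : P) (a : N) (k : ℕ)
    (hk : ∀ r ∈ maximalIdeal P ^ k, r • a = 0)
    (hk' : ∀ r ∈ maximalIdeal P ^ k, r • (c • a) = 0)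
    (x : Ext (ModuleCat.of P N) (ModuleCat.of P P) n) :
    lcPair (c • a) k hk' x = c • lcPair a k hk x := by
  unfold lcPair
  rw [← map_smul]
  congr 1
  have h1 : ModuleCat.ofHom (ev (maximalIdeal P ^ k) (c • a) hk') =
      c • ModuleCat.ofHom (ev (maximalIdeal P ^ k) a hk) := by
    apply ModuleCat.hom_ext
    apply LinearMap.ext
    intro r
    obtain ⟨r, rfl⟩ := Submodule.Quotient.mk_surjective _ r
    show r • (c • a) = c • (r • a)
    rw [smul_comm]
  rw [h1, Ext.mk₀_smul, Ext.smul_comp]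

theorem lcPair_congr {N : Type u} [AddCommGroup N] [Module P N] {n : ℕ} {a a' : N} (h : a = a')
    (k : ℕ) (hk : ∀ r ∈ maximalIdeal P ^ k, r • a = 0)
    (hk' : ∀ r ∈ maximalIdeal P ^ k, r • a' = 0)
    (x : Ext (ModuleCat.of P N) (ModuleCat.of P P) n) :
    lcPair a k hk x = lcPair a' k hk' x := by
  subst h
  rfl

end lc

section

variable {P : Type u} [CommRing P] [IsRegularLocalRing P] {m : ℕ} {g : Fin m → P} {h : P}
  {I : Ideal P} {K : Type v} [Field K] [Algebra K P]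

theorem Setup.kill (S : Setup g h I) : ∃ k : ℕ, ∀ a : ↥I, ∀ r ∈ maximalIdeal P ^ k,
    r • (Submodule.Quotient.mk a :
      IJ I (Ideal.span (Set.range g) ⊔ Ideal.span {h})) = 0 := by
  obtain ⟨k, hk⟩ := S.pow
  refine ⟨k, ?_⟩
  intro a r hr
  rw [← Submodule.Quotient.mk_smul, Submodule.Quotient.mk_eq_zero]
  exact hk (Ideal.mul_mem_mul hr a.2)

/-- The pairing factors over the multiplication map `I/J × I/J → I²/IJ`. -/
theorem Setup.factor (S : Setup g h I)
    (E : Ext (ModuleCat.of P (P ⧸ Ideal.span (Set.range g))) (ModuleCat.of P P) m)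
    (κ : IJ I (Ideal.span (Set.range g) ⊔ Ideal.span {h}) →ₗ[P]
      Ext (ModuleCat.of P (IJ I (Ideal.span (Set.range g) ⊔ Ideal.span {h})))
        (ModuleCat.of P P) (m + 1))
    (hκ : ∀ b (hb : b ∈ I), ∀ l : ↥(Submodule.map (Ideal.span (Set.range g)).mkQ
        (Ideal.span (Set.range g) ⊔ Ideal.span {h})) →ₗ[P] P ⧸ Ideal.span (Set.range g),
        l (mkJ h S.hh) = Submodule.Quotient.mk b →
        κ (Submodule.Quotient.mk ⟨b, hb⟩) = kap le_sup_left I l E)
    (τ : LC P (m + 1) →+ K) (hτ : ∀ (c : K) x, τ (algebraMap K P c • x) = c * τ x) :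
    ∃ β : SqQ I (Ideal.span (Set.range g) ⊔ Ideal.span {h}) →ₗ[K] K,
      ∀ (a b : ↥I) (k : ℕ) (hk : ∀ r ∈ maximalIdeal P ^ k, r • (Submodule.Quotient.mk a :
        IJ I (Ideal.span (Set.range g) ⊔ Ideal.span {h})) = 0),
        τ (lcPair (Submodule.Quotient.mk a) k hk (κ (Submodule.Quotient.mk b))) =
          β (Submodule.Quotient.mk ⟨(a : P) * b, Ideal.mul_mem_mul a.2 b.2⟩) := by
  obtain ⟨k₀, hk₀⟩ := S.kill
  choose lam' hlam' using fun b : ↥I => S.exists_lam b.2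
  classical
  let lam : P → (↥(Submodule.map (Ideal.span (Set.range g)).mkQ
      (Ideal.span (Set.range g) ⊔ Ideal.span {h})) →ₗ[P] P ⧸ Ideal.span (Set.range g)) :=
    fun b => if hb : b ∈ I then lam' ⟨b, hb⟩ else 0
  have hlam : ∀ b ∈ I, lam b (mkJ h S.hh) = Submodule.Quotient.mk b := by
    intro b hb
    simp only [lam, dif_pos hb]
    exact hlam' ⟨b, hb⟩
  obtain ⟨k₁, hk₁⟩ := S.main E lam hlam
  obtain ⟨β, hβ⟩ := exists_beta (K := K) I (Ideal.span (Set.range g) ⊔ Ideal.span {h})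
    (fun a b => τ (lcPair (Submodule.Quotient.mk a) k₀ (hk₀ a)
      (κ (Submodule.Quotient.mk b)))) (by
      intro ι t a b hab
      have hk₂ : ∀ i, ∀ r ∈ maximalIdeal P ^ (max k₀ k₁), r • (Submodule.Quotient.mk (a i) :
          IJ I (Ideal.span (Set.range g) ⊔ Ideal.span {h})) = 0 := by
        intro i r hr
        exact hk₀ (a i) r (Ideal.pow_le_pow_right (le_max_left _ _) hr)
      have h1 := hk₁ (max k₀ k₁) (le_max_right _ _) t (fun i => (a i : P)) (fun i => (b i : P))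
        (fun i => (a i).2) (fun i => (b i).2) hab hk₂
      have h2 : ∀ i ∈ t, τ (lcPair (Submodule.Quotient.mk (a i)) k₀ (hk₀ (a i))
          (κ (Submodule.Quotient.mk (b i)))) = τ (Module.DirectLimit.of P ℕ _
            (lcTrans P (m + 1)) (max k₀ k₁) ((Ext.mk₀ (ModuleCat.ofHom
              (ev (maximalIdeal P ^ (max k₀ k₁)) _ (hk₂ i)))).comp
              (kap le_sup_left I (lam (b i)) E) (zero_add (m + 1)))) := by
        intro i _
        rw [lcPair_indep _ _ (hk₂ i)]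
        have h3 := hκ (b i).1 (b i).2 (lam (b i)) (hlam _ (b i).2)
        have h4 : κ (Submodule.Quotient.mk (b i)) = kap le_sup_left I (lam (b i)) E := h3
        rw [h4]
        rfl
      rw [Finset.sum_congr rfl h2, ← map_sum, ← map_sum, h1, map_zero, map_zero])
    (by
      intro c a b
      have h1 := lcPair_smul_left (algebraMap K P c) (Submodule.Quotient.mk a :
        IJ I (Ideal.span (Set.range g) ⊔ Ideal.span {h})) k₀ (hk₀ a)
        (hk₀ (algebraMap K P c • a)) (κ (Submodule.Quotient.mk b))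
      exact (congrArg τ h1).trans (hτ c _))
  refine ⟨β, ?_⟩
  intro a b k hk
  rw [hβ, lcPair_indep _ hk (hk₀ a)]

end

end Pool.Agent.Lib.MP_1ce8ed_ag
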