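import Mathlib
import Pool.Agent.Lib.MP_1ce8ed_ag.LC

/-!
The hypotheses of the problem give a `Setup`.
-/

namespace Pool.Agent.Lib.MP_1ce8ed_ag

open IsLocalRing CategoryTheory Abelian RingTheory.Sequence Pointwise

universe u v

section

variable {P : Type u} [CommRing P] [IsRegularLocalRing P]

theorem prime_of_dim {J : Ideal P} (hJ1 : ringKrullDim (P ⧸ J) = 1) (p p' : Ideal P)
    (hp : p.IsPrime) (hp' : p'.IsPrime) (hJp : J ≤ p) (hlt : p < p') : p' = maximalIdeal P := by
  by_contra hne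
  have hlt' : p' < maximalIdeal P :=
    lt_of_le_of_ne (IsLocalRing.le_maximalIdeal hp'.ne_top) hne
  let a : PrimeSpectrum.zeroLocus (J : Set P) := ⟨⟨p, hp⟩, hJp⟩
  let b : PrimeSpectrum.zeroLocus (J : Set P) := ⟨⟨p', hp'⟩, hJp.trans hlt.le⟩
  let c : PrimeSpectrum.zeroLocus (J : Set P) :=
    ⟨⟨maximalIdeal P, (maximalIdeal.isMaximal P).isPrime⟩, (hJp.trans hlt.le).trans hlt'.le⟩
  have hab : a < b := hlt
  have hbc : b < c := hlt'
  have h1 : ((2 : ℕ) : WithBot ℕ∞) ≤ Order.krullDim (PrimeSpectrum.zeroLocus (J : Set P)) := by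
    rw [Order.le_krullDim_iff]
    refine ⟨((RelSeries.singleton _ a).snoc b (by simpa using hab)).snoc c (by simpa using hbc), ?_⟩
    simp
  rw [← ringKrullDim_quotient, hJ1] at h1
  have h2 : (2 : ℕ) ≤ 1 := by exact_mod_cast h1
  omega

theorem le_max_of_dim {J : Ideal P} (hJ1 : ringKrullDim (P ⧸ J) = 1) : J ≤ maximalIdeal P := by
  apply IsLocalRing.le_maximalIdeal
  rintro rfl
  have : Subsingleton (P ⧸ (⊤ : Ideal P)) := Ideal.Quotient.subsingleton_iff.2 rfl
  rw [ringKrullDim_eq_bot_of_subsingleton] at hJ1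
  exact absurd hJ1 (by simp)

theorem setup_of_hyp {m : ℕ} (hdim : ringKrullDim P = (m + 1 : ℕ)) {J I : Ideal P}
    (hJ1 : ringKrullDim (P ⧸ J) = 1)
    (hI : ∀ a, a ∈ I ↔ ∃ k : ℕ, ∀ r ∈ maximalIdeal P ^ k, r * a ∈ J) (hrad : I.IsRadical)
    (g : Fin m → P) (h : P) (hreg : IsWeaklyRegular P (List.ofFn g))
    (hJ : J = Ideal.span (Set.range g) ⊔ Ideal.span {h}) : Setup g h I := by
  have hJm := le_max_of_dim hJ1
  subst hJ
  have hle : Ideal.span (Set.range g) ⊔ Ideal.span {h} ≤ I := by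
    intro a ha
    exact (hI a).2 ⟨0, fun r _ => Ideal.mul_mem_left _ _ ha⟩
  refine ⟨?_, ?_, ?_, hreg, ?_, hrad, hle, ?_, ?_⟩
  · have h1 := IsRegularLocalRing.spanFinrank_maximalIdeal (R := P)
    rw [hdim] at h1
    exact_mod_cast h1
  · intro i
    exact hJm (Ideal.mem_sup_left (Ideal.subset_span ⟨i, rfl⟩))
  · exact hJm (Ideal.mem_sup_right (Ideal.mem_span_singleton_self h))
  · exact prime_of_dim hJ1
  · -- `I` is finitely generated
    obtain ⟨s, hs⟩ := (IsNoetherian.noetherian I : I.FG)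
    have h1 : ∀ a ∈ s, ∃ k : ℕ, ∀ r ∈ maximalIdeal P ^ k,
        r * a ∈ Ideal.span (Set.range g) ⊔ Ideal.span {h} := by
      intro a ha
      apply (hI a).1
      rw [← hs]
      exact Submodule.subset_span ha
    choose! k hk using h1
    refine ⟨s.sup k, ?_⟩
    rw [Ideal.mul_le]
    intro r hr a ha
    rw [← hs] at ha
    refine Submodule.span_induction ?_ ?_ ?_ ?_ ha
    · intro x hx
      exact hk x hx r (Ideal.pow_le_pow_right (Finset.le_sup (f := k) hx) hr)
    · rw [mul_zero]
      exact Ideal.zero_mem _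
    · intro x y _ _ hx hy
      rw [mul_add]
      exact Ideal.add_mem _ hx hy
    · intro c x _ hx
      have h2 : r * (c • x) = c * (r * x) := by
        rw [smul_eq_mul]
        ring
      rw [h2]
      exact Ideal.mul_mem_left _ _ hx
  · intro a ha
    obtain ⟨s, hs⟩ := (IsNoetherian.noetherian (maximalIdeal P) : (maximalIdeal P).FG)
    have h1 : ∀ t ∈ s, ∃ k : ℕ, ∀ r ∈ maximalIdeal P ^ k,
        r * (t * a) ∈ Ideal.span (Set.range g) ⊔ Ideal.span {h} := by
      intro t ht
      apply (hI _).1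
      apply ha
      rw [← hs]
      exact Submodule.subset_span ht
    choose! k hk using h1
    rw [hI]
    refine ⟨s.sup k + 1, ?_⟩
    have h2 : maximalIdeal P ^ (s.sup k + 1) ≤ Submodule.comap (LinearMap.mulRight P a)
        (Ideal.span (Set.range g) ⊔ Ideal.span {h}) := by
      rw [pow_succ, Ideal.mul_le]
      intro r hr t ht
      show r * t * a ∈ Ideal.span (Set.range g) ⊔ Ideal.span {h}
      rw [← hs] at ht
      rw [mul_assoc]
      refine Submodule.span_induction ?_ ?_ ?_ ?_ ht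
      · intro x hx
        exact hk x hx r (Ideal.pow_le_pow_right (Finset.le_sup (f := k) hx) hr)
      · rw [zero_mul, mul_zero]
        exact Ideal.zero_mem _
      · intro x y _ _ hx hy
        rw [add_mul, mul_add]
        exact Ideal.add_mem _ hx hy
      · intro c x _ hx
        have h2 : r * (c • x * a) = c * (r * (x * a)) := by
          rw [smul_eq_mul]
          ring
        rw [h2]
        exact Ideal.mul_mem_left _ _ hx
    intro r hr
    exact h2 hr

/-- Good generators of `J`. -/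
theorem exists_good' {m : ℕ} (hdim : ringKrullDim P = (m + 1 : ℕ)) (f : Fin (m + 1) → P)
    (hJ1 : ringKrullDim (P ⧸ Ideal.span (Set.range f)) = 1) :
    ∃ (g : Fin m → P) (h : P), IsWeaklyRegular P (List.ofFn g) ∧
      Ideal.span (Set.range f) = Ideal.span (Set.range g) ⊔ Ideal.span {h} := by
  have hd : (maximalIdeal P).spanFinrank = m + 1 := by
    have h1 := IsRegularLocalRing.spanFinrank_maximalIdeal (R := P)
    rw [hdim] at h1
    exact_mod_cast h1
  obtain ⟨g, h, -, -, hreg, hspan⟩ := exists_good hd f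
    (fun i => le_max_of_dim hJ1 (Ideal.subset_span ⟨i, rfl⟩))
    (prime_of_dim hJ1)
  exact ⟨g, h, hreg, hspan.symm⟩

end

section socle

variable {P : Type u} [CommRing P] [IsLocalRing P] {K : Type v} [Field K] [Algebra K P]

/-- The socle of a module over a local ring. -/
def socle (N : Type u) [AddCommGroup N] [Module P N] : Submodule P N where
  carrier := {u | ∀ r ∈ maximalIdeal P, r • u = 0}
  add_mem' := by
    intro x y hx hy r hr
    rw [smul_add, hx r hr, hy r hr, add_zero]
  zero_mem' := by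
    intro r _
    rw [smul_zero]
  smul_mem' := by
    intro c x hx r hr
    rw [smul_comm, hx r hr, smul_zero]

end socle

section

variable {P : Type u} [CommRing P] [IsRegularLocalRing P] {m : ℕ} {g : Fin m → P} {h : P}
  {I : Ideal P} {K : Type v} [Field K] [Algebra K P]

theorem Setup.exists_socle (S : Setup g h I)
    (hne : ¬ I ≤ Ideal.span (Set.range g) ⊔ Ideal.span {h}) :
    ∃ u : ↥(I * I), (u : P) ∉ I * (Ideal.span (Set.range g) ⊔ Ideal.span {h}) ∧
      ∀ r ∈ maximalIdeal P, r * (u : P) ∈ I * (Ideal.span (Set.range g) ⊔ Ideal.span {h}) := by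
  have h1 : ¬ I * I ≤ I * (Ideal.span (Set.range g) ⊔ Ideal.span {h}) := fun hc =>
    hne (S.le_of_sq_le hc)
  rw [SetLike.not_le_iff_exists] at h1
  obtain ⟨u₀, hu₀, hu₀'⟩ := h1
  obtain ⟨k, hk⟩ := S.pow
  have h2 : ∃ j : ℕ, ∀ r ∈ maximalIdeal P ^ j,
      r * u₀ ∈ I * (Ideal.span (Set.range g) ⊔ Ideal.span {h}) := by
    refine ⟨k, fun r hr => ?_⟩
    have h3 : r * u₀ ∈ maximalIdeal P ^ k * (I * I) := Ideal.mul_mem_mul hr hu₀
    rw [← mul_assoc, mul_comm] at h3
    exact Ideal.mul_mono_right hk h3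
  classical
  have h3 := Nat.find_spec h2
  have h4 : Nat.find h2 ≠ 0 := by
    intro h0
    rw [h0] at h3
    have := h3 1 (by simp)
    rw [one_mul] at this
    exact hu₀' this
  obtain ⟨j, hj⟩ := Nat.exists_eq_succ_of_ne_zero h4
  have h5 := Nat.find_min h2 (m := j) (by omega)
  push Not at h5
  obtain ⟨z, hz, hzu⟩ := h5
  refine ⟨⟨z * u₀, Ideal.mul_mem_left _ _ hu₀⟩, hzu, ?_⟩
  intro r hr
  rw [hj] at h3
  show r * (z * u₀) ∈ _
  rw [← mul_assoc]
  apply h3
  rw [pow_succ, mul_comm r z]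
  exact Ideal.mul_mem_mul hz hr

/-- The socle of `I²/IJ` is one-dimensional over `K`. -/
theorem Setup.finrank_socle (S : Setup g h I)
    (hK : Function.Surjective (algebraMap K (ResidueField P)))
    (hne : ¬ I ≤ Ideal.span (Set.range g) ⊔ Ideal.span {h}) :
    Module.finrank K (socle (P := P)
      (SqQ I (Ideal.span (Set.range g) ⊔ Ideal.span {h}))) = 1 := by
  obtain ⟨u, hu, hu'⟩ := S.exists_socle hne
  have hmem : ∀ x : ↥(I * I), (Submodule.Quotient.mk x :
      SqQ I (Ideal.span (Set.range g) ⊔ Ideal.span {h})) ∈ socle (P := P)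
      (SqQ I (Ideal.span (Set.range g) ⊔ Ideal.span {h})) ↔
      ∀ r ∈ maximalIdeal P, r * (x : P) ∈ I * (Ideal.span (Set.range g) ⊔ Ideal.span {h}) := by
    intro x
    constructor
    · intro hx r hr
      have h1 := hx r hr
      rw [← Submodule.Quotient.mk_smul, Submodule.Quotient.mk_eq_zero] at h1
      exact h1
    · intro hx r hr
      rw [← Submodule.Quotient.mk_smul, Submodule.Quotient.mk_eq_zero]
      exact hx r hr
  rw [finrank_eq_one_iff']
  refine ⟨⟨Submodule.Quotient.mk u, (hmem u).2 hu'⟩, ?_, ?_⟩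
  · intro h0
    have h1 : (Submodule.Quotient.mk u :
      SqQ I (Ideal.span (Set.range g) ⊔ Ideal.span {h})) = 0 := congrArg Subtype.val h0
    rw [Submodule.Quotient.mk_eq_zero] at h1
    exact hu h1
  · rintro ⟨w, hw⟩
    obtain ⟨w, rfl⟩ := Submodule.Quotient.mk_surjective _ w
    rcases S.socle_le hu' ((hmem w).1 hw) with h1 | ⟨r, hr⟩
    · exact absurd h1 hu
    · obtain ⟨c, hc⟩ := hK (residue P r)
      refine ⟨c, ?_⟩
      apply Subtype.ext
      show c • (Submodule.Quotient.mk u :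
        SqQ I (Ideal.span (Set.range g) ⊔ Ideal.span {h})) = Submodule.Quotient.mk w
      rw [← Submodule.Quotient.mk_smul, eq_comm, Submodule.Quotient.eq]
      show (w : P) - c • (u : P) ∈ I * (Ideal.span (Set.range g) ⊔ Ideal.span {h})
      have h2 : r - algebraMap K P c ∈ maximalIdeal P := by
        rw [← residue_eq_zero_iff, map_sub, ← hc, sub_eq_zero]
        rfl
      have h3 : (w : P) - c • (u : P) = ((w : P) - r * u) + (r - algebraMap K P c) * u := by
        rw [Algebra.smul_def]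
        ring
      rw [h3]
      exact Ideal.add_mem _ hr (hu' _ h2)

end

end Pool.Agent.Lib.MP_1ce8ed_ag
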