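import Mathlib
import Pool.Agent.Lib.MP_1ce8ed_ag.Hyp

/-!
The Koszul class generates `Ext^m(P/q, P)`; the kernel of the local pairing.
-/

namespace Pool.Agent.Lib.MP_1ce8ed_ag

open IsLocalRing CategoryTheory Abelian RingTheory.Sequence Pointwise

universe u v

section

variable {P : Type u} [CommRing P] [IsRegularLocalRing P]

theorem ext_vanish_pow (N : Type u) [AddCommGroup N] [Module P N] [Module.Finite P N] {k : ℕ}
    (hk : maximalIdeal P ^ k ≤ Module.annihilator P N) (i : ℕ)
    (hi : i < (maximalIdeal P).spanFinrank) :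
    Subsingleton (Ext (ModuleCat.of P N) (ModuleCat.of P P) i) := by
  obtain ⟨xs, hlen, hreg, hspan⟩ := exists_regular_list_aux _ P rfl
  have hmem : ∀ x ∈ xs, x ∈ maximalIdeal P := by
    intro x hx
    rw [← hspan]
    exact Ideal.subset_span hx
  have hsmul : maximalIdeal P • (⊤ : Submodule P (ModuleCat.of P P)) < ⊤ := by
    rw [lt_top_iff_ne_top]
    intro h
    apply (maximalIdeal.isMaximal P).ne_top
    have h2 : (maximalIdeal P • (⊤ : Submodule P P)) = ⊤ := h
    rw [smul_eq_mul, Ideal.mul_top] at h2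
    exact h2
  have hsupp : Module.support P N ⊆ PrimeSpectrum.zeroLocus (maximalIdeal P) := by
    rw [Module.support_eq_zeroLocus, PrimeSpectrum.zeroLocus_subset_zeroLocus_iff]
    intro x hx
    exact ⟨k, hk (Ideal.pow_mem_pow hx k)⟩
  exact ModuleCat.subsingleton_ext_of_exists_isRegular (maximalIdeal P) (ModuleCat.of P N) hsupp
    (ModuleCat.of P P) hsmul xs hmem
    (IsRegular.of_isWeaklyRegular_of_mem_maximalIdeal (L := P) hmem hreg) i (by omega)

end

section kos

variable {P : Type u} [CommRing P]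

theorem ofList_smul_top {m : ℕ} (g : Fin m → P) :
    Ideal.span (Set.range g) = (Ideal.ofList (List.ofFn g) • (⊤ : Submodule P P)) := by
  rw [smul_eq_mul, Ideal.mul_top, ofList_ofFn]

/-- The Koszul class in `Ext^m(P/(g), P)` of a regular sequence `g₁, ..., g_m`. -/
noncomputable def kosE {m : ℕ} (g : Fin m → P) (hreg : IsWeaklyRegular P (List.ofFn g)) :
    Ext (ModuleCat.of P (P ⧸ Ideal.span (Set.range g))) (ModuleCat.of P P) m :=
  (Ext.mk₀ (ModuleCat.ofHom
    (Submodule.quotEquivOfEq _ _ (ofList_smul_top g)).toLinearMap)).comp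
    (koszulClass (List.ofFn g) P hreg) (by rw [zero_add, List.length_ofFn])

theorem kosE_bij {m : ℕ} (g : Fin m → P) (hreg : IsWeaklyRegular P (List.ofFn g))
    (N : ModuleCat.{u} P) (hann : ∀ i, g i ∈ Module.annihilator P N) (i j : ℕ) (hij : i + m = j)
    (hvan : ∀ l < j, Subsingleton (Ext N (ModuleCat.of P P) l)) :
    Function.Bijective (fun α : Ext N (ModuleCat.of P (P ⧸ Ideal.span (Set.range g))) i =>
      α.comp (kosE g hreg) hij) := by
  have hij' : i + (List.ofFn g).length = j := by rw [List.length_ofFn, hij]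
  have b1 := ext_equiv_bij N (Submodule.quotEquivOfEq _ _ (ofList_smul_top g)) i
  have b2 := koszul_bij N (List.ofFn g) P (by
    intro r hr
    rw [List.mem_ofFn'] at hr
    obtain ⟨i, rfl⟩ := hr
    exact hann i) hreg i j hij' hvan
  have b3 := b2.comp b1
  have heq : (fun α : Ext N (ModuleCat.of P (P ⧸ Ideal.span (Set.range g))) i =>
      α.comp (kosE g hreg) hij) =
      (fun α => α.comp (koszulClass (List.ofFn g) P hreg) hij') ∘
      (fun α => α.comp (Ext.mk₀ (ModuleCat.ofHom
        (Submodule.quotEquivOfEq _ _ (ofList_smul_top g)).toLinearMap)) (add_zero i)) := by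
    funext α
    exact (Ext.comp_assoc α (Ext.mk₀ (ModuleCat.ofHom
        (Submodule.quotEquivOfEq _ _ (ofList_smul_top g)).toLinearMap))
        (koszulClass (List.ofFn g) P hreg) (add_zero i) (by rw [zero_add, List.length_ofFn])
        (by rw [add_zero, List.length_ofFn, hij])).symm
  rw [heq]
  exact b3

end kos

section

variable {P : Type u} [CommRing P] [IsLocalRing P]

theorem rho_surjective {q b : Ideal P} {s : P} (hb : b ≤ q ⊔ Ideal.span {s}) :
    Function.Surjective (rho hb) := by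
  intro t
  obtain ⟨t, rfl⟩ := Submodule.Quotient.mk_surjective _ t
  obtain ⟨t, rfl⟩ := Submodule.Quotient.mk_surjective _ t
  refine ⟨Submodule.Quotient.mk t, ?_⟩
  show t • (Submodule.Quotient.mk (Submodule.Quotient.mk 1) : QuotSMulTop s (P ⧸ q)) = _
  rw [← Submodule.Quotient.mk_smul, ← Submodule.Quotient.mk_smul, smul_eq_mul, mul_one]

theorem mk_mk_eq_zero {q : Ideal P} {s t : P} :
    (Submodule.Quotient.mk (Submodule.Quotient.mk t) : QuotSMulTop s (P ⧸ q)) = 0 ↔
      t ∈ q ⊔ Ideal.span {s} := by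
  rw [Submodule.Quotient.mk_eq_zero]
  constructor
  · rintro ⟨x, -, hx⟩
    obtain ⟨x, rfl⟩ := Submodule.Quotient.mk_surjective _ x
    have h1 : (Submodule.Quotient.mk (s • x) : P ⧸ q) = Submodule.Quotient.mk t := hx
    rw [Submodule.Quotient.eq] at h1
    have h2 : t = -(s • x - t) + s * x := by
      rw [smul_eq_mul]
      ring
    rw [h2]
    exact Ideal.add_mem _ (Ideal.mem_sup_left (q.neg_mem h1))
      (Ideal.mem_sup_right (Ideal.mul_mem_right _ _ (Ideal.mem_span_singleton_self s)))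
  · intro ht
    obtain ⟨y, hy, z, hz, rfl⟩ := Submodule.mem_sup.1 ht
    obtain ⟨c, rfl⟩ := Ideal.mem_span_singleton.1 hz
    refine ⟨Submodule.Quotient.mk c, trivial, ?_⟩
    show (Submodule.Quotient.mk (s • c) : P ⧸ q) = Submodule.Quotient.mk (y + s * c)
    rw [Submodule.Quotient.eq, smul_eq_mul]
    have : s * c - (y + s * c) = -y := by ring
    rw [this]
    exact q.neg_mem hy

end

section

variable {P : Type u} [CommRing P] [IsRegularLocalRing P]

theorem sigma_inj {q : Ideal P} {s : P} {m k : ℕ}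
    (hdim : (maximalIdeal P).spanFinrank = m + 1)
    (hc : maximalIdeal P ^ k ≤ q ⊔ Ideal.span {s})
    (hreg : IsSMulRegular (P ⧸ q) s)
    (E : Ext (ModuleCat.of P (P ⧸ q)) (ModuleCat.of P P) m)
    (hE : ∀ x : Ext (ModuleCat.of P (QuotSMulTop s (P ⧸ q))) (ModuleCat.of P (P ⧸ q)) 1,
      x.comp E (add_comm 1 m) = 0 → x = 0) {r : P}
    (h0 : (Ext.mk₀ (ModuleCat.ofHom (rho hc))).comp ((smulClass s (P ⧸ q) hreg).comp
        ((Ext.mk₀ (r • 𝟙 (ModuleCat.of P (P ⧸ q)))).comp E (zero_add m)) (add_comm 1 m))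
        (zero_add (m + 1)) = 0) : r ∈ q ⊔ Ideal.span {s} := by
  -- pull back along `rho` is injective
  have hS : (LinearMap.shortComplexKer (rho hc)).ShortExact :=
    LinearMap.shortExact_shortComplexKer (rho_surjective hc)
  have h1 : (smulClass s (P ⧸ q) hreg).comp
        ((Ext.mk₀ (r • 𝟙 (ModuleCat.of P (P ⧸ q)))).comp E (zero_add m)) (add_comm 1 m) = 0 := by
    obtain ⟨x₁, hx₁⟩ := Ext.contravariant_sequence_exact₃ hS (ModuleCat.of P P) _ h0
      (add_comm 1 m)
    have h2 : Subsingleton (Ext (ModuleCat.of P (LinearMap.ker (rho hc))) (ModuleCat.of P P) m) :=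
      ext_vanish_pow (LinearMap.ker (rho hc)) (k := k) (by
        intro z hz
        rw [Module.mem_annihilator]
        rintro ⟨x, hx⟩
        obtain ⟨x, rfl⟩ := Submodule.Quotient.mk_surjective _ x
        apply Subtype.ext
        show (Submodule.Quotient.mk (z • x) : P ⧸ maximalIdeal P ^ k) = 0
        rw [Submodule.Quotient.mk_eq_zero]
        exact Ideal.mul_mem_right _ _ hz) m (by omega)
    have h3 : x₁ = 0 := Subsingleton.elim (h := h2) _ _
    rw [← hx₁, h3, Ext.comp_zero]
  have h2 : ((smulClass s (P ⧸ q) hreg).comp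
      (Ext.mk₀ (r • 𝟙 (ModuleCat.of P (P ⧸ q)))) (add_zero 1)) = 0 := by
    apply hE
    rw [← h1]
    exact Ext.comp_assoc_of_second_deg_zero _ _ _ _
  have h3 : (Ext.mk₀ (r • 𝟙 (ModuleCat.of P (QuotSMulTop s (P ⧸ q))))).comp
      (smulClass s (P ⧸ q) hreg) (zero_add 1) = 0 := by
    rw [← Ext.smul_eq_comp_mk₀] at h2
    rw [Ext.mk₀_smul, Ext.smul_comp, Ext.mk₀_id_comp, h2]
  obtain ⟨β, hβ⟩ := smulClass_exact₃ _ s (P ⧸ q) hreg (zero_add 1) _ h3
  obtain ⟨f, rfl⟩ := (Ext.mk₀_bijective _ _).2 β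
  have hf : f = 0 := by
    apply ModuleCat.hom_ext
    apply LinearMap.ext
    intro x
    apply hreg
    show s • f.hom x = s • 0
    rw [← map_smul, smul_zero]
    have h4 : s • x = 0 := by
      obtain ⟨x, rfl⟩ := Submodule.Quotient.mk_surjective _ x
      rw [← Submodule.Quotient.mk_smul, Submodule.Quotient.mk_eq_zero]
      exact ⟨x, trivial, rfl⟩
    rw [h4, map_zero]
  rw [hf, Ext.mk₀_zero, Ext.zero_comp] at hβ
  have h5 : r • 𝟙 (ModuleCat.of P (QuotSMulTop s (P ⧸ q))) = 0 := by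
    rw [← Ext.mk₀_eq_zero_iff]
    exact hβ.symm
  have h6 : r • (Submodule.Quotient.mk (Submodule.Quotient.mk 1) : QuotSMulTop s (P ⧸ q)) = 0 :=
    congrArg (fun φ : ModuleCat.of P (QuotSMulTop s (P ⧸ q)) ⟶
      ModuleCat.of P (QuotSMulTop s (P ⧸ q)) =>
        φ.hom (Submodule.Quotient.mk (Submodule.Quotient.mk 1))) h5
  rw [← Submodule.Quotient.mk_smul, ← Submodule.Quotient.mk_smul, smul_eq_mul, mul_one,
    mk_mk_eq_zero] at h6
  exact h6

end

end Pool.Agent.Lib.MP_1ce8ed_ag
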