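import Mathlib
import Pool.Agent.Lib.MP_1ce8ed_ag.Perf1

/-!
Injectivity of `κ`.
-/

namespace Pool.Agent.Lib.MP_1ce8ed_ag

open IsLocalRing CategoryTheory Abelian RingTheory.Sequence Pointwise

universe u v

section

variable {P : Type u} [CommRing P]

/-- `ℓ(Y/sY) = ℓ(X/sX)` if `X/Y` has finite length and `s` is regular on `X`. -/
theorem length_quotSMulTop_eq {X : Type u} [AddCommGroup X] [Module P X] (Y : Submodule P X)
    (s : P) (hs : IsSMulRegular X s) (hfin : Module.length P (X ⧸ Y) ≠ ⊤) :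
    Module.length P (QuotSMulTop s Y) = Module.length P (QuotSMulTop s X) := by
  let W : Submodule P X := s • Y
  have hWY : W ≤ Y := by
    rintro _ ⟨y, hy, rfl⟩
    exact Y.smul_mem s hy
  have hW' : W ≤ s • (⊤ : Submodule P X) := by
    rintro _ ⟨y, hy, rfl⟩
    exact ⟨y, trivial, rfl⟩
  -- `0 → Y/sY → X/sY → X/Y → 0`
  let f₁ : QuotSMulTop s Y →ₗ[P] X ⧸ W := Submodule.mapQ _ W Y.subtype (by
    rintro _ ⟨y, -, rfl⟩
    exact ⟨y.1, y.2, rfl⟩)
  have e1 : Module.length P (X ⧸ W) =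
      Module.length P (QuotSMulTop s Y) + Module.length P (X ⧸ Y) := by
    apply Module.length_eq_add_of_exact f₁ (Submodule.factor hWY)
    · rw [← LinearMap.ker_eq_bot, Submodule.eq_bot_iff]
      intro t ht
      obtain ⟨y, rfl⟩ := Submodule.Quotient.mk_surjective _ t
      have h1 : (Submodule.Quotient.mk (y : X) : X ⧸ W) = 0 := ht
      rw [Submodule.Quotient.mk_eq_zero] at h1
      obtain ⟨z, hz, hzy⟩ := h1
      rw [Submodule.Quotient.mk_eq_zero]
      exact ⟨⟨z, hz⟩, trivial, Subtype.ext hzy⟩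
    · exact Submodule.factor_surjective hWY
    · intro t
      obtain ⟨x, rfl⟩ := Submodule.Quotient.mk_surjective _ t
      constructor
      · intro hx
        have h1 : (Submodule.Quotient.mk x : X ⧸ Y) = 0 := hx
        rw [Submodule.Quotient.mk_eq_zero] at h1
        exact ⟨Submodule.Quotient.mk ⟨x, h1⟩, rfl⟩
      · rintro ⟨y, hy⟩
        obtain ⟨y, rfl⟩ := Submodule.Quotient.mk_surjective _ y
        rw [← hy]
        show (Submodule.Quotient.mk (y : X) : X ⧸ Y) = 0
        rw [Submodule.Quotient.mk_eq_zero]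
        exact y.2
  -- `0 → X/Y → X/sY → X/sX → 0`
  let f₂ : X ⧸ Y →ₗ[P] X ⧸ W := Submodule.mapQ Y W (LinearMap.lsmul P X s) (by
    intro y hy
    exact ⟨y, hy, rfl⟩)
  have e2 : Module.length P (X ⧸ W) =
      Module.length P (X ⧸ Y) + Module.length P (QuotSMulTop s X) := by
    apply Module.length_eq_add_of_exact f₂ (Submodule.factor hW')
    · rw [← LinearMap.ker_eq_bot, Submodule.eq_bot_iff]
      intro t ht
      obtain ⟨x, rfl⟩ := Submodule.Quotient.mk_surjective _ t
      have h1 : (Submodule.Quotient.mk (s • x) : X ⧸ W) = 0 := ht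
      rw [Submodule.Quotient.mk_eq_zero] at h1
      obtain ⟨z, hz, hzy⟩ := h1
      have h2 : z = x := hs hzy
      rw [Submodule.Quotient.mk_eq_zero, ← h2]
      exact hz
    · exact Submodule.factor_surjective hW'
    · intro t
      obtain ⟨x, rfl⟩ := Submodule.Quotient.mk_surjective _ t
      constructor
      · intro hx
        have h1 : (Submodule.Quotient.mk x : QuotSMulTop s X) = 0 := hx
        rw [Submodule.Quotient.mk_eq_zero] at h1
        obtain ⟨z, -, hz⟩ := h1
        refine ⟨Submodule.Quotient.mk z, ?_⟩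
        show (Submodule.Quotient.mk (s • z) : X ⧸ W) = Submodule.Quotient.mk x
        rw [← hz]
        rfl
      · rintro ⟨y, hy⟩
        obtain ⟨y, rfl⟩ := Submodule.Quotient.mk_surjective _ y
        rw [← hy]
        show (Submodule.Quotient.mk (s • y) : QuotSMulTop s X) = 0
        rw [Submodule.Quotient.mk_eq_zero]
        exact ⟨y, trivial, rfl⟩
  rw [e1, add_comm] at e2
  exact ENat.add_right_injective_of_ne_top hfin e2

end

section

variable {P : Type u} [CommRing P] [IsRegularLocalRing P] {m : ℕ} {g : Fin m → P} {h : P}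
  {I : Ideal P}

theorem Setup.socCyc (S : Setup g h I) {s : P} (hs : s ∈ maximalIdeal P)
    (hsq : ∀ a, s * a ∈ Ideal.span (Set.range g) → a ∈ Ideal.span (Set.range g)) :
    SocCyc (P := P) (P ⧸ (Ideal.span (Set.range g) ⊔ Ideal.span {s})) := by
  intro t₁ t₂ k₁ k₂
  obtain ⟨v₁, rfl⟩ := Submodule.Quotient.mk_surjective _ t₁
  obtain ⟨v₂, rfl⟩ := Submodule.Quotient.mk_surjective _ t₂
  rcases S.soc_snoc hs hsq (a := v₁) (b := v₂)
    (fun r hr => by
      have := k₁ r hr
      rw [smul_mk_eq, mul_comm] at this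
      exact this)
    (fun r hr => by
      have := k₂ r hr
      rw [smul_mk_eq, mul_comm] at this
      exact this) with h3 | ⟨r, hr⟩
  · left
    rw [Submodule.Quotient.mk_eq_zero]
    exact h3
  · right
    refine ⟨r, ?_⟩
    rw [← Submodule.Quotient.mk_smul, Submodule.Quotient.eq]
    exact hr

theorem finlen_of_pow (N : Type u) [AddCommGroup N] [Module P N] [Module.Finite P N] {k : ℕ}
    (hk : maximalIdeal P ^ k ≤ Module.annihilator P N) : IsFiniteLength P N := by
  obtain ⟨r, f, hf⟩ := Module.Finite.exists_fin' P N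
  have hk' : ∀ a : N, ∀ z ∈ maximalIdeal P ^ k, z • a = 0 := fun a z hz =>
    Module.mem_annihilator.1 (hk hz) a
  let F : (Fin r → P ⧸ maximalIdeal P ^ k) →ₗ[P] N :=
    ∑ i, (ev (maximalIdeal P ^ k) (f (Pi.single i 1)) (hk' _)).comp (LinearMap.proj i)
  have hF : Function.Surjective F := by
    intro y
    obtain ⟨x, rfl⟩ := hf y
    refine ⟨fun i => Submodule.Quotient.mk (x i), ?_⟩
    have h1 : F (fun i => Submodule.Quotient.mk (x i)) = ∑ i, x i • f (Pi.single i 1) := by
      simp only [F, LinearMap.sum_apply]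
      rfl
    rw [h1]
    have h2 : x = ∑ i, x i • (Pi.single i (1 : P) : Fin r → P) := by
      ext j
      simp [Finset.sum_apply, Pi.single_apply]
    conv_rhs => rw [h2]
    rw [map_sum]
    simp only [map_smul]
  have h1 := isFiniteLength_iff_isNoetherian_isArtinian.1
    (isFiniteLength_quotient (P := P) (a := maximalIdeal P ^ k) le_rfl)
  have hN := h1.1
  have hA := h1.2
  rw [isFiniteLength_iff_isNoetherian_isArtinian]
  exact ⟨inferInstance, isArtinian_of_surjective _ F hF⟩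

/-- The module `I/J` has finite length. -/
theorem Setup.finlen (S : Setup g h I) : IsFiniteLength P
    (IJ I (Ideal.span (Set.range g) ⊔ Ideal.span {h})) := by
  obtain ⟨k, hk⟩ := S.kill
  apply finlen_of_pow _ (k := k)
  intro r hr
  rw [Module.mem_annihilator]
  intro t
  obtain ⟨t, rfl⟩ := Submodule.Quotient.mk_surjective _ t
  exact hk t r hr

/-- The key equality of lengths, giving: `(q, s) : I = (q : h) + (s)`. -/
theorem Setup.colon_eq (S : Setup g h I) {s : P} (hs : s ∈ maximalIdeal P)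
    (hsq : ∀ a, s * a ∈ Ideal.span (Set.range g) → a ∈ Ideal.span (Set.range g))
    (hsI : ∀ a, s * a ∈ I → a ∈ I) {α : P}
    (hα : ∀ a ∈ I, α * a ∈ Ideal.span (Set.range g) ⊔ Ideal.span {s}) :
    ∃ c d, c * h ∈ Ideal.span (Set.range g) ∧ α = c + s * d := by
  set q := Ideal.span (Set.range g) with hq
  set q' := q ⊔ Ideal.span {s} with hq'
  -- the ideal `(q : h)`
  set C : Ideal P := colonIdeal q (Ideal.span {h}) with hC
  have hCmem : ∀ r, r ∈ C ↔ r * h ∈ q := by
    intro r
    rw [hC, mem_colonIdeal]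
    constructor
    · intro hr
      exact hr h (Ideal.mem_span_singleton_self h)
    · intro hr b hb
      obtain ⟨c, rfl⟩ := Ideal.mem_span_singleton.1 hb
      rw [← mul_assoc]
      exact q.mul_mem_right _ hr
  set B₁ : Ideal P := C ⊔ Ideal.span {s} with hB₁
  set B₂ : Ideal P := colonIdeal q' (I ⊔ q') with hB₂
  have hfl := S.isFiniteLength_snoc hs hsq
  have hq'B₁ : q' ≤ B₁ := by
    rw [hq', hB₁]
    apply sup_le_sup_right
    intro r hr
    rw [hCmem]
    exact q.mul_mem_right _ hr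
  have h12 : B₁ ≤ B₂ := by
    rw [hB₁, sup_le_iff, Ideal.span_singleton_le_iff_mem]
    constructor
    · intro r hr
      rw [hCmem] at hr
      rw [hB₂, mem_colonIdeal]
      intro b hb
      obtain ⟨x, hx, y, hy, rfl⟩ := Submodule.mem_sup.1 hb
      rw [mul_add]
      exact q'.add_mem (Ideal.mem_sup_left (S.colon hx hr)) (q'.mul_mem_left _ hy)
    · rw [hB₂, mem_colonIdeal]
      intro b _
      exact Ideal.mem_sup_right (Ideal.mul_mem_right _ _ (Ideal.mem_span_singleton_self s))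
  -- lengths
  let X : Submodule P (P ⧸ q) := Submodule.map q.mkQ I
  let Y₀ : Submodule P (P ⧸ q) := Submodule.map q.mkQ (q ⊔ Ideal.span {h})
  have hYX : Y₀ ≤ X := Submodule.map_mono S.le
  let Y : Submodule P X := Submodule.comap X.subtype Y₀
  have hregX : IsSMulRegular X s := by
    intro x y hxy
    apply Subtype.ext
    exact isSMulRegular_quot hsq (congrArg Subtype.val hxy)
  -- `X/Y` is a quotient of `I/J`
  have hXY : IsFiniteLength P (X ⧸ Y) := by
    apply S.finlen.of_surjective (f := Submodule.mapQ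
      (Submodule.comap (Submodule.subtype I) (q ⊔ Ideal.span {h})) Y
      ((q.mkQ.submoduleMap I : ↥I →ₗ[P] X)) (by
        intro x hx
        exact ⟨x.1, hx, rfl⟩))
    intro t
    obtain ⟨⟨_, ⟨x, hx, rfl⟩⟩, rfl⟩ := Submodule.Quotient.mk_surjective _ t
    exact ⟨Submodule.Quotient.mk ⟨x, hx⟩, rfl⟩
  have e1 := length_quotSMulTop_eq Y s hregX (Module.length_ne_top_iff.2 hXY)
  -- `P/B₁ → Y/sY` is injective
  have hhY : (⟨q.mkQ h, ⟨h, S.h_mem, rfl⟩⟩ : X) ∈ Y := ⟨h, S.hh, rfl⟩
  let φ : (P ⧸ B₁) →ₗ[P] QuotSMulTop s Y := Submodule.liftQ B₁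
    (LinearMap.toSpanSingleton P _ (Submodule.Quotient.mk ⟨_, hhY⟩)) (by
      rw [hB₁, sup_le_iff, Ideal.span_singleton_le_iff_mem]
      constructor
      · intro r hr
        rw [hCmem] at hr
        rw [LinearMap.mem_ker, LinearMap.toSpanSingleton_apply, ← Submodule.Quotient.mk_smul,
          Submodule.Quotient.mk_eq_zero]
        have h0 : r • (⟨⟨q.mkQ h, ⟨h, S.h_mem, rfl⟩⟩, hhY⟩ : Y) = 0 := by
          apply Subtype.ext
          apply Subtype.ext
          show (Submodule.Quotient.mk (r * h) : P ⧸ q) = 0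
          rw [Submodule.Quotient.mk_eq_zero]
          exact hr
        rw [h0]
        exact Submodule.zero_mem _
      · rw [LinearMap.mem_ker, LinearMap.toSpanSingleton_apply, ← Submodule.Quotient.mk_smul,
          Submodule.Quotient.mk_eq_zero]
        exact ⟨_, trivial, rfl⟩)
  have hφ : Function.Injective φ := by
    rw [← LinearMap.ker_eq_bot, Submodule.eq_bot_iff]
    intro t ht
    obtain ⟨r, rfl⟩ := Submodule.Quotient.mk_surjective _ t
    have h1 : (Submodule.Quotient.mk (r • (⟨⟨q.mkQ h, ⟨h, S.h_mem, rfl⟩⟩, hhY⟩ : Y)) :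
        QuotSMulTop s Y) = 0 := ht
    rw [Submodule.Quotient.mk_eq_zero] at h1
    obtain ⟨⟨⟨_, ⟨y, hy, rfl⟩⟩, ⟨z, hz, hzy⟩⟩, -, h2⟩ := h1
    have h3 : s • q.mkQ y = r • q.mkQ h := congrArg (fun w : Y => ((w : X) : P ⧸ q)) h2
    have hzy' : q.mkQ z = q.mkQ y := hzy
    rw [← hzy'] at h3
    have h4 : (Submodule.Quotient.mk (s * z) : P ⧸ q) = Submodule.Quotient.mk (r * h) := h3
    rw [Submodule.Quotient.eq] at h4
    obtain ⟨y₁, hy₁, w, hw, rfl⟩ := Submodule.mem_sup.1 hz
    obtain ⟨c, rfl⟩ := Ideal.mem_span_singleton.1 hw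
    rw [Submodule.Quotient.mk_eq_zero, hB₁]
    have h5 : r = (r - s * c) + s * c := by ring
    rw [h5]
    apply Ideal.add_mem
    · apply Ideal.mem_sup_left
      rw [hCmem]
      have h6 : (r - s * c) * h = s * y₁ - (s * (y₁ + h * c) - r * h) := by ring
      rw [h6]
      exact q.sub_mem (q.mul_mem_left _ hy₁) h4
    · exact Ideal.mem_sup_right (Ideal.mul_mem_right _ _ (Ideal.mem_span_singleton_self s))
  have e2 := Module.length_le_of_injective φ hφ
  -- `X/sX → P/q'` is injective with image in `(I + q')/q'`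
  let ψ₀ : X →ₗ[P] P ⧸ q' := (Submodule.factor (le_sup_left : q ≤ q')).comp X.subtype
  let ψ : QuotSMulTop s X →ₗ[P] Submodule.map q'.mkQ (I ⊔ q') :=
    LinearMap.codRestrict _ (Submodule.liftQ _ ψ₀ (by
      rintro _ ⟨⟨_, ⟨x, hx, rfl⟩⟩, -, rfl⟩
      rw [LinearMap.mem_ker]
      show (Submodule.Quotient.mk (s * x) : P ⧸ q') = 0
      rw [Submodule.Quotient.mk_eq_zero]
      exact Ideal.mem_sup_right (Ideal.mul_mem_right _ _ (Ideal.mem_span_singleton_self s)))) (by
      intro t
      obtain ⟨⟨_, ⟨x, hx, rfl⟩⟩, rfl⟩ := Submodule.Quotient.mk_surjective _ t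
      exact ⟨x, Ideal.mem_sup_left hx, rfl⟩)
  have hψ : Function.Injective ψ := by
    rw [← LinearMap.ker_eq_bot, Submodule.eq_bot_iff]
    intro t ht
    obtain ⟨⟨_, ⟨x, hx, rfl⟩⟩, rfl⟩ := Submodule.Quotient.mk_surjective _ t
    have h1 : (Submodule.Quotient.mk x : P ⧸ q') = 0 := congrArg Subtype.val ht
    rw [Submodule.Quotient.mk_eq_zero] at h1
    obtain ⟨y, hy, z, hz, e⟩ := Submodule.mem_sup.1 h1
    obtain ⟨c, rfl⟩ := Ideal.mem_span_singleton.1 hz
    have hc : c ∈ I := by
      apply hsI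
      have h2 : s * c = x - y := by rw [← e]; ring
      rw [h2]
      exact I.sub_mem hx (S.q_le hy)
    rw [Submodule.Quotient.mk_eq_zero]
    refine ⟨⟨q.mkQ c, ⟨c, hc, rfl⟩⟩, trivial, ?_⟩
    apply Subtype.ext
    show (Submodule.Quotient.mk (s * c) : P ⧸ q) = Submodule.Quotient.mk x
    rw [Submodule.Quotient.eq, ← e]
    have h3 : s * c - (y + s * c) = -y := by ring
    rw [h3]
    exact q.neg_mem hy
  have e3 := Module.length_le_of_injective ψ hψ
  have e4 := length_eq (S.socCyc hs hsq) hfl (B := I ⊔ q') le_sup_right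
  have e5 : Module.length P (P ⧸ B₁) ≤ Module.length P (P ⧸ B₂) := by
    rw [hB₂, e4]
    exact (e2.trans e1.le).trans e3
  -- so `B₁ = B₂`
  have hle : B₂ ≤ B₁ := by
    have h1 : Module.length P (P ⧸ B₁) =
        Module.length P (Submodule.map B₁.mkQ B₂) + Module.length P (P ⧸ B₂) := by
      apply Module.length_eq_add_of_exact (Submodule.map B₁.mkQ B₂).subtype (Submodule.factor h12)
        (Submodule.injective_subtype _) (Submodule.factor_surjective h12)
      intro t
      obtain ⟨r, rfl⟩ := Submodule.Quotient.mk_surjective _ t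
      constructor
      · intro hr
        have hr' : (Submodule.Quotient.mk r : P ⧸ B₂) = 0 := hr
        rw [Submodule.Quotient.mk_eq_zero] at hr'
        exact ⟨⟨Submodule.Quotient.mk r, ⟨r, hr', rfl⟩⟩, rfl⟩
      · rintro ⟨⟨_, ⟨b, hb, rfl⟩⟩, htr⟩
        rw [← htr]
        exact (Submodule.Quotient.mk_eq_zero _).2 hb
    have h2 : Module.length P (P ⧸ B₂) ≠ ⊤ := by
      rw [Module.length_ne_top_iff]
      exact hfl.of_surjective (f := Submodule.factor (hq'B₁.trans h12))
        (Submodule.factor_surjective _)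
    have h3 : Module.length P (Submodule.map B₁.mkQ B₂) = 0 := by
      rw [h1] at e5
      have h4 : Module.length P (Submodule.map B₁.mkQ B₂) + Module.length P (P ⧸ B₂) ≤
          0 + Module.length P (P ⧸ B₂) := by rw [zero_add]; exact e5
      exact le_antisymm ((ENat.add_le_add_iff_right h2).1 h4) zero_le
    rw [Module.length_eq_zero_iff] at h3
    intro r hr
    have h4 : (⟨B₁.mkQ r, ⟨r, hr, rfl⟩⟩ : Submodule.map B₁.mkQ B₂) = 0 := Subsingleton.elim _ _
    have h5 : (Submodule.Quotient.mk r : P ⧸ B₁) = 0 := congrArg Subtype.val h4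
    rwa [Submodule.Quotient.mk_eq_zero] at h5
  have hαB : α ∈ B₁ := by
    apply hle
    rw [hB₂, mem_colonIdeal]
    intro b hb
    obtain ⟨x, hx, y, hy, rfl⟩ := Submodule.mem_sup.1 hb
    rw [mul_add]
    exact q'.add_mem (hα x hx) (q'.mul_mem_left _ hy)
  obtain ⟨c, hc, z, hz, e⟩ := Submodule.mem_sup.1 hαB
  obtain ⟨d, rfl⟩ := Ideal.mem_span_singleton.1 hz
  exact ⟨c, d, (hCmem c).1 hc, e.symm⟩

/-- Injectivity of `κ`. -/
theorem Setup.kappa_inj (S : Setup g h I)
    (E : Ext (ModuleCat.of P (P ⧸ Ideal.span (Set.range g))) (ModuleCat.of P P) m)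
    (hE : ∃ v : P, kosE g S.reg = v • E)
    (κ : IJ I (Ideal.span (Set.range g) ⊔ Ideal.span {h}) →ₗ[P]
      Ext (ModuleCat.of P (IJ I (Ideal.span (Set.range g) ⊔ Ideal.span {h})))
        (ModuleCat.of P P) (m + 1))
    (hκ : ∀ b (hb : b ∈ I), ∀ l : ↥(Submodule.map (Ideal.span (Set.range g)).mkQ
        (Ideal.span (Set.range g) ⊔ Ideal.span {h})) →ₗ[P] P ⧸ Ideal.span (Set.range g),
        l (mkJ h S.hh) = Submodule.Quotient.mk b →
        κ (Submodule.Quotient.mk ⟨b, hb⟩) = kap le_sup_left I l E) :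
    Function.Injective κ := by
  rw [← LinearMap.ker_eq_bot, Submodule.eq_bot_iff]
  intro t ht
  obtain ⟨⟨b, hb⟩, rfl⟩ := Submodule.Quotient.mk_surjective _ t
  rw [Submodule.Quotient.mk_eq_zero]
  show b ∈ Ideal.span (Set.range g) ⊔ Ideal.span {h}
  obtain ⟨l, hl⟩ := S.exists_lam hb
  have h0 : kap le_sup_left I l E = 0 := by
    rw [← hκ b hb l hl]
    exact ht
  obtain ⟨s, hs, hsq, hsI, hsJ, k₁, hk₁⟩ := S.exists_param
  obtain ⟨k₀, hk₀⟩ := S.kill
  have hreg := isSMulRegular_quot hsq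
  have hc : maximalIdeal P ^ (max k₀ k₁) ≤ Ideal.span (Set.range g) ⊔ Ideal.span {s} :=
    (Ideal.pow_le_pow_right (le_max_right _ _)).trans hk₁
  have hT : ∀ r ∈ Ideal.span (Set.range g) ⊔ Ideal.span {s},
      r ∈ Module.annihilator P (QuotSMulTop s (P ⧸ Ideal.span (Set.range g))) := by
    intro r hr
    rw [Module.mem_annihilator]
    intro x
    obtain ⟨x, rfl⟩ := Submodule.Quotient.mk_surjective _ x
    obtain ⟨x, rfl⟩ := Submodule.Quotient.mk_surjective _ x
    rw [← Submodule.Quotient.mk_smul, ← Submodule.Quotient.mk_smul, mk_mk_eq_zero]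
    exact Ideal.mul_mem_right _ _ hr
  have hEinj : ∀ x : Ext (ModuleCat.of P (QuotSMulTop s (P ⧸ Ideal.span (Set.range g))))
      (ModuleCat.of P (P ⧸ Ideal.span (Set.range g))) 1,
      x.comp E (add_comm 1 m) = 0 → x = 0 := by
    intro x hx
    obtain ⟨v, hv⟩ := hE
    have hbij := kosE_bij g S.reg
      (ModuleCat.of P (QuotSMulTop s (P ⧸ Ideal.span (Set.range g))))
      (fun i => hT _ (Ideal.mem_sup_left (Ideal.subset_span ⟨i, rfl⟩))) 1 (m + 1) (add_comm 1 m)
      (fun i hi => ext_vanish_pow _ (k := k₁) (fun z hz => hT z (hk₁ hz)) i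
        (by rw [S.dim]; exact hi))
    apply hbij.1
    show x.comp (kosE g S.reg) (add_comm 1 m) = (0 : Ext _ _ 1).comp (kosE g S.reg) (add_comm 1 m)
    rw [hv, Ext.comp_smul, hx, smul_zero, Ext.zero_comp]
  -- `α_a b ∈ (q, s)` for all `a ∈ I`
  have h1 : ∀ a ∈ I, ∀ α, s * a - h * α ∈ Ideal.span (Set.range g) →
      α * b ∈ Ideal.span (Set.range g) ⊔ Ideal.span {s} := by
    intro a ha α hα
    have hev : ∀ r ∈ maximalIdeal P ^ (max k₀ k₁), r • (Submodule.Quotient.mk (⟨a, ha⟩ : ↥I) :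
        IJ I (Ideal.span (Set.range g) ⊔ Ideal.span {h})) = 0 := by
      intro r hr
      exact hk₀ ⟨a, ha⟩ r (Ideal.pow_le_pow_right (le_max_left _ _) hr)
    have h2 := main_aux le_sup_left S.hh hreg ha hα l hl E hc hev
    rw [h0, Ext.comp_zero] at h2
    exact sigma_inj S.dim hc hreg E hEinj h2.symm
  -- by symmetry, `α_b a ∈ (q, s)` for all `a ∈ I`
  obtain ⟨α, hα⟩ := exists_alpha (hsJ b hb)
  have h2 : ∀ a ∈ I, α * a ∈ Ideal.span (Set.range g) ⊔ Ideal.span {s} := by
    intro a ha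
    obtain ⟨α', hα'⟩ := exists_alpha (hsJ a ha)
    have h3 : α * a - α' * b ∈ Ideal.span (Set.range g) := by
      apply S.syz
      · exact I.sub_mem (I.mul_mem_left _ ha) (I.mul_mem_left _ hb)
      · have h4 : h * (α * a - α' * b) = b * (s * a - h * α') - a * (s * b - h * α) := by ring
        rw [h4]
        exact Ideal.sub_mem _ (Ideal.mul_mem_mul hb hα') (Ideal.mul_mem_mul ha hα)
    have h4 : α * a = (α * a - α' * b) + α' * b := by ring
    rw [h4]
    exact Ideal.add_mem _ (Ideal.mem_sup_left h3) (h1 a ha α' hα')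
  obtain ⟨c, d, hch, e⟩ := S.colon_eq hs hsq hsI h2
  have h5 : b - h * d ∈ Ideal.span (Set.range g) := by
    apply hsq
    have h6 : s * (b - h * d) = (s * b - h * α) + c * h := by
      rw [e]
      ring
    rw [h6]
    exact Ideal.add_mem _ hα hch
  have h6 : b = (b - h * d) + h * d := by ring
  rw [h6]
  exact Ideal.add_mem _ (Ideal.mem_sup_left h5)
    (Ideal.mem_sup_right (Ideal.mul_mem_right _ _ (Ideal.mem_span_singleton_self h)))

end

end Pool.Agent.Lib.MP_1ce8ed_ag
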