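import Mathlib
import Pool.Agent.Lib.MP_1ce8ed_ag.Perf2

/-!
Surjectivity of `κ` and local duality.
-/

namespace Pool.Agent.Lib.MP_1ce8ed_ag

open IsLocalRing CategoryTheory Abelian RingTheory.Sequence Pointwise

universe u v

section

variable {P : Type u} [CommRing P] [IsRegularLocalRing P]

/-- `Ext^m(P/q, P)` is generated by the Koszul class. -/
theorem kosE_gen {m : ℕ} (g : Fin m → P) (hg : ∀ i, g i ∈ maximalIdeal P)
    (hreg : IsWeaklyRegular P (List.ofFn g))
    (E : Ext (ModuleCat.of P (P ⧸ Ideal.span (Set.range g))) (ModuleCat.of P P) m) :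
    ∃ r : P, E = r • kosE g hreg := by
  have hmem : ∀ x ∈ List.ofFn g, x ∈ Ideal.span (Set.range g) := by
    intro x hx
    rw [List.mem_ofFn'] at hx
    obtain ⟨i, rfl⟩ := hx
    exact Ideal.subset_span ⟨i, rfl⟩
  have hmem' : ∀ x ∈ List.ofFn g, x ∈ maximalIdeal P := by
    intro x hx
    rw [List.mem_ofFn'] at hx
    obtain ⟨i, rfl⟩ := hx
    exact hg i
  have hqm : Ideal.span (Set.range g) ≤ maximalIdeal P := by
    rw [Ideal.span_le]
    rintro _ ⟨i, rfl⟩
    exact hg i
  have hsmul : Ideal.span (Set.range g) • (⊤ : Submodule P (ModuleCat.of P P)) < ⊤ := by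
    rw [lt_top_iff_ne_top]
    intro h
    apply (maximalIdeal.isMaximal P).ne_top
    have h2 : ((Ideal.span (Set.range g)) • (⊤ : Submodule P P)) = ⊤ := h
    rw [smul_eq_mul, Ideal.mul_top] at h2
    exact top_le_iff.1 (h2 ▸ hqm)
  have hsupp : Module.support P (P ⧸ (Ideal.span (Set.range g))) ⊆ PrimeSpectrum.zeroLocus (Ideal.span (Set.range g)) := by
    rw [Module.support_eq_zeroLocus, Ideal.annihilator_quotient]
  have hann : Module.annihilator P (P ⧸ (Ideal.span (Set.range g))) = Ideal.span (Set.range g) := Ideal.annihilator_quotient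
  have hbij := kosE_bij g hreg (ModuleCat.of P (P ⧸ (Ideal.span (Set.range g))))
    (fun i => hann.ge (Ideal.subset_span ⟨i, rfl⟩)) 0 m (zero_add m)
    (fun l hl => ModuleCat.subsingleton_ext_of_exists_isRegular (Ideal.span (Set.range g)) (ModuleCat.of P (P ⧸ (Ideal.span (Set.range g)))) hsupp
      (ModuleCat.of P P) hsmul (List.ofFn g) hmem
      (IsRegular.of_isWeaklyRegular_of_mem_maximalIdeal (L := P) hmem' hreg) l
      (by rw [List.length_ofFn]; exact hl))
  obtain ⟨x, hx⟩ := hbij.2 E
  obtain ⟨f, rfl⟩ := (Ext.mk₀_bijective _ _).2 x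
  obtain ⟨r, hr⟩ := Submodule.Quotient.mk_surjective _ (f.hom (Submodule.Quotient.mk 1))
  refine ⟨r, ?_⟩
  have hf : f = r • 𝟙 (ModuleCat.of P (P ⧸ (Ideal.span (Set.range g)))) := by
    apply ModuleCat.hom_ext
    apply LinearMap.ext
    intro t
    obtain ⟨t, rfl⟩ := Submodule.Quotient.mk_surjective _ t
    have h1 : (Submodule.Quotient.mk t : P ⧸ (Ideal.span (Set.range g))) = t • Submodule.Quotient.mk 1 := by
      rw [← Submodule.Quotient.mk_smul, smul_eq_mul, mul_one]
    have h2 : f.hom (Submodule.Quotient.mk t) = t • f.hom (Submodule.Quotient.mk 1) := by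
      rw [← map_smul]
      congr 1
    show f.hom (Submodule.Quotient.mk t) = r • (Submodule.Quotient.mk t : P ⧸ (Ideal.span (Set.range g)))
    rw [h2, ← hr, ← Submodule.Quotient.mk_smul, ← Submodule.Quotient.mk_smul, smul_eq_mul,
      smul_eq_mul, mul_comm]
  rw [← hx, hf]
  show (Ext.mk₀ (r • 𝟙 (ModuleCat.of P (P ⧸ (Ideal.span (Set.range g)))))).comp (kosE g hreg) (zero_add m) = _
  rw [Ext.mk₀_smul, Ext.smul_comp, Ext.mk₀_id_comp]

/-- `Extⁿ(k, P)` is one-dimensional. -/
theorem cyc_top : Cyc P (Ext (kk P) (ModuleCat.of P P) (maximalIdeal P).spanFinrank) := by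
  obtain ⟨xs, hxlen, hxreg, hxspan⟩ := exists_regular_list_aux _ P rfl
  have hxmem : ∀ x ∈ xs, x ∈ maximalIdeal P := by
    intro x hx
    rw [← hxspan]
    exact Ideal.subset_span hx
  obtain ⟨e'⟩ := ext_list xs P hxmem hxreg (fun i hi => ext_vanish i (by omega))
  have hxtop : (Ideal.ofList xs • ⊤ : Submodule P P) = maximalIdeal P := by
    rw [smul_eq_mul, Ideal.mul_top, hxspan]
  have c1 : Cyc P (Ext (kk P) (ModuleCat.of P (P ⧸ maximalIdeal P)) 0) :=
    Cyc.of_equiv (Ext.linearEquiv₀ (R := P)).symm hom_kk_cyc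
  have c2 : Cyc P (Ext (kk P) (ModuleCat.of P (P ⧸ (Ideal.ofList xs • ⊤ : Submodule P P))) 0) :=
    Cyc.of_equiv (extEquiv (kk P) (Submodule.quotEquivOfEq _ _ hxtop.symm) 0) c1
  have c3 := Cyc.of_equiv e' c2
  rw [hxlen] at c3
  exact c3

/-- Precomposition with an isomorphism. -/
noncomputable def extPre (Y : ModuleCat.{u} P) {N N' : Type u} [AddCommGroup N] [Module P N]
    [AddCommGroup N'] [Module P N'] (e : N ≃ₗ[P] N') (i : ℕ) :
    Ext (ModuleCat.of P N') Y i ≃ₗ[P] Ext (ModuleCat.of P N) Y i where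
  toFun α := (Ext.mk₀ (ModuleCat.ofHom e.toLinearMap)).comp α (zero_add i)
  map_add' := by simp
  map_smul' := by simp
  invFun α := (Ext.mk₀ (ModuleCat.ofHom e.symm.toLinearMap)).comp α (zero_add i)
  left_inv α := by
    have : ModuleCat.ofHom e.symm.toLinearMap ≫ ModuleCat.ofHom e.toLinearMap =
        𝟙 (ModuleCat.of P N') := by
      ext a
      exact e.apply_symm_apply a
    simp [this]
  right_inv α := by
    have : ModuleCat.ofHom e.toLinearMap ≫ ModuleCat.ofHom e.symm.toLinearMap =
        𝟙 (ModuleCat.of P N) := by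
      ext a
      exact e.symm_apply_apply a
    simp [this]

theorem exists_equiv_kk {N : Type u} [AddCommGroup N] [Module P N] (h : IsSimpleModule P N) :
    Nonempty (N ≃ₗ[P] (P ⧸ maximalIdeal P)) := by
  obtain ⟨J, hJ, ⟨e⟩⟩ := isSimpleModule_iff_quot_maximal.1 h
  have := IsLocalRing.eq_maximalIdeal hJ
  subst this
  exact ⟨e⟩

theorem ext_of_subsingleton {L : Type u} [AddCommGroup L] [Module P L] [Subsingleton L]
    (Y : ModuleCat.{u} P) (i : ℕ) (x : Ext (ModuleCat.of P L) Y i) : x = 0 := by
  have h1 : 𝟙 (ModuleCat.of P L) = 0 := by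
    apply ModuleCat.hom_ext
    apply LinearMap.ext
    intro a
    exact Subsingleton.elim _ _
  have h2 := Ext.mk₀_id_comp x
  rw [h1, Ext.mk₀_zero, Ext.zero_comp] at h2
  exact h2.symm

/-- `ℓ(Extⁿ(L, P)) ≤ ℓ(L)`. -/
theorem length_ext_le {n : ℕ} (hn : (maximalIdeal P).spanFinrank = n)
    {L : Type u} [AddCommGroup L] [Module P L] (hL : IsFiniteLength P L) :
    Module.length P (Ext (ModuleCat.of P L) (ModuleCat.of P P) n) ≤ Module.length P L := by
  subst hn
  induction hL with
  | @of_subsingleton M =>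
    have h1 : Module.length P (Ext (ModuleCat.of P M) (ModuleCat.of P P)
        (maximalIdeal P).spanFinrank) = 0 := by
      rw [Module.length_eq_zero_iff]
      exact subsingleton_of_forall_eq 0 (ext_of_subsingleton _ _)
    rw [h1]
    exact zero_le
  | @of_simple_quotient M _ _ N hsimple hN ih =>
    have h1 : Module.length P M = Module.length P N + Module.length P (M ⧸ N) :=
      Module.length_eq_add_of_exact N.subtype N.mkQ (Submodule.injective_subtype _)
        (Submodule.mkQ_surjective _) (LinearMap.exact_subtype_mkQ N)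
    rw [h1, Module.length_eq_one P (M ⧸ N), add_comm]
    obtain ⟨e⟩ := exists_equiv_kk hsimple
    have hcyc : Cyc P (Ext (ModuleCat.of P (M ⧸ N)) (ModuleCat.of P P)
        (maximalIdeal P).spanFinrank) :=
      Cyc.of_equiv (extPre (ModuleCat.of P P) e _) cyc_top
    have hS : (ModuleCat.shortComplexOfCompEqZero N.subtype N.mkQ
        (LinearMap.exact_subtype_mkQ N).linearMap_comp_eq_zero).ShortExact :=
      ModuleCat.shortComplex_shortExact _ (LinearMap.exact_subtype_mkQ N)
        (Submodule.injective_subtype _) (Submodule.mkQ_surjective _)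
    have h2 := length_le_of_exact_mid (P := P)
      (Ext.precompOfLinear (Ext.mk₀ (ModuleCat.ofHom N.mkQ)) P (ModuleCat.of P P)
        (zero_add (maximalIdeal P).spanFinrank))
      (Ext.precompOfLinear (Ext.mk₀ (ModuleCat.ofHom N.subtype)) P (ModuleCat.of P P)
        (zero_add (maximalIdeal P).spanFinrank)) (by
        intro φ hφ
        exact Ext.contravariant_sequence_exact₂ hS (ModuleCat.of P P) φ hφ)
    exact h2.trans (add_le_add (length_le_one_of_cyc hcyc) ih)

theorem surj_of_length {A B : Type u} [AddCommGroup A] [Module P A] [AddCommGroup B] [Module P B]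
    (f : A →ₗ[P] B) (hf : Function.Injective f) (hA : Module.length P A ≠ ⊤)
    (h : Module.length P B ≤ Module.length P A) : Function.Surjective f := by
  have h1 : Module.length P B = Module.length P A + Module.length P (B ⧸ LinearMap.range f) := by
    apply Module.length_eq_add_of_exact f (LinearMap.range f).mkQ hf (Submodule.mkQ_surjective _)
    intro b
    constructor
    · intro hb
      rw [Submodule.mkQ_apply, Submodule.Quotient.mk_eq_zero] at hb
      exact hb
    · rintro ⟨a, rfl⟩
      rw [Submodule.mkQ_apply, Submodule.Quotient.mk_eq_zero]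
      exact ⟨a, rfl⟩
  have h2 : Module.length P (B ⧸ LinearMap.range f) = 0 := by
    rw [h1] at h
    have h4 : Module.length P A + Module.length P (B ⧸ LinearMap.range f) ≤
        Module.length P A + 0 := by rw [add_zero]; exact h
    exact le_antisymm ((ENat.add_le_add_iff_left hA).1 h4) zero_le
  rw [Module.length_eq_zero_iff] at h2
  intro b
  have h3 : (Submodule.Quotient.mk b : B ⧸ LinearMap.range f) = 0 := Subsingleton.elim _ _
  rw [Submodule.Quotient.mk_eq_zero] at h3
  exact h3

end

section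

variable {P : Type u} [CommRing P] [IsRegularLocalRing P] {K : Type v} [Field K] [Algebra K P]

theorem lcPair_map {N N' : Type u} [AddCommGroup N] [Module P N] [AddCommGroup N'] [Module P N']
    (f : N →ₗ[P] N') {n : ℕ} (a : N) (k : ℕ) (hk : ∀ r ∈ maximalIdeal P ^ k, r • a = 0)
    (hk' : ∀ r ∈ maximalIdeal P ^ k, r • f a = 0)
    (x : Ext (ModuleCat.of P N') (ModuleCat.of P P) n) :
    lcPair (f a) k hk' x =
      lcPair a k hk ((Ext.mk₀ (ModuleCat.ofHom f)).comp x (zero_add n)) := by
  unfold lcPair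
  congr 1
  rw [Ext.mk₀_comp_mk₀_assoc]
  congr 2
  apply ModuleCat.hom_ext
  apply LinearMap.ext
  intro r
  obtain ⟨r, rfl⟩ := Submodule.Quotient.mk_surjective _ r
  show r • f a = f (r • a)
  rw [map_smul]

theorem exists_pow_kill {L : Type u} [AddCommGroup L] [Module P L] (hL : IsFiniteLength P L) :
    ∃ k : ℕ, ∀ r ∈ maximalIdeal P ^ k, ∀ a : L, r • a = 0 := by
  induction hL with
  | of_subsingleton => exact ⟨0, fun r _ a => Subsingleton.elim _ _⟩
  | @of_simple_quotient M _ _ N hsimple hN ih =>
    obtain ⟨k, hk⟩ := ih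
    obtain ⟨e⟩ := exists_equiv_kk hsimple
    refine ⟨k + 1, ?_⟩
    have h1 : maximalIdeal P ^ (k + 1) ≤ Module.annihilator P M := by
      rw [pow_succ, Ideal.mul_le]
      intro r hr t ht
      rw [Module.mem_annihilator]
      intro a
      have h2 : t • (Submodule.Quotient.mk a : M ⧸ N) = 0 := by
        apply e.injective
        rw [map_smul, map_zero]
        obtain ⟨w, hw⟩ := Submodule.Quotient.mk_surjective _ (e (Submodule.Quotient.mk a))
        rw [← hw, ← Submodule.Quotient.mk_smul, Submodule.Quotient.mk_eq_zero]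
        exact Ideal.mul_mem_right _ _ ht
      rw [← Submodule.Quotient.mk_smul, Submodule.Quotient.mk_eq_zero] at h2
      have h3 := hk r hr ⟨t • a, h2⟩
      rw [mul_smul]
      exact congrArg Subtype.val h3
    intro r hr a
    exact Module.mem_annihilator.1 (h1 hr) a

/-- Local duality: a class that pairs to zero with all elements is zero. -/
theorem local_duality {n : ℕ} (hn : (maximalIdeal P).spanFinrank = n)
    (hK : Function.Surjective (algebraMap K (ResidueField P)))
    (τ : LC P n →+ K) (hτ : ∀ (c : K) x, τ (algebraMap K P c • x) = c * τ x)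
    (hτ1 : ∃ x : Ext (ModuleCat.of P (P ⧸ maximalIdeal P ^ 1)) (ModuleCat.of P P) n,
      τ (Module.DirectLimit.of P ℕ _ (lcTrans P n) 1 x) ≠ 0)
    {L : Type u} [AddCommGroup L] [Module P L] (hL : IsFiniteLength P L) :
    ∀ x : Ext (ModuleCat.of P L) (ModuleCat.of P P) n,
      (∀ (a : L) (k : ℕ) (hk : ∀ r ∈ maximalIdeal P ^ k, r • a = 0), τ (lcPair a k hk x) = 0) →
      x = 0 := by
  subst hn
  induction hL with
  | of_subsingleton =>
    intro x _
    exact ext_of_subsingleton _ _ x
  | @of_simple_quotient M _ _ N hsimple hN ih =>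
    intro x hx
    obtain ⟨k, hk⟩ := exists_pow_kill (IsFiniteLength.of_simple_quotient hN (N := N))
    have hS : (ModuleCat.shortComplexOfCompEqZero N.subtype N.mkQ
        (LinearMap.exact_subtype_mkQ N).linearMap_comp_eq_zero).ShortExact :=
      ModuleCat.shortComplex_shortExact _ (LinearMap.exact_subtype_mkQ N)
        (Submodule.injective_subtype _) (Submodule.mkQ_surjective _)
    have h1 : (Ext.mk₀ (ModuleCat.ofHom N.subtype)).comp x (zero_add _) = 0 := by
      apply ih
      intro a k' hk'
      rw [← lcPair_map N.subtype a k' hk' (fun r hr => congrArg Subtype.val (hk' r hr))]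
      exact hx _ _ _
    obtain ⟨y, hy⟩ := Ext.contravariant_sequence_exact₂ hS (ModuleCat.of P P) x h1
    have hy' : (Ext.mk₀ (ModuleCat.ofHom N.mkQ)).comp y (zero_add _) = x := hy
    -- the simple case
    suffices hy0 : y = 0 by
      rw [← hy', hy0, Ext.comp_zero]
    have h2 : ∀ (a : M ⧸ N) (k : ℕ) (hk : ∀ r ∈ maximalIdeal P ^ k, r • a = 0),
        τ (lcPair a k hk y) = 0 := by
      intro a k' hk'
      obtain ⟨a, rfl⟩ := Submodule.Quotient.mk_surjective _ a
      have h3 : ∀ r ∈ maximalIdeal P ^ k, r • (N.mkQ a) = 0 := by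
        intro r hr
        rw [← map_smul, hk r hr, map_zero]
      rw [lcPair_indep _ hk' h3 y]
      have h4 := lcPair_map N.mkQ a k (fun r hr => hk r hr a) h3 y
      have h5 := hx a k (fun r hr => hk r hr a)
      rw [← hy', ← h4] at h5
      exact h5
    obtain ⟨e⟩ := exists_equiv_kk hsimple
    have epow : (P ⧸ maximalIdeal P ^ 1) ≃ₗ[P] (P ⧸ maximalIdeal P) :=
      Submodule.quotEquivOfEq _ _ (pow_one _)
    let e1 : (P ⧸ maximalIdeal P ^ 1) ≃ₗ[P] (M ⧸ N) := epow.trans e.symm
    have hcyc : Cyc P (Ext (ModuleCat.of P (P ⧸ maximalIdeal P ^ 1)) (ModuleCat.of P P)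
        (maximalIdeal P).spanFinrank) :=
      Cyc.of_equiv (extPre (ModuleCat.of P P) epow _) cyc_top
    obtain ⟨x₁, hx₁⟩ := hτ1
    rcases hcyc (extPre (ModuleCat.of P P) e1 _ y) x₁ with h3 | ⟨r, hr⟩
    · have := (extPre (ModuleCat.of P P) e1 (maximalIdeal P).spanFinrank).injective
        (h3.trans (map_zero _).symm)
      exact this
    · exfalso
      apply hx₁
      obtain ⟨c, hc⟩ := hK (residue P r)
      have h4 : r - algebraMap K P c ∈ maximalIdeal P := by
        rw [← residue_eq_zero_iff, map_sub, ← hc, sub_eq_zero]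
        rfl
      have h5 : x₁ = algebraMap K P c • extPre (ModuleCat.of P P) e1 _ y := by
        rw [hr, ← sub_eq_zero, ← sub_smul]
        apply smul_ext_eq_zero'
        have h6 : Module.annihilator P (P ⧸ maximalIdeal P ^ 1) = maximalIdeal P := by
          rw [Ideal.annihilator_quotient, pow_one]
        exact h6.symm ▸ h4
      rw [h5, map_smul, hτ]
      have h7 : ∀ r ∈ maximalIdeal P ^ 1, r • (e1 (Submodule.Quotient.mk 1)) = 0 := by
        intro z hz
        rw [← map_smul, ← Submodule.Quotient.mk_smul, smul_eq_mul, mul_one,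
          (Submodule.Quotient.mk_eq_zero _).2 hz, map_zero]
      have h8 := h2 (e1 (Submodule.Quotient.mk 1)) 1 h7
      have h9 : lcPair (e1 (Submodule.Quotient.mk 1)) 1 h7 y =
          Module.DirectLimit.of P ℕ _ (lcTrans P (maximalIdeal P).spanFinrank) 1
            (extPre (ModuleCat.of P P) e1 _ y) := by
        unfold lcPair
        congr 1
        show _ = (Ext.mk₀ (ModuleCat.ofHom e1.toLinearMap)).comp y (zero_add _)
        congr 2
        apply ModuleCat.hom_ext
        apply LinearMap.ext
        intro z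
        obtain ⟨z, rfl⟩ := Submodule.Quotient.mk_surjective _ z
        show z • e1 (Submodule.Quotient.mk 1) = e1 (Submodule.Quotient.mk z)
        rw [← map_smul, ← Submodule.Quotient.mk_smul, smul_eq_mul, mul_one]
      rw [← h9, h8, mul_zero]

end

end Pool.Agent.Lib.MP_1ce8ed_ag
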